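import Pool.Agent.Helper1.T1.Goals

/-!
PROJECT T1: ANN (helper1).
-/

set_option autoImplicit false

noncomputable section

namespace Pool.Agent.Helper1.T1.ANN

open Pool.Agent.Helper1.T1

open Pool.Agent.Helper97.Tate (OO KK SS cf iO evx evK Van Fm)

theorem t (hR : S_RHO) (hP : S_PHI) (hZ : S_CNTZ) (hN : S_NOD) : S_ANN := by
  intro k L c a hk hc ha
  obtain ⟨ρ, hρ⟩ := hR ℂ k hk
  obtain ⟨ζ, hζ, hsep⟩ := hN k c hk hc
  have h1 := fun l : Fin c => hP ℂ k (ζ l) ρ (a l) L hk (hζ l) hρ (ha l).1 (ha l).2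
  choose x y hrel hder hsup hE1 hE2 using h1
  refine ⟨x, y, ⟨ha, hrel, hder, hsup, ?_⟩⟩
  intro e p A B hp hp0 hA hB
  refine hZ ℂ k e c ζ (fun l => PowerSeries.rescale ((ζ l : ℂ) ^ (k * (k - 1))) ρ) (fun _ => ρ) A B p
    hk hζ hsep ?_ (fun _ => ⟨hρ.1, hρ.2.1⟩) hp hp0 ?_ ?_
  · intro l
    refine ⟨?_, ?_⟩
    · rw [← PowerSeries.coeff_zero_eq_constantCoeff_apply, PowerSeries.coeff_rescale, pow_zero,
        one_mul, PowerSeries.coeff_zero_eq_constantCoeff_apply, hρ.1]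
    · rw [PowerSeries.coeff_rescale, pow_one]
      exact mul_ne_zero (pow_ne_zero _ (ζ l).ne_zero) hρ.2.1
  · intro l n hn
    rw [← hE2 l p n]
    exact hA l n hn
  · intro l n hn
    rw [← hE1 l p n]
    exact hB l n hn

end Pool.Agent.Helper1.T1.ANN
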