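import Pool.Agent.Helper1.T1.Goals3

/-!
PROJECT T1: PQ0 and PQ (helper1; remark of helper79).
-/

set_option autoImplicit false

noncomputable section

namespace Pool.Agent.Helper1.T1.PQ0

open Pool.Agent.Helper1.T1

theorem t : S_PQ0 := by
  intro v R hv hR
  have hv0 : 0 < v := by linarith
  have hR0 : 0 < R := by linarith
  have hE0 : 0 < v ^ 2 / R := by positivity
  have hEv : v ^ 2 / R < v := by
    rw [div_lt_iff₀ hR0, sq]
    exact mul_lt_mul_of_pos_left hR hv0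
  rcases lt_or_ge 1 (v ^ 2 / R) with h | h
  · refine ⟨1, ⌈v⌉₊ - 1, le_rfl, Nat.coprime_one_left _, ?_, ?_, ?_, fun _ => rfl⟩
    · push_cast
      linarith
    · have h1 : v ≤ ⌈v⌉₊ := Nat.le_ceil v
      have h2 : 1 ≤ ⌈v⌉₊ := Nat.one_le_iff_ne_zero.2 (Nat.ceil_pos.2 hv0).ne'
      rw [Nat.cast_sub h2]
      push_cast
      linarith
    · have h1 := Nat.ceil_lt_add_one hv0.le
      have h2 : 1 ≤ ⌈v⌉₊ := Nat.one_le_iff_ne_zero.2 (Nat.ceil_pos.2 hv0).ne'
      rw [Nat.cast_sub h2]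
      push_cast
      linarith
  · have h1 : 1 < R / v := by
      rw [lt_div_iff₀ hv0]
      linarith
    have h2 : (⌊R / v⌋₊ : ℝ) ≤ R / v := Nat.floor_le (by positivity)
    have h3 : R / v < ⌊R / v⌋₊ + 1 := Nat.lt_floor_add_one _
    have h4 : R / v * (v ^ 2 / R) = v := by
      field_simp
    refine ⟨⌊R / v⌋₊, 1, ?_, Nat.coprime_one_right _, ?_, ?_, by exact_mod_cast hv, fun h5 =>
      absurd h5 (not_lt.2 h)⟩
    · exact Nat.one_le_iff_ne_zero.2 (Nat.floor_pos.2 h1.le).ne'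
    · have := mul_le_mul_of_nonneg_right h2 hE0.le
      linarith
    · have := mul_lt_mul_of_pos_right h3 hE0
      push_cast
      linarith

theorem pq : S_PQ := by
  intro v R hv hR _ _
  obtain ⟨p, q, h1, h2, h3, h4, h5, -⟩ := t v R hv hR
  exact ⟨p, q, h1, h2, h3, h4, h5⟩

end Pool.Agent.Helper1.T1.PQ0
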