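import Pool.Agent.Helper1.T1.Goals

/-!
PROJECT T1, SHARPER FORM (helper1). The integers `e_l` are removed from the hypotheses.

THEOREM. Let `k ≥ 3`, `2 c ≤ (k - 1)(k - 2)`; for `l < c` let a rectangle `W_l × H_l` be cut by guillotine
cuts into squares of sides `μ_i`, `i ∈ A_l` (disjoint), `D² = ∑ W_l H_l`, `k H_l < D < k W_l` for all `l`. Then
`∑ μ_i m_i ≤ D d` for every nonzero form of degree `d` with multiplicities `m_i` at very general points.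

PROOF. In CELL the shear by the integer `e` (chords in the direction `(1, e)`) is replaced by a unimodular
map (chords in the direction `(p, q)`, `p ≥ 1`, `q` coprime). The wedge has the vertices `(0, -α t)`, `(0, β t)`,
apex `(t, 0)` in the coordinates `(j, n)`; the lines `q j - p n = X` meet it, if `p α ≤ q`, for
`-p β t < X ≤ q t`, and at most `⌈(q + p β) t - s (q + p β)²/(α + β)⌉` of them have at least `s + 1` points. So
`E_l = V_l² H_l/(W_l t²)` is reached if `p E_l t ≤ V_l` and `V_l/t - p E_l < q < V_l/t`. Put `v = V_l/t`,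
`R = W_l/H_l`, `E = v²/R`. PQ: if `1 < v < R` and `(v, R) ≠ (2, 4), (3, 9)` there are such `p, q`. (The exceptions
are avoided because `V_l` may be made a little smaller.)
-/

set_option autoImplicit false

noncomputable section

namespace Pool.Agent.Helper1.T1

open Module Pool.Agent.Helper97 Pool.Agent.Helper97.Nag Pool.Agent.Helper98.UN Pool.Agent.Helper1.All

open Pool.Agent.Helper97.Tate (OO KK SS cf iO evx evK Van Fm)

/-- AFF. Unimodular maps (as S_SHR).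
PROOF. `x^n y^j` at the point `(u^(-p) w^b, u^q w^a)` is `u^(q j - p n) w^(a j + b n)`. The conditions of
multiplicity `m` depend only on the filtration of the polynomials in `(j, n)` by the total degree, which is
preserved by the affine map `(j, n) ↦ (a j + b n + c, q j - p n)` of determinant `± 1`. -/
def S_AFF : Prop := ∀ (N : ℕ) (M : Fin N → ℕ) (u w : Fin N → ℚ) (p q a b c : ℤ)
  (S : Finset (ℕ × ℤ)), a * p + b * q = 1 → (∀ i, 0 < u i) → (∀ i, 0 < w i) →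
  (∀ s ∈ S, 0 ≤ a * s.1 + b * s.2 + c) →
  IndepC M u w (S.image fun s => ((a * s.1 + b * s.2 + c).toNat, q * s.1 - p * s.2)) →
  IndepC M (fun i => u i ^ (-p) * w i ^ b) (fun i => u i ^ q * w i ^ a) S

/-- CELLP (hypothesis AFF). One cell.
PROOF. `β = T/a`, `α = T/b`, `t = d/k`, `E = α + β`. `p', q'` with `p' p + q' q = 1`; the finite set of all
the `(j, n)` with InW is mapped by `(j, n) ↦ (p' j + q' n + c, q j - p n)`, `c` large. A line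
`q j - p n = X` with at least `s + 1` points, `s ≥ 1`, contains two points whose `j` differ by at least
`s p`; for the points of the open wedge `j < (X + p β t)/(q + p β)`, `j ≥ 0` and (if `q > p α`)
`(X - p α t)/(q - p α) < j` (if `q = p α`: `X < p α t`). So `s p (q + p β) - p β t < X < q t -
s (q - p α)(q + p β)/E`, an open interval of length `(q + p β) t - s (q + p β)²/E`. For `s = 0`:
`-p β t < X ≤ q t`. The line of the apex contains only the apex. So the number of these lines is at most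
`⌈(q + p β) t - s (q + p β)²/E⌉⁺ ≤ ⌈V - s W/H⌉⁺ ≤ lam s`. FIN.emp, AFF, subsets. -/
def S_CELLP : Prop := ∀ (n : ℕ) (m : Fin n → ℕ) (A : Finset (Fin n)) (lam : ℕ → ℕ) (H W V : ℝ)
  (k d a b T p q : ℕ), Dg m A lam → 0 < H → 0 < W →
  (∀ s a' : ℕ, (a' : ℝ) * H + W * s < V * H → a' < lam s) →
  1 ≤ k → 1 ≤ d → 0 < a → 0 < b → 0 < T → 1 ≤ p → Nat.Coprime p q →
  ((q : ℝ) + p * ((T : ℝ) / a)) * ((d : ℝ) / k) ≤ V → p * ((T : ℝ) / b) ≤ q →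
  W / H * ((T : ℝ) / a + (T : ℝ) / b) ≤ ((q : ℝ) + p * ((T : ℝ) / a)) ^ 2 →
  ∃ u w : Fin n → ℚ, (∀ i, 0 < u i) ∧ (∀ i, 0 < w i) ∧
    ∀ S : Finset (ℕ × ℤ), (∀ q ∈ S, InW k d a b T q.1 q.2) →
      IndepC (fun i => if i ∈ A then m i else 0) u w S

/-- RATP. Rational slopes (as S_RAT, which is the case `p l = 1`).
PROOF. `β_0 = (V/t - q)/p > 0`, `α_0 = E - β_0 > 0`, `p α_0 ≤ q`, `R E ≤ (q + p β_0)²`. Choose rationals
`0 < β < β_0`, `0 < α < α_0`, `α ≠ β`, with `∑ (α + β) > k²` and `R (α + β) ≤ (q + p β)²`: `β = β_0 - ε'`,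
`α ≤ α_0 - ε''`, `R ε'' ≥ 2 p (V/t) ε'`. Then `L` = a common multiple such that `a_l = α_l L/(α_l + β_l)` and
`T_l = β_l a_l = α_l (L - a_l)` are integers. -/
def S_RATP : Prop := ∀ (c k d : ℕ) (V R E : Fin c → ℝ) (p q : Fin c → ℕ), 1 ≤ k → 1 ≤ d →
  (∀ l, 0 < R l ∧ 1 ≤ p l ∧ p l * E l * ((d : ℝ) / k) ≤ V l ∧
    R l * E l * ((d : ℝ) / k) ^ 2 ≤ V l ^ 2 ∧
    V l / ((d : ℝ) / k) - p l * E l < q l ∧ (q l : ℝ) < V l / ((d : ℝ) / k)) →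
  ((k : ℝ) ^ 2 < ∑ l, E l) →
  ∃ (L : ℕ) (a T : Fin c → ℕ), (∀ l, 0 < a l ∧ a l < L ∧ 2 * a l ≠ L ∧ 0 < T l) ∧
    ((k : ℝ) ^ 2 < ∑ l, ((T l : ℝ) / a l + (T l : ℝ) / ((L - a l : ℕ) : ℝ))) ∧
    ∀ l, ((q l : ℝ) + p l * ((T l : ℝ) / a l)) * ((d : ℝ) / k) ≤ V l ∧
      p l * ((T l : ℝ) / ((L - a l : ℕ) : ℝ)) ≤ q l ∧
      R l * ((T l : ℝ) / a l + (T l : ℝ) / ((L - a l : ℕ) : ℝ)) ≤
        ((q l : ℝ) + p l * ((T l : ℝ) / a l)) ^ 2

/-- PQ. PROOF. `E = v²/R`. (i) `E > 1`: `p = 1`; `E ≤ v`, and the open interval from `v - E ≥ 0` to `v` has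
length `> 1`. (ii) `E < 1`: `p = ⌈R/v⌉ - 1 ≥ 1`, `q = 1`: `p < R/v`, `(p + 1) E ≥ v`. (iii) `E = 1`, `R = v²`, `v`
not an integer: `p = ⌊v⌋`, `q = 1`. (iv) `E = 1`, `v = N ≥ 4`: `p = N - 2`, `q = N - 1`. -/
def S_PQ : Prop := ∀ v R : ℝ, 1 < v → v < R → ¬(v = 2 ∧ R = 4) → ¬(v = 3 ∧ R = 9) →
  ∃ p q : ℕ, 1 ≤ p ∧ Nat.Coprime p q ∧ p * (v ^ 2 / R) ≤ v ∧ v - p * (v ^ 2 / R) < q ∧ (q : ℝ) < v

/-- EMPT2 (helper1; hypotheses MAINT, CELLP, RATP, PQ). -/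
def S_EMPT2 : Prop := ∀ (k c d n : ℕ) (m : Fin n → ℕ) (A : Fin c → Finset (Fin n))
  (lam : Fin c → ℕ → ℕ) (H W V : Fin c → ℝ), 3 ≤ k → 2 * c ≤ (k - 1) * (k - 2) →
  1 ≤ d → (∀ l l', l ≠ l' → Disjoint (A l) (A l')) → (∀ l, Dg m (A l) (lam l) ∧ 0 < H l ∧ 0 < W l) →
  (∀ (l : Fin c) (s a' : ℕ), (a' : ℝ) * H l + W l * s < V l * H l → a' < lam l s) →
  (∀ l, 1 < V l / ((d : ℝ) / k) ∧ V l / ((d : ℝ) / k) < W l / H l) →
  ((k : ℝ) ^ 2 < ∑ l, (V l / ((d : ℝ) / k)) ^ 2 * (H l / W l)) →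
  ∃ (K : Type) (_ : Field K) (_ : CharZero K) (P : Fin n → Fin 3 → K),
    finrank K (Fm K d ⊓ ⨅ l, Van (P l) (m l) : Submodule K (MvPolynomial (Fin 3) K)) = 0

/-- NEFA2 (instead of NEFA; simpler).
PROOF. `Y = ∑ X l > D d`. Choose `p ≥ 1` with `p (Y - D d) ≥ D C0 + 1`, then `s` large. `t = d'/k`,
`V l = s W_l + p X_l/H_l`. (i) `∑ V l² H_l/W_l = ∑ (s² W_l H_l + 2 s p X_l + p² X_l²/(W_l H_l)) ≥
s² D² + 2 s p Y`, and `k² t² = d'² ≤ (s D + C0 + p d)²`; the difference is at least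
`2 s (p Y - p D d - D C0) - (C0 + p d)² ≥ 2 s - (C0 + p d)² > 0`. (ii) `V l/t > 1`: `k s W_l > s D + C0 + p d`
for `s` large because `k W_l > D`. (iii) `V l/t < W_l/H_l`: `k (s W_l + p X_l/H_l) H_l < s D W_l` for `s` large
because `k H_l < D`. -/
def S_NEFA2 : Prop := ∀ (c k d : ℕ) (W H X : Fin c → ℝ) (D C0 : ℝ), 1 ≤ k →
  (∀ l, 0 < W l ∧ 0 < H l ∧ 0 ≤ X l) → 0 < D → D ^ 2 = ∑ l, W l * H l →
  (∀ l, k * H l < D ∧ D < k * W l) → D * d < ∑ l, X l → 0 ≤ C0 →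
  ∃ p s : ℕ, 1 ≤ p ∧ 1 ≤ s ∧ ∀ d' : ℕ, s * D ≤ d' → (d' : ℝ) ≤ s * D + C0 + p * d →
    1 ≤ d' ∧
    ((k : ℝ) ^ 2 < ∑ l, ((s * W l + p * X l / H l) / ((d' : ℝ) / k)) ^ 2 * (H l / W l)) ∧
    ∀ l, 1 < (s * W l + p * X l / H l) / ((d' : ℝ) / k) ∧
      (s * W l + p * X l / H l) / ((d' : ℝ) / k) < W l / H l

/-- NEF2 (helper1; hypotheses EMPT2, NEFA2, BIG, AREA). -/
def S_NEF2 : Prop := ∀ n : ℕ, ∃ 𝒢 : Set (MvPolynomial (Fin n × Fin 3) ℂ), 𝒢.Countable ∧ (0 ∉ 𝒢) ∧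
  ∀ P : Fin n → Fin 3 → ℂ, (∀ i, P i ≠ 0) →
    (∀ G ∈ 𝒢, MvPolynomial.eval (fun ij : Fin n × Fin 3 => P ij.1 ij.2) G ≠ 0) →
    ∀ (k c : ℕ) (μ : Fin n → ℝ) (W H : Fin c → ℝ) (A : Fin c → Finset (Fin n)) (D : ℝ), 3 ≤ k →
      2 * c ≤ (k - 1) * (k - 2) → (∀ l l', l ≠ l' → Disjoint (A l) (A l')) →
    (∀ l, Cut μ μ (W l) (H l) (A l)) → 0 < D → D ^ 2 = ∑ l, W l * H l →
    (∀ l, k * H l < D ∧ D < k * W l) →
    ∀ (d : ℕ) (m : Fin n → ℕ) (f : MvPolynomial (Fin 3) ℂ), f.IsHomogeneous d → f ≠ 0 →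
      (∀ i, f ∈ (Ideal.span {g : MvPolynomial (Fin 3) ℂ |
        g.IsHomogeneous 1 ∧ MvPolynomial.eval (P i) g = 0}) ^ (m i)) →
      ∑ l, ∑ i ∈ A l, μ i * m i ≤ D * d

end Pool.Agent.Helper1.T1
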