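import Pool.Agent.Helper1.T1.Goals2

/-!
PROJECT T1, THE STRICT INEQUALITY (helper1). If `k H_l < D < k W_l` for all `l`, then
`∑ μ_i m_i < D d` for every nonzero form of degree `d ≥ 1` (Nagata's inequality is strict).

PROOF. Suppose `∑ μ_i m_i = D d` and `L(d; m)` is not empty. The cells may be scaled independently
(`μ_i ↦ s_l μ_i` for `i ∈ A_l`, `s_l` near `1`), the inequality holds for all these classes, so the derivative
vanishes and `X_l = d W_l H_l/D` for all `l` (Helper1/T1/STR.lean). So `v_l = k X_l/(d H_l) = k W_l/D` is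
rational (Dehn), `R_l = W_l/H_l` is rational and `∑ E_l = k²`, `E_l = v_l²/R_l`. EQUALITY CASE OF THE EMPTINESS:
there is an `l₀` with `E_(l₀) > 1` (as `c < k²`), for it `p = 1`, `q > α`. This cell may be taken closed on the
side of `-α`, at no cost (goal CELLC). Now replace its slopes by `β - ε`, `α + ε`: for small `ε` the open
wedge of the new slopes has the same lattice points as the half closed wedge, the sum of all slopes is
still `k²`, and `(β - ε) τ` is not an integer, so the number of zeros in BEZ is still larger than `k e`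
(goal BEZE). The other cells are not changed. (`2 a = L` is possible now; then `u ≠ 1` is needed.)
-/

set_option autoImplicit false

noncomputable section

namespace Pool.Agent.Helper1.T1

open Module Pool.Agent.Helper97 Pool.Agent.Helper97.Nag Pool.Agent.Helper98.UN Pool.Agent.Helper1.All

open Pool.Agent.Helper97.Tate (OO KK SS cf iO evx evK Van Fm)

/-- the wedge, closed on one side -/
def InWc (k d : ℕ) (α β : ℝ) (j : ℕ) (n : ℤ) : Prop :=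
  (k * j < d ∧ (n : ℝ) < β * ((d : ℝ) / k - j) ∧ -(α * ((d : ℝ) / k - j)) ≤ n) ∨ (k * j = d ∧ n = 0)

/-- as IsAnn, with a better clause for the derivative -/
def IsAnnE {F : Type} [Field F] (k L : ℕ) {c : ℕ} (a : Fin c → ℕ) (x y : Fin c → SS F) : Prop :=
  IsAnn k L a x y ∧ ∀ l, ∀ u : Fˣ, (2 * a l ≠ L ∨ u ^ 4 ≠ 1) → PowerSeries.constantCoeff
    (evK u ((Polynomial.derivative (Polynomial.dickson 1 (1 : SS F) k)).eval (x l))) ≠ 0

/-- PHIE (as S_PHI, better clause for the derivative; adapt Helper66/T1/PHI.lean).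
PROOF. If the derivative is `0` at `s = 0` then `c q^(L-a)/u = - q^a u`, `c = ± 1`, so `L = 2 a` and `u² = - c`. -/
def S_PHIE : Prop := ∀ (F : Type) [Field F] [CharZero F] (k : ℕ) (ζ : Fˣ) (ρ : PowerSeries F)
  (a L : ℕ), 3 ≤ k → IsNode k ζ → IsRho k ρ → 0 < a → a < L →
  ∃ x y : SS F, ((Polynomial.dickson 1 (1 : SS F) k).eval x -
      (Polynomial.dickson 1 (1 : SS F) (k - 1)).eval y = PowerSeries.X ^ L) ∧
    (∀ u : Fˣ, (2 * a ≠ L ∨ u ^ 4 ≠ 1) → PowerSeries.constantCoeff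
      (evK u ((Polynomial.derivative (Polynomial.dickson 1 (1 : SS F) k)).eval x)) ≠ 0) ∧
    (∀ (p : MvPolynomial (Fin 2) F) (N n : ℤ), cf (Ph x y p) N n ≠ 0 →
      (a : ℤ) * n ≤ N ∧ -((((L - a : ℕ) : ℤ)) * n) ≤ N) ∧
    (∀ (p : MvPolynomial (Fin 2) F) (n : ℕ), cf (Ph x y p) ((a : ℤ) * n) n =
      PowerSeries.coeff n (lev k (cnj k ζ) ρ p)) ∧
    (∀ (p : MvPolynomial (Fin 2) F) (n : ℕ), cf (Ph x y p) (((L - a : ℕ) : ℤ) * n) (-(n : ℤ)) =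
      PowerSeries.coeff n (lev k ζ (PowerSeries.rescale ((ζ : F) ^ (k * (k - 1))) ρ) p))

/-- BEZE. BEZ in the case of equality (adapt Helper30/T1/BEZ.lean).
PROOF. `e = d - k j ≥ 1`. `A l = ⌈T_l e/(k (L - a_l))⌉`, `B l = ⌈T_l e/(k a_l)⌉`: `∑ (A l + B l) ≥
(e/k) ∑ (T_l/a_l + T_l/(L - a_l)) ≥ k e`, and the first inequality is strict because `T_l e/(k a_l)` is not an
integer for some `l`. -/
def S_BEZE : Prop := ∀ (F : Type) [Field F] (k L c d : ℕ) (a T : Fin c → ℕ) (x y : Fin c → SS F),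
  1 ≤ k → IsAnn k L a x y →
  ((k : ℝ) ^ 2 ≤ ∑ l, ((T l : ℝ) / a l + (T l : ℝ) / ((L - a l : ℕ) : ℝ))) →
  (∀ j, k * j < d → ∃ l, ¬ (k * a l ∣ T l * (d - k * j))) →
  ∀ j, k * j < d → ∀ v : Fin (nf k (d - k * j)).card → F, v ≠ 0 → ∃ (l : Fin c) (n : ℕ),
    ((k : ℤ) * a l * n < T l * ((d : ℤ) - k * j) ∧
      ∑ r : Fin (nf k (d - k * j)).card, v r * cf (x l ^ (nfi k (d - k * j) r).1 *
        y l ^ (nfi k (d - k * j) r).2) ((a l : ℤ) * n) n ≠ 0) ∨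
    ((k : ℤ) * ((L - a l : ℕ) : ℤ) * n < T l * ((d : ℤ) - k * j) ∧
      ∑ r : Fin (nf k (d - k * j)).card, v r * cf (x l ^ (nfi k (d - k * j) r).1 *
        y l ^ (nfi k (d - k * j) r).2) (((L - a l : ℕ) : ℤ) * n) (-(n : ℤ)) ≠ 0)

/-- MAINE (helper1; as MAINT, with BEZE). -/
def S_MAINE : Prop := ∀ (k L c d n : ℕ) (m : Fin n → ℕ) (g : Fin n → Fin c) (u w : Fin n → ℚ)
  (a T : Fin c → ℕ), 3 ≤ k → 2 * c ≤ (k - 1) * (k - 2) → 0 < c → (∀ i, 0 < u i) → (∀ i, 0 < w i) →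
  (∀ l, 0 < a l ∧ a l < L ∧ 0 < T l) → (∀ i, u i ≠ 1) →
  ((k : ℝ) ^ 2 ≤ ∑ l, ((T l : ℝ) / a l + (T l : ℝ) / ((L - a l : ℕ) : ℝ))) →
  (∀ j, k * j < d → ∃ l, ¬ (k * a l ∣ T l * (d - k * j))) →
  (∀ (l : Fin c) (C : Finset (ℕ × ℤ)), (∀ q ∈ C, InW k d (a l) (L - a l) (T l) q.1 q.2) →
    IndepC (fun i => if g i = l then m i else 0) u w C) →
  ∃ (K : Type) (_ : Field K) (_ : CharZero K) (P : Fin n → Fin 3 → K),
    finrank K (Fm K d ⊓ ⨅ l, Van (P l) (m l) : Submodule K (MvPolynomial (Fin 3) K)) = 0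

/-- CELLC (hypothesis AFF). One cell, the wedge closed on one side (adapt Helper35/T1/CELLP.lean). NOTE
`p α < q`, strict.
PROOF. `t = d/k`, `E = α + β`. For the points `-α (t - j) ≤ n < β (t - j)`, `0 ≤ j < t`, of the line `X = q j - p n`:
`j < (X + p β t)/(q + p β)`, `j ≥ 0`, `j ≥ (X - p α t)/(q - p α)`. If the line has at least `s + 1` points
(`s ≥ 1`), two of them differ by at least `s p` in `j`, so `s p (q + p β) - p β t < X <
q t - s (q - p α)(q + p β)/E` (both strict, because the upper bound for `j` is strict), as in CELLP. `s = 0`: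
`-p β t < X ≤ q t` (apex included). The line of the apex contains only the apex. The rest as in CELLP. -/
def S_CELLC : Prop := ∀ (n : ℕ) (m : Fin n → ℕ) (A : Finset (Fin n)) (lam : ℕ → ℕ) (H W V : ℝ)
  (k d : ℕ) (α β : ℝ) (p q : ℕ), Dg m A lam → 0 < H → 0 < W →
  (∀ s a' : ℕ, (a' : ℝ) * H + W * s < V * H → a' < lam s) →
  1 ≤ k → 1 ≤ d → 0 < α → 0 < β → 1 ≤ p → Nat.Coprime p q →
  ((q : ℝ) + p * β) * ((d : ℝ) / k) ≤ V → p * α < q →
  W / H * (α + β) ≤ ((q : ℝ) + p * β) ^ 2 →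
  ∃ u w : Fin n → ℚ, (∀ i, 0 < u i) ∧ (∀ i, 0 < w i) ∧
    ∀ S : Finset (ℕ × ℤ), (∀ q ∈ S, InWc k d α β q.1 q.2) →
      IndepC (fun i => if i ∈ A then m i else 0) u w S

/-- RATE. The slopes; those of `l₀` are moved a little.
PROOF. `M ≥ 1` a common denominator of all the `α l, β l`; `ε = 1/(3 M d)`; `β'_(l₀) = β - ε > 0`,
`α'_(l₀) = α + ε`, `α'_l = α_l`, `β'_l = β_l` for `l ≠ l₀`, `E = α + β`. Choose `L ≥ 1` such that all the
`a_l = L α'_l/E_l` and `T_l = β'_l a_l` are integers; `T_l/a_l = β'_l`, `T_l/(L - a_l) = α'_l`. For `e = d - k j`,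
`1 ≤ e ≤ d`, `l = l₀`: `β e/k` is in `(1/(M k)) ℤ` and `0 < ε e/k < 1/(M k)`, so `T e/(k a) = β' e/k` is not an
integer. If `n > -α' e/k` and `n < -α e/k` then `M k n` is an integer between `-M α e - M ε e` and `-M α e`,
impossible as `M ε e < 1`. -/
def S_RATE : Prop := ∀ (c k d : ℕ) (l₀ : Fin c) (α β : Fin c → ℚ), 1 ≤ k → 1 ≤ d →
  (∀ l, 0 < α l ∧ 0 < β l) → ((k : ℚ) ^ 2 ≤ ∑ l, (α l + β l)) →
  ∃ (L : ℕ) (a T : Fin c → ℕ), (∀ l, 0 < a l ∧ a l < L ∧ 0 < T l) ∧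
    (∀ l, l ≠ l₀ → (T l : ℝ) / a l = β l ∧ (T l : ℝ) / ((L - a l : ℕ) : ℝ) = α l) ∧
    ((k : ℝ) ^ 2 ≤ ∑ l, ((T l : ℝ) / a l + (T l : ℝ) / ((L - a l : ℕ) : ℝ))) ∧
    (∀ j, k * j < d → ¬ (k * a l₀ ∣ T l₀ * (d - k * j))) ∧
    ∀ (j : ℕ) (n : ℤ), InW k d (a l₀) (L - a l₀) (T l₀) j n →
      InWc k d ((α l₀ : ℚ) : ℝ) ((β l₀ : ℚ) : ℝ) j n

/-- PQ0: PQ without exceptions. PROOF. `E = v²/R`. (i) `E > 1`: `p = 1`; `E ≤ v`, and the open interval from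
`v - E ≥ 0` to `v` has length `> 1`. (ii) `E ≤ 1`: `q = 1`, `p = ⌊R/v⌋ ≥ 1`: `p E ≤ v`, `(p + 1) E > v`. -/
def S_PQ0 : Prop := ∀ v R : ℝ, 1 < v → v < R →
  ∃ p q : ℕ, 1 ≤ p ∧ Nat.Coprime p q ∧ p * (v ^ 2 / R) ≤ v ∧ v - p * (v ^ 2 / R) < q ∧
    (q : ℝ) < v ∧ (1 < v ^ 2 / R → p = 1)

/-- EMPTE (helper1; hypotheses MAINE, CELLC, CELLP, RATE, PQ0). -/
def S_EMPTE : Prop := ∀ (k c d n : ℕ) (m : Fin n → ℕ) (A : Fin c → Finset (Fin n))
  (lam : Fin c → ℕ → ℕ) (H W V : Fin c → ℝ) (v R : Fin c → ℚ), 3 ≤ k →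
  2 * c ≤ (k - 1) * (k - 2) → 1 ≤ d →
  (∀ l l', l ≠ l' → Disjoint (A l) (A l')) → (∀ l, Dg m (A l) (lam l) ∧ 0 < H l ∧ 0 < W l) →
  (∀ (l : Fin c) (s a' : ℕ), (a' : ℝ) * H l + W l * s < V l * H l → a' < lam l s) →
  (∀ l, V l / ((d : ℝ) / k) = v l ∧ W l / H l = R l ∧ 1 < v l ∧ v l < R l) →
  ((k : ℚ) ^ 2 ≤ ∑ l, v l ^ 2 / R l) →
  ∃ (K : Type) (_ : Field K) (_ : CharZero K) (P : Fin n → Fin 3 → K),
    finrank K (Fm K d ⊓ ⨅ l, Van (P l) (m l) : Submodule K (MvPolynomial (Fin 3) K)) = 0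

end Pool.Agent.Helper1.T1
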