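import Pool.Agent.Helper1.T1.Fin
import Pool.Agent.Helper1.T1.PQ0
import Pool.Agent.Helper4.T1.RHO
import Pool.Agent.Helper66.T1.PHI
import Pool.Agent.Helper15.T1.CNTZ
import Pool.Agent.Helper72.T1.NOD
import Pool.Agent.Helper14.T1.CRVT
import Pool.Agent.Helper44.T1.LEVT
import Pool.Agent.Helper79.T1.POT
import Pool.Agent.Helper30.T1.BEZ
import Pool.Agent.Helper35.T1.AFF
import Pool.Agent.Helper35.T1.CELLP
import Pool.Agent.Helper35.T1.CELLC
import Pool.Agent.Helper8.T1.RATP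
import Pool.Agent.Helper57.T1.NEFA2
import Pool.Agent.Helper69.T1.BIG
import Pool.Agent.Helper95.T1.AREA

/-!
PROJECT T1: assembly (helper1).
-/

set_option autoImplicit false

noncomputable section

namespace Pool.Agent.Helper1.T1

open Pool.Agent.Helper97.Nag (all_MIKV)

open Pool.Agent.Helper97.Tate (all_EVC)

theorem all_RHO : S_RHO := Pool.Agent.Helper4.T1.RHO.t
theorem all_PHI : S_PHI := Pool.Agent.Helper66.T1.PHI.t
theorem all_CNTZ : S_CNTZ := Pool.Agent.Helper15.T1.CNTZ.t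
theorem all_NOD : S_NOD := Pool.Agent.Helper72.T1.NOD.t
theorem all_ANN : S_ANN := ANN.t all_RHO all_PHI all_CNTZ all_NOD
theorem all_CRVT : S_CRVT := Pool.Agent.Helper14.T1.CRVT.t
theorem all_LEVT : S_LEVT := Pool.Agent.Helper44.T1.LEVT.t
theorem all_POT : S_POT := Pool.Agent.Helper79.T1.POT.t
theorem all_BEZ : S_BEZ := Pool.Agent.Helper30.T1.BEZ.t
theorem all_MAINT : S_MAINT := MAINT.t all_ANN all_CRVT all_LEVT all_POT all_BEZ all_MIKV all_EVC
theorem all_AFF : S_AFF := Pool.Agent.Helper35.T1.AFF.t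
theorem all_CELLP : S_CELLP := Pool.Agent.Helper35.T1.CELLP.t all_AFF
theorem all_CELLC : S_CELLC := Pool.Agent.Helper35.T1.CELLC.t all_AFF
theorem all_RATP : S_RATP := Pool.Agent.Helper8.T1.RATP.t
theorem all_PQ0 : S_PQ0 := PQ0.t
theorem all_PQ : S_PQ := PQ0.pq
theorem all_EMPT2 : S_EMPT2 := EMPT2.t all_MAINT all_CELLP all_RATP all_PQ
theorem all_NEFA2 : S_NEFA2 := Pool.Agent.Helper57.T1.NEFA2.t
theorem all_BIG : S_BIG := Pool.Agent.Helper69.T1.BIG.t
theorem all_AREA : S_AREA := Pool.Agent.Helper95.T1.AREA.t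

end Pool.Agent.Helper1.T1
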