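import Pool.Agent.Helper1.T1.Goals

/-!
PROJECT T1: EMPT (helper1).
-/

set_option autoImplicit false

noncomputable section

namespace Pool.Agent.Helper1.T1.EMPT

open Module Pool.Agent.Helper97 Pool.Agent.Helper97.Nag Pool.Agent.Helper98.UN Pool.Agent.Helper1.All
  Pool.Agent.Helper1.T1

open Pool.Agent.Helper97.Tate (OO KK SS cf iO evx evK Van Fm)

/-- more conditions -/
theorem mono {n : ℕ} {M M' : Fin n → ℕ} {u w u' w' : Fin n → ℚ} {C : Finset (ℕ × ℤ)}
    (h : IndepC M u w C) (h1 : ∀ i, M i ≤ M' i)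
    (h2 : ∀ i, M i ≠ 0 → u' i = u i ∧ w' i = w i) : IndepC M' u' w' C := by
  intro a ha
  apply h a
  intro l α β hl
  have h3 := ha l α β (hl.trans_le (h1 l))
  have h4 := h2 l (by omega)
  rw [h4.1, h4.2] at h3
  exact h3

theorem t (hM : S_MAINT) (hC : S_CELL) (hR : S_RAT) : S_EMPT := by
  intro k c d n m A lam H W V E e hk hc hd hdis hDg hlam hE hsum
  have hc0 : 0 < c := by
    rcases Nat.eq_zero_or_pos c with h0 | h0
    · subst h0
      rw [Finset.univ_eq_empty, Finset.sum_empty] at hsum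
      exact absurd hsum (not_lt.2 (by positivity))
    · exact h0
  obtain ⟨L, a, T, h1, h2, h3⟩ := hR c k d V (fun l => W l / H l) E e (by omega) hd
    (fun l => ⟨div_pos (hDg l).2.2 (hDg l).2.1, (hE l).1, (hE l).2.1, (hE l).2.2.1, (hE l).2.2.2⟩)
    hsum
  have h4 : ∀ l : Fin c, ∃ u w : Fin n → ℚ, (∀ i, 0 < u i) ∧ (∀ i, 0 < w i) ∧
      ∀ S : Finset (ℕ × ℤ), (∀ q ∈ S, InW k d (a l) (L - a l) (T l) q.1 q.2) →
        IndepC (fun i => if i ∈ A l then m i else 0) u w S := by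
    intro l
    refine hC n m (A l) (lam l) (H l) (W l) (V l) k d (a l) (L - a l) (T l) (e l) (hDg l).1
      (hDg l).2.1 (hDg l).2.2 (hlam l) (by omega) hd (h1 l).1 ?_ (h1 l).2.2.2 (h3 l).1 (h3 l).2.1
      (h3 l).2.2
    have := (h1 l).2.1
    omega
  choose u w hu hw hcell using h4
  classical
  have hg : ∀ i : Fin n, ∃ l : Fin c, ∀ l', i ∈ A l' → l' = l := by
    intro i
    by_cases hi : ∃ l, i ∈ A l
    · obtain ⟨l, hl⟩ := hi
      refine ⟨l, fun l' hl' => ?_⟩
      by_contra hne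
      exact Finset.disjoint_left.1 (hdis l' l hne) hl' hl
    · push Not at hi
      exact ⟨⟨0, hc0⟩, fun l' hl' => absurd hl' (hi l')⟩
  choose g hg using hg
  refine hM k L c d n m g (fun i => u (g i) i) (fun i => w (g i) i) a T hk hc hc0
    (fun i => hu _ i) (fun i => hw _ i) h1 h2 ?_
  intro l C hCl
  apply mono (hcell l C hCl)
  · intro i
    by_cases hi : i ∈ A l
    · rw [if_pos hi, if_pos (hg i l hi).symm]
    · rw [if_neg hi]
      exact Nat.zero_le _
  · intro i hi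
    by_cases hi' : i ∈ A l
    · rw [← hg i l hi']
      exact ⟨rfl, rfl⟩
    · rw [if_neg hi'] at hi
      exact absurd rfl hi

end Pool.Agent.Helper1.T1.EMPT
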