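import Pool.Agent.Helper1.T1.Goals2
import Pool.Agent.Helper1.T1.EMPT

/-!
PROJECT T1: EMPT2 (helper1).
-/

set_option autoImplicit false

noncomputable section

namespace Pool.Agent.Helper1.T1.EMPT2

open Module Pool.Agent.Helper97 Pool.Agent.Helper97.Nag Pool.Agent.Helper98.UN Pool.Agent.Helper1.All
  Pool.Agent.Helper1.T1

open Pool.Agent.Helper97.Tate (OO KK SS cf iO evx evK Van Fm)

open Filter Topology

theorem ev_ne (a : ℝ) : ∀ᶠ ε in 𝓝[>] (0 : ℝ), ε ≠ a := by
  rcases eq_or_ne a 0 with h | h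
  · subst h
    filter_upwards [self_mem_nhdsWithin] with ε hε
    exact (Set.mem_Ioi.1 hε).ne'
  · exact mem_nhdsWithin_of_mem_nhds (isOpen_ne.mem_nhds h.symm)

theorem shrink {c : ℕ} (K : ℝ) (v h : Fin c → ℝ) (h1 : ∀ l, 1 < v l)
    (h2 : K < ∑ l, v l ^ 2 * h l) :
    ∃ ε : ℝ, 0 < ε ∧ (∀ l, 1 < v l - ε ∧ v l - ε ≠ 2 ∧ v l - ε ≠ 3) ∧
      K < ∑ l, (v l - ε) ^ 2 * h l := by
  have e1 : ∀ᶠ ε in 𝓝[>] (0 : ℝ), ∀ l, 1 < v l - ε ∧ v l - ε ≠ 2 ∧ v l - ε ≠ 3 := by
    rw [Filter.eventually_all]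
    intro l
    have e2 : ∀ᶠ ε in 𝓝[>] (0 : ℝ), 1 < v l - ε := by
      have hc : Continuous fun ε : ℝ => v l - ε := by fun_prop
      have h3 : ∀ᶠ ε in 𝓝 (0 : ℝ), 1 < v l - ε := by
        apply hc.continuousAt.eventually_const_lt
        simpa using h1 l
      exact h3.filter_mono nhdsWithin_le_nhds
    filter_upwards [e2, ev_ne (v l - 2), ev_ne (v l - 3)] with ε a b c'
    refine ⟨a, fun h => b (by linarith), fun h => c' (by linarith)⟩
  have e3 : ∀ᶠ ε in 𝓝[>] (0 : ℝ), K < ∑ l, (v l - ε) ^ 2 * h l := by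
    have hc : Continuous fun ε : ℝ => ∑ l, (v l - ε) ^ 2 * h l := by fun_prop
    have h3 : ∀ᶠ ε in 𝓝 (0 : ℝ), K < ∑ l, (v l - ε) ^ 2 * h l := by
      apply hc.continuousAt.eventually_const_lt
      simpa using h2
    exact h3.filter_mono nhdsWithin_le_nhds
  have e4 : ∀ᶠ ε in 𝓝[>] (0 : ℝ), 0 < ε := self_mem_nhdsWithin
  obtain ⟨ε, a, b, c'⟩ := (e4.and (e1.and e3)).exists
  exact ⟨ε, a, b, c'⟩

theorem t (hM : S_MAINT) (hC : S_CELLP) (hR : S_RATP) (hPQ : S_PQ) : S_EMPT2 := by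
  intro k c d n m A lam H W V hk hc hd hdis hDg hlam hV hsum
  have hk0 : (0 : ℝ) < k := by
    have : 0 < k := by omega
    exact_mod_cast this
  have hd0 : (0 : ℝ) < d := by
    have : 0 < d := by omega
    exact_mod_cast this
  obtain ⟨t, ht⟩ : ∃ t : ℝ, t = (d : ℝ) / k := ⟨_, rfl⟩
  have ht0 : 0 < t := by
    rw [ht]
    positivity
  rw [← ht] at hsum
  simp only [← ht] at hV
  have hc0 : 0 < c := by
    rcases Nat.eq_zero_or_pos c with h0 | h0
    · subst h0
      rw [Finset.univ_eq_empty, Finset.sum_empty] at hsum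
      exact absurd hsum (not_lt.2 (by positivity))
    · exact h0
  obtain ⟨ε, hε, hε1, hε2⟩ := shrink ((k : ℝ) ^ 2) (fun l => V l / t) (fun l => H l / W l)
    (fun l => (hV l).1) hsum
  obtain ⟨v, hv⟩ : ∃ v : Fin c → ℝ, v = fun l => V l / t - ε := ⟨_, rfl⟩
  have hvl : ∀ l, v l = V l / t - ε := fun l => by rw [hv]
  simp only [← hvl] at hε1 hε2
  have hvV : ∀ l, v l * t ≤ V l := by
    intro l
    have h1 : V l / t * t = V l := div_mul_cancel₀ _ ht0.ne'
    have h2 : v l * t = V l / t * t - ε * t := by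
      rw [hvl]
      ring
    rw [h2, h1]
    have := mul_pos hε ht0
    linarith
  have hvR : ∀ l, v l < W l / H l := by
    intro l
    have := (hV l).2
    rw [hvl]
    linarith
  have hpq := fun l => hPQ (v l) (W l / H l) (hε1 l).1 (hvR l) (fun h => (hε1 l).2.1 h.1)
    (fun h => (hε1 l).2.2 h.1)
  choose p q hp hcop hpq1 hpq2 hpq3 using hpq
  have hvt : ∀ l, v l * t / t = v l := fun l => mul_div_cancel_right₀ _ ht0.ne'
  obtain ⟨L, a, T, h1, h2, h3⟩ := hR c k d (fun l => v l * t) (fun l => W l / H l)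
    (fun l => v l ^ 2 / (W l / H l)) p q (by omega) hd
    (by
      intro l
      have hR0 : 0 < W l / H l := div_pos (hDg l).2.2 (hDg l).2.1
      rw [← ht]
      refine ⟨hR0, hp l, ?_, ?_, ?_, ?_⟩
      · exact mul_le_mul_of_nonneg_right (hpq1 l) ht0.le
      · apply le_of_eq
        rw [mul_div_cancel₀ _ hR0.ne']
        ring
      · rw [hvt]
        exact hpq2 l
      · rw [hvt]
        exact hpq3 l)
    (by
      refine lt_of_lt_of_eq hε2 ?_
      apply Finset.sum_congr rfl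
      intro l _
      rw [div_div_eq_mul_div, mul_div_assoc])
  have h4 : ∀ l : Fin c, ∃ u w : Fin n → ℚ, (∀ i, 0 < u i) ∧ (∀ i, 0 < w i) ∧
      ∀ S : Finset (ℕ × ℤ), (∀ q ∈ S, InW k d (a l) (L - a l) (T l) q.1 q.2) →
        IndepC (fun i => if i ∈ A l then m i else 0) u w S := by
    intro l
    refine hC n m (A l) (lam l) (H l) (W l) (v l * t) k d (a l) (L - a l) (T l) (p l) (q l) (hDg l).1
      (hDg l).2.1 (hDg l).2.2 ?_ (by omega) hd (h1 l).1 ?_ (h1 l).2.2.2 (hp l) (hcop l) (h3 l).1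
      (h3 l).2.1 (h3 l).2.2
    · intro s a' h
      apply hlam l s a'
      exact h.trans_le (mul_le_mul_of_nonneg_right (hvV l) (hDg l).2.1.le)
    · have := (h1 l).2.1
      omega
  choose u w hu hw hcell using h4
  classical
  have hg : ∀ i : Fin n, ∃ l : Fin c, ∀ l', i ∈ A l' → l' = l := by
    intro i
    by_cases hi : ∃ l, i ∈ A l
    · obtain ⟨l, hl⟩ := hi
      refine ⟨l, fun l' hl' => ?_⟩
      by_contra hne
      exact Finset.disjoint_left.1 (hdis l' l hne) hl' hl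
    · push Not at hi
      exact ⟨⟨0, hc0⟩, fun l' hl' => absurd hl' (hi l')⟩
  choose g hg using hg
  refine hM k L c d n m g (fun i => u (g i) i) (fun i => w (g i) i) a T hk hc hc0
    (fun i => hu _ i) (fun i => hw _ i) h1 h2 ?_
  intro l C hCl
  apply Pool.Agent.Helper1.T1.EMPT.mono (hcell l C hCl)
  · intro i
    by_cases hi : i ∈ A l
    · rw [if_pos hi, if_pos (hg i l hi).symm]
    · rw [if_neg hi]
      exact Nat.zero_le _
  · intro i hi
    by_cases hi' : i ∈ A l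
    · rw [← hg i l hi']
      exact ⟨rfl, rfl⟩
    · rw [if_neg hi'] at hi
      exact absurd rfl hi

end Pool.Agent.Helper1.T1.EMPT2
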