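import Pool.Agent.Helper1.T1.Goals2
import Pool.Agent.Helper8.T1.RAT

/-!
PROJECT T1: RATP, after Helper8/T1/RAT.lean (helper8, helper1).
-/

set_option autoImplicit false

noncomputable section

namespace Pool.Agent.Helper1.T1.RATP

open Finset Pool.Agent.Helper8.T1.RAT

/-- the choice of the slopes at one node -/
lemma slopesP (x R E q p η : ℝ) (hR : 0 < R) (hp : 1 ≤ p) (hE : p * E ≤ x) (hRE : R * E ≤ x ^ 2)
    (h1 : x - p * E < q) (h2 : q < x) (hη : 0 < η) :
    ∃ α β : ℚ, 0 < α ∧ 0 < β ∧ α ≠ β ∧ p * (β : ℝ) ≤ x - q ∧ p * (α : ℝ) ≤ q ∧ E - η < α + β ∧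
      R * (α + β) ≤ (q + p * β) ^ 2 := by
  have hp0 : 0 < p := by linarith
  obtain ⟨b, hb⟩ : ∃ b : ℝ, b = (x - q) / p := ⟨_, rfl⟩
  have hpb : p * b = x - q := by
    rw [hb, mul_div_cancel₀ _ hp0.ne']
  have hb0 : 0 < b := by
    rw [hb]
    exact div_pos (by linarith) hp0
  have hpa : p * (E - b) ≤ q := by
    rw [mul_sub, hpb]
    linarith
  have ha0 : 0 < E - b := by
    have h3 : 0 < p * (E - b) := by
      rw [mul_sub, hpb]
      linarith
    exact pos_of_mul_pos_right h3 hp0.le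
  obtain ⟨α, hα1, hα2⟩ := exists_rat_btwn (show max 0 (E - b - η / 2) < E - b by
    rw [max_lt_iff]; constructor <;> linarith)
  rw [max_lt_iff] at hα1
  -- the strict inequality at the end point
  have h3 : R * ((α : ℝ) + b) < (q + p * b) ^ 2 := by
    have : R * ((α : ℝ) + b) < R * E := by
      apply mul_lt_mul_of_pos_left _ hR
      linarith
    have h4 : q + p * b = x := by rw [hpb]; ring
    rw [h4]
    linarith
  have h5 : ∀ᶠ y in nhdsWithin b (Set.Iio b), R * ((α : ℝ) + y) < (q + p * y) ^ 2 := by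
    have hc1 : ContinuousAt (fun y : ℝ => R * ((α : ℝ) + y)) b := by fun_prop
    have hc2 : ContinuousAt (fun y : ℝ => (q + p * y) ^ 2) b := by fun_prop
    exact (hc1.eventually_lt hc2 h3).filter_mono nhdsWithin_le_nhds
  rw [Filter.eventually_iff, mem_nhdsLT_iff_exists_Ioo_subset] at h5
  obtain ⟨u, hu, hsub⟩ := h5
  rw [Set.mem_Iio] at hu
  set lo : ℝ := max (max 0 (b - η / 2)) (max u (if (α : ℝ) < b then (α : ℝ) else 0)) with hlo
  have hlo1 : lo < b := by
    rw [hlo, max_lt_iff, max_lt_iff, max_lt_iff]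
    refine ⟨⟨hb0, by linarith⟩, hu, ?_⟩
    split_ifs with h
    · exact h
    · exact hb0
  obtain ⟨β, hβ1, hβ2⟩ := exists_rat_btwn hlo1
  rw [hlo, max_lt_iff, max_lt_iff, max_lt_iff] at hβ1
  obtain ⟨⟨hβ3, hβ4⟩, hβ5, hβ6⟩ := hβ1
  refine ⟨α, β, by exact_mod_cast hα1.1, by exact_mod_cast hβ3, ?_, ?_, ?_, ?_, ?_⟩
  · intro h
    rw [h] at hβ6
    split_ifs at hβ6 with h'
    · exact lt_irrefl _ hβ6
    · exact h' hβ2
  · have := mul_le_mul_of_nonneg_left hβ2.le hp0.le
    linarith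
  · have := mul_le_mul_of_nonneg_left hα2.le hp0.le
    linarith
  · linarith [hα1.2]
  · have h9 : R * ((α : ℝ) + (β : ℝ)) < (q + p * (β : ℝ)) ^ 2 := hsub ⟨hβ5, hβ2⟩
    exact h9.le

theorem t : Pool.Agent.Helper1.T1.S_RATP := by
  intro c k d V R E p q hk hd H hsum
  have hk' : (0 : ℝ) < k := by exact_mod_cast hk
  have hd' : (0 : ℝ) < d := by exact_mod_cast hd
  set t : ℝ := (d : ℝ) / k with ht
  have ht0 : 0 < t := div_pos hd' hk'
  set η : ℝ := ((∑ l, E l) - (k : ℝ) ^ 2) / (c + 1) with hη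
  have hη0 : 0 < η := div_pos (by linarith) (by positivity)
  have hkey : ∀ l, ∃ α β : ℚ, 0 < α ∧ 0 < β ∧ α ≠ β ∧ p l * (β : ℝ) ≤ V l / t - q l ∧
      p l * (α : ℝ) ≤ q l ∧
      E l - η < α + β ∧ R l * (α + β) ≤ (q l + p l * β) ^ 2 := by
    intro l
    obtain ⟨h1, hp, h2, h3, h4, h5⟩ := H l
    have h6 : p l * E l ≤ V l / t := by rwa [le_div_iff₀ ht0]
    have h8 : R l * E l ≤ (V l / t) ^ 2 := by
      rw [div_pow, le_div_iff₀ (by positivity)]
      exact h3
    exact slopesP (V l / t) (R l) (E l) (q l) (p l) η h1 (by exact_mod_cast hp) h6 h8 h4 h5 hη0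
  choose α β hα hβ hne h1 h2 h3 h4 using hkey
  have hαβ : ∀ l, 0 < α l + β l := fun l => add_pos (hα l) (hβ l)
  obtain ⟨L, a, T, hL, haT⟩ := clear_all c (fun l => α l / (α l + β l))
    (fun l => α l * β l / (α l + β l)) (fun l => div_pos (hα l) (hαβ l))
    (fun l => div_pos (mul_pos (hα l) (hβ l)) (hαβ l))
  have hLq : (0 : ℚ) < L := by exact_mod_cast hL
  have ha : ∀ l, (a l : ℚ) = L * (α l / (α l + β l)) := fun l => (haT l).1
  have hT : ∀ l, (T l : ℚ) = L * (α l * β l / (α l + β l)) := fun l => (haT l).2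
  have ha0 : ∀ l, 0 < a l := by
    intro l
    have : (0 : ℚ) < a l := by
      rw [ha l]; exact mul_pos hLq (div_pos (hα l) (hαβ l))
    exact_mod_cast this
  have hT0 : ∀ l, 0 < T l := by
    intro l
    have : (0 : ℚ) < T l := by
      rw [hT l]; exact mul_pos hLq (div_pos (mul_pos (hα l) (hβ l)) (hαβ l))
    exact_mod_cast this
  have hLa : ∀ l, (L : ℚ) - a l = L * (β l / (α l + β l)) := by
    intro l
    have := (hαβ l).ne'
    rw [ha l]
    field_simp
    ring
  have haL : ∀ l, a l < L := by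
    intro l
    have h5 : (0 : ℚ) < (L : ℚ) - a l := by
      rw [hLa l]; exact mul_pos hLq (div_pos (hβ l) (hαβ l))
    have h6 : (a l : ℚ) < L := by linarith
    exact_mod_cast h6
  have hcast : ∀ l, (((L - a l : ℕ) : ℕ) : ℚ) = (L : ℚ) - a l := fun l => by
    rw [Nat.cast_sub (haL l).le]
  have hb : ∀ l, (T l : ℚ) / a l = β l := by
    intro l
    have := (hαβ l).ne'
    have h5 := (hα l).ne'
    have h6 := hLq.ne'
    rw [hT l, ha l]
    field_simp
  have hal : ∀ l, (T l : ℚ) / ((L - a l : ℕ) : ℚ) = α l := by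
    intro l
    have := (hαβ l).ne'
    have h5 := (hβ l).ne'
    have h6 := hLq.ne'
    rw [hcast, hT l, hLa l]
    field_simp
  have hbR : ∀ l, (T l : ℝ) / a l = β l := by
    intro l
    have h5 : (((T l : ℚ) / a l : ℚ) : ℝ) = ((β l : ℚ) : ℝ) := by rw [hb l]
    push_cast at h5
    exact h5
  have haR : ∀ l, (T l : ℝ) / ((L - a l : ℕ) : ℝ) = α l := by
    intro l
    have h5 : (((T l : ℚ) / ((L - a l : ℕ) : ℚ) : ℚ) : ℝ) = ((α l : ℚ) : ℝ) := by rw [hal l]
    rw [Rat.cast_div, Rat.cast_natCast, Rat.cast_natCast] at h5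
    exact h5
  refine ⟨L, a, T, ?_, ?_, ?_⟩
  · intro l
    refine ⟨ha0 l, haL l, ?_, hT0 l⟩
    intro h
    apply hne l
    have h5 : (2 : ℚ) * a l = L := by exact_mod_cast h
    have h6 : (L : ℚ) - a l = a l := by linarith
    rw [hLa l, ha l] at h6
    have h7 := mul_left_cancel₀ hLq.ne' h6
    rw [div_left_inj' (hαβ l).ne'] at h7
    exact h7.symm
  · have h5 : ∑ l, ((T l : ℝ) / a l + (T l : ℝ) / ((L - a l : ℕ) : ℝ)) =
        ∑ l, ((α l : ℝ) + β l) := by
      apply Finset.sum_congr rfl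
      intro l _
      rw [hbR, haR]
      ring
    rw [h5]
    have h6 : ∑ l, (E l - η) ≤ ∑ l, ((α l : ℝ) + β l) :=
      Finset.sum_le_sum fun l _ => (h3 l).le
    rw [Finset.sum_sub_distrib, Finset.sum_const, Finset.card_univ, Fintype.card_fin,
      nsmul_eq_mul] at h6
    have h7 : η * (c + 1) = (∑ l, E l) - (k : ℝ) ^ 2 := by
      rw [hη]
      field_simp
    nlinarith
  · intro l
    rw [hbR, haR]
    refine ⟨?_, h2 l, ?_⟩
    · have h5 := h1 l
      have h6 : (q l : ℝ) + p l * β l ≤ V l / t := by linarith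
      rwa [le_div_iff₀ ht0] at h6
    · have := h4 l
      rw [add_comm (β l : ℝ)]
      exact this

end Pool.Agent.Helper1.T1.RATP
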