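import Pool.Agent.Helper1.T1.Goals3
import Pool.Agent.Helper1.T1.EMPT2
import Pool.Agent.Helper1.T1.RATP

/-!
PROJECT T1: EMPT2 in the case of equality (helper1; idea of helper35: the closed cell is moved up).
-/

set_option autoImplicit false

noncomputable section

namespace Pool.Agent.Helper1.T1

open Module Pool.Agent.Helper97 Pool.Agent.Helper97.Nag Pool.Agent.Helper98.UN Pool.Agent.Helper1.All

open Pool.Agent.Helper97.Tate (OO KK SS cf iO evx evK Van Fm)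

/-- as S_EMPT2, with `≤` -/
def S_EMPT2L : Prop := ∀ (k c d n : ℕ) (m : Fin n → ℕ) (A : Fin c → Finset (Fin n))
  (lam : Fin c → ℕ → ℕ) (H W V : Fin c → ℝ), 3 ≤ k → 2 * c ≤ (k - 1) * (k - 2) →
  1 ≤ d → (∀ l l', l ≠ l' → Disjoint (A l) (A l')) → (∀ l, Dg m (A l) (lam l) ∧ 0 < H l ∧ 0 < W l) →
  (∀ (l : Fin c) (s a' : ℕ), (a' : ℝ) * H l + W l * s < V l * H l → a' < lam l s) →
  (∀ l, 1 < V l / ((d : ℝ) / k) ∧ V l / ((d : ℝ) / k) < W l / H l) →
  ((k : ℝ) ^ 2 ≤ ∑ l, (V l / ((d : ℝ) / k)) ^ 2 * (H l / W l)) →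
  ∃ (K : Type) (_ : Field K) (_ : CharZero K) (P : Fin n → Fin 3 → K),
    finrank K (Fm K d ⊓ ⨅ l, Van (P l) (m l) : Submodule K (MvPolynomial (Fin 3) K)) = 0

namespace EMPT2L

open Filter Topology

/-- the half closed wedge contains an open wedge with bigger sum of slopes -/
theorem wed (α β : ℝ) (k d : ℕ) (hα : 0 < α) (hβ : 0 < β) (hk : 1 ≤ k) :
    ∃ a b : ℚ, 0 < a ∧ 0 < b ∧ a ≠ b ∧ α + β < a + b ∧ ∀ (j : ℕ) (n : ℤ), k * j < d →
      (n : ℝ) < b * ((d : ℝ) / k - j) → -((a : ℝ) * ((d : ℝ) / k - j)) < n →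
      (n : ℝ) < β * ((d : ℝ) / k - j) ∧ -(α * ((d : ℝ) / k - j)) ≤ n := by
  have hk0 : (0 : ℝ) < k := by
    have : 0 < k := hk
    exact_mod_cast this
  have e1 : ∀ᶠ ε in 𝓝[>] (0 : ℝ), ∀ j ∈ Finset.range d,
      ((⌈-(α * ((d : ℝ) / k - j))⌉ - 1 : ℤ) : ℝ) < -((α + ε) * ((d : ℝ) / k - j)) := by
    rw [Filter.eventually_all_finset]
    intro j _
    have h3 : ∀ᶠ ε in 𝓝 (0 : ℝ),
        ((⌈-(α * ((d : ℝ) / k - j))⌉ - 1 : ℤ) : ℝ) < -((α + ε) * ((d : ℝ) / k - j)) := by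
      have hc : Continuous fun ε : ℝ => -((α + ε) * ((d : ℝ) / k - j)) := by fun_prop
      apply hc.continuousAt.eventually_const_lt
      simp only [add_zero]
      push_cast
      have := Int.ceil_lt_add_one (-(α * ((d : ℝ) / k - j)))
      linarith
    exact h3.filter_mono nhdsWithin_le_nhds
  have e4 : ∀ᶠ ε in 𝓝[>] (0 : ℝ), 0 < ε := self_mem_nhdsWithin
  obtain ⟨ε, hε, h1⟩ := (e4.and e1).exists
  obtain ⟨a, ha1, ha2⟩ := exists_rat_btwn (show α < α + ε by linarith)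
  have hlo : max (max 0 (β - ((a : ℝ) - α) / 2)) (if (a : ℝ) < β then (a : ℝ) else 0) < β := by
    rw [max_lt_iff, max_lt_iff]
    refine ⟨⟨hβ, by linarith⟩, ?_⟩
    split_ifs with h
    · exact h
    · exact hβ
  obtain ⟨b, hb1, hb2⟩ := exists_rat_btwn hlo
  rw [max_lt_iff, max_lt_iff] at hb1
  obtain ⟨⟨hb3, hb4⟩, hb5⟩ := hb1
  refine ⟨a, b, by exact_mod_cast hα.trans ha1, by exact_mod_cast hb3, ?_, by linarith, ?_⟩
  · intro h
    rw [← h] at hb5 hb2
    rw [if_pos hb2] at hb5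
    exact lt_irrefl _ hb5
  · intro j n hj hn1 hn2
    have hτ : 0 < (d : ℝ) / k - j := by
      rw [sub_pos, lt_div_iff₀ hk0]
      have : ((k * j : ℕ) : ℝ) < d := by exact_mod_cast hj
      push_cast at this
      linarith
    refine ⟨hn1.trans_le (mul_le_mul_of_nonneg_right hb2.le hτ.le), ?_⟩
    have hjd : j ∈ Finset.range d := by
      rw [Finset.mem_range]
      have : j ≤ k * j := Nat.le_mul_of_pos_left j hk
      omega
    have h2 := h1 j hjd
    have h3 : -((α + ε) * ((d : ℝ) / k - j)) < n := by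
      have := mul_lt_mul_of_pos_right ha2 hτ
      linarith
    have h4 : ((⌈-(α * ((d : ℝ) / k - j))⌉ - 1 : ℤ) : ℝ) < n := h2.trans h3
    have h5 : ⌈-(α * ((d : ℝ) / k - j))⌉ - 1 < n := by exact_mod_cast h4
    exact Int.ceil_le.1 (by omega)

/-- from rational slopes to lengths -/
theorem lat {c : ℕ} (α β : Fin c → ℚ) (hα : ∀ l, 0 < α l) (hβ : ∀ l, 0 < β l)
    (hne : ∀ l, α l ≠ β l) :
    ∃ (L : ℕ) (a T : Fin c → ℕ), (∀ l, 0 < a l ∧ a l < L ∧ 2 * a l ≠ L ∧ 0 < T l) ∧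
      ∀ l, (T l : ℝ) / a l = β l ∧ (T l : ℝ) / ((L - a l : ℕ) : ℝ) = α l := by
  have hαβ : ∀ l, 0 < α l + β l := fun l => add_pos (hα l) (hβ l)
  obtain ⟨L, a, T, hL, haT⟩ := Pool.Agent.Helper8.T1.RAT.clear_all c
    (fun l => α l / (α l + β l))
    (fun l => α l * β l / (α l + β l)) (fun l => div_pos (hα l) (hαβ l))
    (fun l => div_pos (mul_pos (hα l) (hβ l)) (hαβ l))
  have hLq : (0 : ℚ) < L := by exact_mod_cast hL
  have ha : ∀ l, (a l : ℚ) = L * (α l / (α l + β l)) := fun l => (haT l).1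
  have hT : ∀ l, (T l : ℚ) = L * (α l * β l / (α l + β l)) := fun l => (haT l).2
  have ha0 : ∀ l, 0 < a l := by
    intro l
    have : (0 : ℚ) < a l := by
      rw [ha l]; exact mul_pos hLq (div_pos (hα l) (hαβ l))
    exact_mod_cast this
  have hT0 : ∀ l, 0 < T l := by
    intro l
    have : (0 : ℚ) < T l := by
      rw [hT l]; exact mul_pos hLq (div_pos (mul_pos (hα l) (hβ l)) (hαβ l))
    exact_mod_cast this
  have hLa : ∀ l, (L : ℚ) - a l = L * (β l / (α l + β l)) := by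
    intro l
    have := (hαβ l).ne'
    rw [ha l]
    field_simp
    ring
  have haL : ∀ l, a l < L := by
    intro l
    have h5 : (0 : ℚ) < (L : ℚ) - a l := by
      rw [hLa l]; exact mul_pos hLq (div_pos (hβ l) (hαβ l))
    have h6 : (a l : ℚ) < L := by linarith
    exact_mod_cast h6
  have hcast : ∀ l, (((L - a l : ℕ) : ℕ) : ℚ) = (L : ℚ) - a l := fun l => by
    rw [Nat.cast_sub (haL l).le]
  have hb : ∀ l, (T l : ℚ) / a l = β l := by
    intro l
    have := (hαβ l).ne'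
    have h5 := (hα l).ne'
    have h6 := hLq.ne'
    rw [hT l, ha l]
    field_simp
  have hal : ∀ l, (T l : ℚ) / ((L - a l : ℕ) : ℚ) = α l := by
    intro l
    have := (hαβ l).ne'
    have h5 := (hβ l).ne'
    have h6 := hLq.ne'
    rw [hcast, hT l, hLa l]
    field_simp
  refine ⟨L, a, T, fun l => ⟨ha0 l, haL l, ?_, hT0 l⟩, fun l => ⟨?_, ?_⟩⟩
  · intro h
    apply hne l
    have h5 : (2 : ℚ) * a l = L := by exact_mod_cast h
    have h6 : (L : ℚ) - a l = a l := by linarith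
    rw [hLa l, ha l] at h6
    have h7 := mul_left_cancel₀ hLq.ne' h6
    rw [div_left_inj' (hαβ l).ne'] at h7
    exact h7.symm
  · have h5 : (((T l : ℚ) / a l : ℚ) : ℝ) = ((β l : ℚ) : ℝ) := by rw [hb l]
    push_cast at h5
    exact h5
  · have h5 : (((T l : ℚ) / ((L - a l : ℕ) : ℚ) : ℚ) : ℝ) = ((α l : ℚ) : ℝ) := by rw [hal l]
    rw [Rat.cast_div, Rat.cast_natCast, Rat.cast_natCast] at h5
    exact h5

theorem t (hE : S_EMPT2) (hM : S_MAINT) (hC : S_CELLP) (hCc : S_CELLC) (hPQ : S_PQ0) :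
    S_EMPT2L := by
  intro k c d n m A lam H W V hk hc hd hdis hDg hlam hV hsum
  rcases lt_or_eq_of_le hsum with hlt | heq
  · exact hE k c d n m A lam H W V hk hc hd hdis hDg hlam hV hlt
  have hk0 : (0 : ℝ) < k := by
    have : 0 < k := by omega
    exact_mod_cast this
  have hd0 : (0 : ℝ) < d := by
    have : 0 < d := by omega
    exact_mod_cast this
  obtain ⟨t, ht⟩ : ∃ t : ℝ, t = (d : ℝ) / k := ⟨_, rfl⟩
  have ht0 : 0 < t := by
    rw [ht]
    positivity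
  rw [← ht] at heq
  simp only [← ht] at hV
  have hc0 : 0 < c := by
    rcases Nat.eq_zero_or_pos c with h0 | h0
    · subst h0
      rw [Finset.univ_eq_empty, Finset.sum_empty] at heq
      exact absurd heq (pow_pos hk0 2).ne'
    · exact h0
  obtain ⟨v, hv⟩ : ∃ v : Fin c → ℝ, v = fun l => V l / t := ⟨_, rfl⟩
  have hvl : ∀ l, v l = V l / t := fun l => by rw [hv]
  obtain ⟨R, hR⟩ : ∃ R : Fin c → ℝ, R = fun l => W l / H l := ⟨_, rfl⟩
  have hRl : ∀ l, R l = W l / H l := fun l => by rw [hR]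
  simp only [← hvl, ← hRl] at hV
  have hR0 : ∀ l, 0 < R l := fun l => by rw [hRl]; exact div_pos (hDg l).2.2 (hDg l).2.1
  have hv0 : ∀ l, 0 < v l := fun l => lt_trans one_pos (hV l).1
  have hvt : ∀ l, v l * t = V l := fun l => by rw [hvl]; exact div_mul_cancel₀ _ ht0.ne'
  obtain ⟨E, hEd⟩ : ∃ E : Fin c → ℝ, E = fun l => v l ^ 2 / R l := ⟨_, rfl⟩
  have hEl : ∀ l, E l = v l ^ 2 / R l := fun l => by rw [hEd]
  have hsumE : ∑ l, E l = (k : ℝ) ^ 2 := by
    rw [heq]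
    apply Finset.sum_congr rfl
    intro l _
    rw [hEl, hRl, ← hvl, div_div_eq_mul_div, mul_div_assoc]
  have hRE : ∀ l, R l * E l = v l ^ 2 := fun l => by
    rw [hEl, mul_div_cancel₀ _ (hR0 l).ne']
  have hEv : ∀ l, E l < v l := by
    intro l
    rw [hEl, div_lt_iff₀ (hR0 l), sq]
    exact mul_lt_mul_of_pos_left (hV l).2 (hv0 l)
  have hpq := fun l => hPQ (v l) (R l) (hV l).1 (hV l).2
  choose p q hp hcop hpq1 hpq2 hpq3 hpq4 using hpq
  simp only [← hEl] at hpq1 hpq2 hpq4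
  -- the closed cell
  have hl₀ : ∃ l₀, 1 < E l₀ := by
    by_contra hcon
    push Not at hcon
    have h1 : ∑ l, E l ≤ c := by
      calc ∑ l, E l ≤ ∑ _l : Fin c, (1 : ℝ) := Finset.sum_le_sum fun l _ => hcon l
        _ = c := by simp
    rw [hsumE] at h1
    have h3 : k ^ 2 ≤ c := by exact_mod_cast h1
    have h6 : (k - 1) * (k - 2) ≤ k * k := Nat.mul_le_mul (Nat.sub_le _ _) (Nat.sub_le _ _)
    have h7 : 0 < k * k := Nat.mul_pos (by omega) (by omega)
    rw [sq] at h3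
    omega
  obtain ⟨l₀, hl₀⟩ := hl₀
  have hp1 : p l₀ = 1 := hpq4 l₀ hl₀
  have hq2 : v l₀ - E l₀ < q l₀ := by
    have := hpq2 l₀
    rw [hp1] at this
    push_cast at this
    linarith
  have hb0 : 0 < v l₀ - q l₀ := by linarith [hpq3 l₀]
  have ha0 : 0 < E l₀ - (v l₀ - q l₀) := by linarith
  obtain ⟨u₀, w₀, hu₀, hw₀, hI₀⟩ := hCc n m (A l₀) (lam l₀) (H l₀) (W l₀) (V l₀) k d
    (E l₀ - (v l₀ - q l₀)) (v l₀ - q l₀) (p l₀) (q l₀) (hDg l₀).1 (hDg l₀).2.1 (hDg l₀).2.2 (hlam l₀)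
    (by omega) hd ha0 hb0 (hp l₀) (hcop l₀)
    (by
      rw [hp1, ← ht, ← hvt l₀]
      apply le_of_eq
      push_cast
      ring)
    (by
      rw [hp1]
      have := hEv l₀
      push_cast
      linarith)
    (by
      rw [hp1, ← hRl]
      have h1 : R l₀ * (E l₀ - (v l₀ - q l₀) + (v l₀ - q l₀)) = v l₀ ^ 2 := by
        rw [sub_add_cancel, hRE]
      rw [h1]
      apply le_of_eq
      push_cast
      ring)
  obtain ⟨a₀, b₀, ha₀, hb₀, hab₀, hsum₀, hwed⟩ := wed (E l₀ - (v l₀ - q l₀)) (v l₀ - q l₀) k d ha0 hb0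
    (by omega)
  rw [sub_add_cancel] at hsum₀
  -- the other cells
  obtain ⟨η, hη⟩ : ∃ η : ℝ, η = ((a₀ : ℝ) + b₀ - E l₀) / (c + 1) := ⟨_, rfl⟩
  have hη0 : 0 < η := by
    rw [hη]
    exact div_pos (by linarith) (by positivity)
  have hkey : ∀ l, ∃ α β : ℚ, 0 < α ∧ 0 < β ∧ α ≠ β ∧ p l * (β : ℝ) ≤ v l - q l ∧
      p l * (α : ℝ) ≤ q l ∧
      E l - η < α + β ∧ R l * (α + β) ≤ (q l + p l * β) ^ 2 := by
    intro l
    exact RATP.slopesP (v l) (R l) (E l) (q l) (p l) η (hR0 l) (by exact_mod_cast hp l) (hpq1 l)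
      (hRE l).le (hpq2 l) (hpq3 l) hη0
  choose α₁ β₁ hα₁ hβ₁ hne₁ k1 k2 k3 k4 using hkey
  classical
  obtain ⟨α, hα⟩ : ∃ α : Fin c → ℚ, α = fun l => if l = l₀ then a₀ else α₁ l := ⟨_, rfl⟩
  obtain ⟨β, hβ⟩ : ∃ β : Fin c → ℚ, β = fun l => if l = l₀ then b₀ else β₁ l := ⟨_, rfl⟩
  have hαl : ∀ l, l ≠ l₀ → α l = α₁ l := by
    intro l hl
    rw [hα]
    simp only
    rw [if_neg hl]
  have hβl : ∀ l, l ≠ l₀ → β l = β₁ l := by
    intro l hl
    rw [hβ]
    simp only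
    rw [if_neg hl]
  have hα0 : α l₀ = a₀ := by
    rw [hα]
    simp
  have hβ0 : β l₀ = b₀ := by
    rw [hβ]
    simp
  obtain ⟨L, a, T, h1, h2⟩ := lat α β
    (by
      intro l
      by_cases hl : l = l₀
      · rw [hl, hα0]
        exact ha₀
      · rw [hαl l hl]
        exact hα₁ l)
    (by
      intro l
      by_cases hl : l = l₀
      · rw [hl, hβ0]
        exact hb₀
      · rw [hβl l hl]
        exact hβ₁ l)
    (by
      intro l
      by_cases hl : l = l₀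
      · rw [hl, hα0, hβ0]
        exact hab₀
      · rw [hαl l hl, hβl l hl]
        exact hne₁ l)
  have h3 : (k : ℝ) ^ 2 < ∑ l, ((T l : ℝ) / a l + (T l : ℝ) / ((L - a l : ℕ) : ℝ)) := by
    have e1 : ∀ l, (E l - η) + (if l = l₀ then (a₀ : ℝ) + b₀ - E l₀ else 0) ≤
        (T l : ℝ) / a l + (T l : ℝ) / ((L - a l : ℕ) : ℝ) := by
      intro l
      rw [(h2 l).1, (h2 l).2]
      split_ifs with hl
      · rw [hl, hα0, hβ0]
        linarith
      · rw [hαl l hl, hβl l hl]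
        have := k3 l
        linarith
    have e2 : ∑ l, ((E l - η) + (if l = l₀ then (a₀ : ℝ) + b₀ - E l₀ else 0)) =
        (k : ℝ) ^ 2 - c * η + ((a₀ : ℝ) + b₀ - E l₀) := by
      rw [Finset.sum_add_distrib, Finset.sum_sub_distrib, hsumE, Finset.sum_const, Finset.card_univ,
        Fintype.card_fin, nsmul_eq_mul, Finset.sum_ite_eq' Finset.univ l₀]
      simp
    have e3 := Finset.sum_le_sum fun l (_ : l ∈ Finset.univ) => e1 l
    rw [e2] at e3
    have e4 : η * (c + 1) = (a₀ : ℝ) + b₀ - E l₀ := by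
      rw [hη]
      field_simp
    have e5 : (c : ℝ) * η < (a₀ : ℝ) + b₀ - E l₀ := by
      rw [← e4]
      linarith
    linarith
  have h4 : ∀ l : Fin c, ∃ u w : Fin n → ℚ, (∀ i, 0 < u i) ∧ (∀ i, 0 < w i) ∧
      ∀ S : Finset (ℕ × ℤ), (∀ q ∈ S, InW k d (a l) (L - a l) (T l) q.1 q.2) →
        IndepC (fun i => if i ∈ A l then m i else 0) u w S := by
    intro l
    by_cases hl : l = l₀
    · subst hl
      refine ⟨u₀, w₀, hu₀, hw₀, fun S hS => hI₀ S fun s hs => ?_⟩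
      rcases hS s hs with ⟨g1, g2, g3⟩ | g
      · left
        have ha : (0 : ℝ) < a l := by
          have := (h1 l).1
          exact_mod_cast this
        have hLa : (0 : ℝ) < ((L - a l : ℕ) : ℝ) := by
          have := (h1 l).2.1
          have : 0 < L - a l := by omega
          exact_mod_cast this
        have f2 : (k : ℝ) * a l * s.2 < T l * ((d : ℝ) - k * s.1) := by exact_mod_cast g2
        have f3 : -((k : ℝ) * ((L - a l : ℕ) : ℝ) * s.2) < T l * ((d : ℝ) - k * s.1) := by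
          exact_mod_cast g3
        have hτ : (d : ℝ) / k - s.1 = ((d : ℝ) - k * s.1) / k := by
          field_simp
        have i2 : (s.2 : ℝ) < b₀ * ((d : ℝ) / k - s.1) := by
          rw [← hβ0, ← (h2 l).1, hτ, div_mul_div_comm, lt_div_iff₀ (mul_pos ha hk0)]
          linarith
        have i3 : -((a₀ : ℝ) * ((d : ℝ) / k - s.1)) < s.2 := by
          rw [← hα0, ← (h2 l).2, hτ, div_mul_div_comm, neg_lt, lt_div_iff₀ (mul_pos hLa hk0)]
          linarith
        exact ⟨g1, hwed s.1 s.2 g1 i2 i3⟩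
      · exact Or.inr g
    · refine hC n m (A l) (lam l) (H l) (W l) (V l) k d (a l) (L - a l) (T l) (p l) (q l) (hDg l).1
        (hDg l).2.1 (hDg l).2.2 (hlam l) (by omega) hd (h1 l).1 ?_ (h1 l).2.2.2 (hp l) (hcop l) ?_ ?_ ?_
      · have := (h1 l).2.1
        omega
      · rw [(h2 l).1, hβl l hl, ← ht, ← hvt l]
        apply mul_le_mul_of_nonneg_right _ ht0.le
        linarith [k1 l]
      · rw [(h2 l).2, hαl l hl]
        exact k2 l
      · rw [(h2 l).1, (h2 l).2, hβl l hl, hαl l hl, add_comm, ← hRl]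
        exact k4 l
  choose u w hu hw hcell using h4
  have hg : ∀ i : Fin n, ∃ l : Fin c, ∀ l', i ∈ A l' → l' = l := by
    intro i
    by_cases hi : ∃ l, i ∈ A l
    · obtain ⟨l, hl⟩ := hi
      refine ⟨l, fun l' hl' => ?_⟩
      by_contra hne
      exact Finset.disjoint_left.1 (hdis l' l hne) hl' hl
    · push Not at hi
      exact ⟨⟨0, hc0⟩, fun l' hl' => absurd hl' (hi l')⟩
  choose g hg using hg
  refine hM k L c d n m g (fun i => u (g i) i) (fun i => w (g i) i) a T hk hc hc0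
    (fun i => hu _ i) (fun i => hw _ i) h1 h3 ?_
  intro l C hCl
  apply Pool.Agent.Helper1.T1.EMPT.mono (hcell l C hCl)
  · intro i
    by_cases hi : i ∈ A l
    · rw [if_pos hi, if_pos (hg i l hi).symm]
    · rw [if_neg hi]
      exact Nat.zero_le _
  · intro i hi
    by_cases hi' : i ∈ A l
    · rw [← hg i l hi']
      exact ⟨rfl, rfl⟩
    · rw [if_neg hi'] at hi
      exact absurd rfl hi

end EMPT2L

end Pool.Agent.Helper1.T1
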