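import Pool.Agent.Helper1.T1.All1
import Pool.Agent.Helper1.T1.STRL

/-!
PROJECT T1: the theorems without hypotheses (helper1).
-/

set_option autoImplicit false

noncomputable section

namespace Pool.Agent.Helper1.T1

open Module Pool.Agent.Helper97 Pool.Agent.Helper97.Nag Pool.Agent.Helper98.UN Pool.Agent.Helper1.All

theorem all_EMPT2L : S_EMPT2L :=
  EMPT2L.t all_EMPT2 all_MAINT all_CELLP all_CELLC all_PQ0

/-- the criterion in the case of equality -/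
theorem critL {n c : ℕ} (k d : ℕ) (m : Fin n → ℕ) (w h : Fin n → ℝ)
    (W H : Fin c → ℝ) (A : Fin c → Finset (Fin n)) (hC : Cells k w h W H A) (hd : 1 ≤ d)
    (h1 : ∀ l, d * H l < k * ∑ i ∈ A l, min (w i) (h i) * m i)
    (h1' : ∀ l, k * (∑ i ∈ A l, min (w i) (h i) * m i) < d * W l)
    (h2 : (d : ℝ) ^ 2 ≤ ∑ l, (∑ i ∈ A l, min (w i) (h i) * m i) ^ 2 / (W l * H l)) :
    GenDim d m 0 ∧ vdim d m ≤ 0 := by
  obtain ⟨hk, hc, hdis, hCut⟩ := hC
  have htri := fun l => tri m (hCut l)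
  choose hW0 hH0 lam hlam using htri
  obtain ⟨X, hX⟩ : ∃ X : Fin c → ℝ, X = fun l => ∑ i ∈ A l, min (w i) (h i) * (m i : ℝ) := ⟨_, rfl⟩
  have hXl : ∀ l, X l = ∑ i ∈ A l, min (w i) (h i) * (m i : ℝ) := fun l => by rw [hX]
  simp only [← hXl] at h1 h1' h2 hlam
  have hk0 : (0 : ℝ) < k := by
    have : 0 < k := by omega
    exact_mod_cast this
  have hd0 : (0 : ℝ) < d := by
    have : 0 < d := by omega
    exact_mod_cast this
  have hv : ∀ l, X l / H l / ((d : ℝ) / k) = k * X l / (d * H l) := by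
    intro l
    have h3 := (hH0 l).ne'
    have h4 := hd0.ne'
    have h5 := hk0.ne'
    field_simp
  obtain ⟨K, i1, i2, Q, hQ⟩ := all_EMPT2L k c d n m A lam H W (fun l => X l / H l) hk hc hd hdis
    (fun l => ⟨(hlam l).1, hH0 l, hW0 l⟩)
    (by
      intro l s' a' hsa
      apply (hlam l).2
      rwa [div_mul_cancel₀ _ (hH0 l).ne'] at hsa)
    (by
      intro l
      rw [hv l]
      refine ⟨?_, ?_⟩
      · rw [lt_div_iff₀ (mul_pos hd0 (hH0 l)), one_mul]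
        exact h1 l
      · rw [div_lt_div_iff₀ (mul_pos hd0 (hH0 l)) (hH0 l)]
        have h3 := mul_lt_mul_of_pos_right (h1' l) (hH0 l)
        linarith)
    (by
      have h3 : ∀ l, (X l / H l / ((d : ℝ) / k)) ^ 2 * (H l / W l) =
          (k : ℝ) ^ 2 / (d : ℝ) ^ 2 * (X l ^ 2 / (W l * H l)) := by
        intro l
        rw [hv l]
        have h3 := (hH0 l).ne'
        have h4 := hd0.ne'
        have h5 := (hW0 l).ne'
        field_simp
      rw [Finset.sum_congr rfl fun l _ => h3 l, ← Finset.mul_sum, div_mul_eq_mul_div,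
        le_div_iff₀ (by positivity)]
      exact mul_le_mul_of_nonneg_left h2 (by positivity))
  have h5 := transC (n := n) (d := d) (m := m) (N := 0) nGoals.trk ⟨K, i1, i2, Q, by omega⟩
  have h6 := upgrade h5 (by simp)
  obtain ⟨G', hG0, hG⟩ := h5
  have h7 : GenDim d m 0 := ⟨G', hG0, fun P _ hP => by
    rw [Nat.le_zero.1 (hG P hP)]
    rfl⟩
  refine ⟨h7, ?_⟩
  rw [← gen_unique h6 h7]
  exact le_max_left _ _

theorem allNef (n : ℕ) :
    ∃ 𝒢 : Set (MvPolynomial (Fin n × Fin 3) ℂ), 𝒢.Countable ∧ (0 ∉ 𝒢) ∧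
      ∀ P : Fin n → Fin 3 → ℂ, (∀ i, P i ≠ 0) →
        (∀ G ∈ 𝒢, MvPolynomial.eval (fun ij : Fin n × Fin 3 => P ij.1 ij.2) G ≠ 0) →
        ∀ (k c : ℕ) (μ : Fin n → ℝ) (W H : Fin c → ℝ) (A : Fin c → Finset (Fin n)) (D : ℝ),
          Cells k μ μ W H A → 0 < D → D ^ 2 = ∑ l, W l * H l →
          (∀ l, k * H l ≤ D ∧ D ≤ k * W l ∧ H l < W l) →
        ∀ (d : ℕ) (m : Fin n → ℕ) (f : MvPolynomial (Fin 3) ℂ), f.IsHomogeneous d → f ≠ 0 →
          (∀ i, f ∈ (Ideal.span {g : MvPolynomial (Fin 3) ℂ |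
            g.IsHomogeneous 1 ∧ MvPolynomial.eval (P i) g = 0}) ^ (m i)) →
          ∑ l, ∑ i ∈ A l, μ i * m i ≤ D * d ∧
            (1 ≤ d → (∀ l, k * H l < D ∧ D < k * W l) →
              ∑ l, ∑ i ∈ A l, μ i * m i < D * d) :=
  nefFin all_EMPT2 all_EMPT2L all_NEFA2 all_BIG all_AREA n

theorem allCrit {n c : ℕ} (k d : ℕ) (m : Fin n → ℕ) (w h : Fin n → ℝ)
    (W H : Fin c → ℝ) (A : Fin c → Finset (Fin n)) (hC : Cells k w h W H A)
    (h1 : ∀ l, d * H l < k * ∑ i ∈ A l, min (w i) (h i) * m i)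
    (h2 : (d : ℝ) ^ 2 < (∑ l, min ((∑ i ∈ A l, min (w i) (h i) * m i) ^ 2 / (W l * H l))
      (d * (∑ i ∈ A l, min (w i) (h i) * m i) / (k * H l))) ∨
      (1 ≤ d ∧ (∀ l, k * (∑ i ∈ A l, min (w i) (h i) * m i) < d * W l) ∧
        (d : ℝ) ^ 2 ≤ ∑ l, (∑ i ∈ A l, min (w i) (h i) * m i) ^ 2 / (W l * H l))) :
    GenDim d m 0 ∧ vdim d m ≤ 0 := by
  rcases h2 with h2 | ⟨hd, h3, h4⟩
  · exact critFin all_EMPT2 k d m w h W H A hC h1 h2
  · exact critL k d m w h W H A hC hd h1 h3 h4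

end Pool.Agent.Helper1.T1
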