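import Pool.Agent.Helper1.T1.CRIT
import Pool.Agent.Helper1.T1.STRL
import Pool.Agent.Helper1.T1.MAINT
import Pool.Agent.Helper1.T1.ANN

/-!
PROJECT T1: the final statements from the goals (helper1).
-/

set_option autoImplicit false

noncomputable section

namespace Pool.Agent.Helper1.T1

open Module Pool.Agent.Helper97 Pool.Agent.Helper97.Nag Pool.Agent.Helper98.UN Pool.Agent.Helper1.All

/-- `c` rectangles, with `3 ≤ k` and `2 c ≤ (k - 1) (k - 2)`. The rectangle `l` has width `W l` and height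
`H l`; it is cut by guillotine cuts into rectangles of width `w i` and height `h i`, `i ∈ A l`. The sets
`A l` are disjoint. -/
def Cells {n c : ℕ} (k : ℕ) (w h : Fin n → ℝ) (W H : Fin c → ℝ) (A : Fin c → Finset (Fin n)) : Prop :=
  3 ≤ k ∧ 2 * c ≤ (k - 1) * (k - 2) ∧ (∀ l l', l ≠ l' → Disjoint (A l) (A l')) ∧
    ∀ l, Cut w h (W l) (H l) (A l)

/-- the inequality for very general points -/
theorem nefFin (hE : S_EMPT2) (hEE : S_EMPT2L) (hN : S_NEFA2) (hB : S_BIG) (hAr : S_AREA) (n : ℕ) :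
    ∃ 𝒢 : Set (MvPolynomial (Fin n × Fin 3) ℂ), 𝒢.Countable ∧ (0 ∉ 𝒢) ∧
      ∀ P : Fin n → Fin 3 → ℂ, (∀ i, P i ≠ 0) →
        (∀ G ∈ 𝒢, MvPolynomial.eval (fun ij : Fin n × Fin 3 => P ij.1 ij.2) G ≠ 0) →
        ∀ (k c : ℕ) (μ : Fin n → ℝ) (W H : Fin c → ℝ) (A : Fin c → Finset (Fin n)) (D : ℝ),
          Cells k μ μ W H A → 0 < D → D ^ 2 = ∑ l, W l * H l →
          (∀ l, k * H l ≤ D ∧ D ≤ k * W l ∧ H l < W l) →
        ∀ (d : ℕ) (m : Fin n → ℕ) (f : MvPolynomial (Fin 3) ℂ), f.IsHomogeneous d → f ≠ 0 →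
          (∀ i, f ∈ (Ideal.span {g : MvPolynomial (Fin 3) ℂ |
            g.IsHomogeneous 1 ∧ MvPolynomial.eval (P i) g = 0}) ^ (m i)) →
          ∑ l, ∑ i ∈ A l, μ i * m i ≤ D * d ∧
            (1 ≤ d → (∀ l, k * H l < D ∧ D < k * W l) →
              ∑ l, ∑ i ∈ A l, μ i * m i < D * d) := by
  obtain ⟨𝒢, h1, h2, h3⟩ := NEF.vgen n
  refine ⟨𝒢, h1, h2, ?_⟩
  intro P hP0 hP k c μ W H A D hC hD hD2 hkH d m f hf hf0 hfm
  constructor
  · by_contra hcon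
    have h4 := (NEF3.gen hE hN hB hAr nGoals.trk hC.1 hC.2.1 hC.2.2.1 hC.2.2.2 hD hD2 hkH d m
      (not_le.1 hcon)).1
    exact hf0 (h3 P hP0 hP d m h4 f hf hfm)
  · intro hd hst
    by_contra hcon
    have h4 := (STRL.t hE hEE hN hB hAr nGoals.trk hC.1 hC.2.1 hC.2.2.1 hC.2.2.2 hD hD2 hst d hd m
      (not_lt.1 hcon)).1
    exact hf0 (h3 P hP0 hP d m h4 f hf hfm)

/-- the criterion for general points -/
theorem critFin (hE : S_EMPT2) {n c : ℕ} (k d : ℕ) (m : Fin n → ℕ) (w h : Fin n → ℝ)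
    (W H : Fin c → ℝ) (A : Fin c → Finset (Fin n)) (hC : Cells k w h W H A)
    (h1 : ∀ l, d * H l < k * ∑ i ∈ A l, min (w i) (h i) * m i)
    (h2 : (d : ℝ) ^ 2 < ∑ l, min ((∑ i ∈ A l, min (w i) (h i) * m i) ^ 2 / (W l * H l))
      (d * (∑ i ∈ A l, min (w i) (h i) * m i) / (k * H l))) :
    GenDim d m 0 ∧ vdim d m ≤ 0 :=
  CRIT.t hE nGoals.trk k c d m w h W H A hC.1 hC.2.1 hC.2.2.1 hC.2.2.2 h1 h2

end Pool.Agent.Helper1.T1
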