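import Pool.Agent.Helper1.T1.Goals5

/-!
PROJECT T1: PQR (helper1).
-/

set_option autoImplicit false

noncomputable section

namespace Pool.Agent.Helper1.T1.PQR

open Pool.Agent.Helper1.T1

theorem t : S_PQR := by
  intro x y hx hx1 hy h2 h3
  have hy0 : 0 < y := by linarith
  have hceil : ∀ z : ℝ, 1 < z → 1 ≤ ⌈z⌉₊ - 1 ∧ ((⌈z⌉₊ - 1 : ℕ) : ℝ) < z ∧ z ≤ ((⌈z⌉₊ - 1 : ℕ) : ℝ) + 1 := by
    intro z hz
    have h4 : z ≤ ⌈z⌉₊ := Nat.le_ceil z
    have h5 : (1 : ℝ) < ⌈z⌉₊ := by linarith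
    have h6 : 1 < ⌈z⌉₊ := by exact_mod_cast h5
    have h7 := Nat.ceil_lt_add_one (show 0 ≤ z by linarith)
    rw [Nat.cast_sub h6.le, Nat.cast_one]
    exact ⟨by omega, by linarith, by linarith⟩
  rcases lt_trichotomy (x * y) 1 with h | h | h
  · -- `x y < 1`
    have hx' : 1 < 1 / x := by
      rw [lt_div_iff₀ hx]
      linarith
    obtain ⟨h4, h5, h6⟩ := hceil (1 / x) hx'
    rw [lt_div_iff₀ hx] at h5
    rw [div_le_iff₀ hx] at h6
    refine ⟨⌈1 / x⌉₊ - 1, 1, h4, Nat.coprime_one_right _, h5, ?_, by exact_mod_cast hy⟩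
    have h7 : y * (1 - ((⌈1 / x⌉₊ - 1 : ℕ) : ℝ) * x) ≤ y * x := by
      apply mul_le_mul_of_nonneg_left _ hy0.le
      linarith
    rw [Nat.cast_one]
    linarith
  · -- `x y = 1`
    obtain ⟨h4, h5, h6⟩ := hceil y hy
    by_cases h7 : y = ((⌈y⌉₊ - 1 : ℕ) : ℝ) + 1
    · obtain ⟨N, hN⟩ : ∃ N : ℕ, N = ⌈y⌉₊ - 1 := ⟨_, rfl⟩
      rw [← hN] at h4 h5 h6 h7
      have hN3 : 3 ≤ N := by
        by_contra hcon
        have h8 : N = 1 ∨ N = 2 := by omega
        rcases h8 with h8 | h8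
        · apply h2
          subst h8
          have h9 : y = 2 := by
            rw [h7]
            norm_num
          refine ⟨h9, ?_⟩
          rw [h9] at h
          linarith
        · apply h3
          subst h8
          have h9 : y = 3 := by
            rw [h7]
            norm_num
          refine ⟨h9, ?_⟩
          rw [h9] at h
          linarith
      have hN3' : (3 : ℝ) ≤ N := by exact_mod_cast hN3
      refine ⟨N - 1, N, by omega, ?_, ?_, ?_, by linarith⟩
      · have h8 : N = (N - 1) + 1 := by omega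
        rw [h8]
        simp
      · rw [Nat.cast_sub (by omega), Nat.cast_one]
        have h8 : ((N : ℝ) - 1) * x < y * x := by
          apply mul_lt_mul_of_pos_right _ hx
          linarith
        linarith
      · rw [Nat.cast_sub (by omega), Nat.cast_one]
        have h8 : y * (1 - ((N : ℝ) - 1) * x) = y - (N - 1) * (x * y) := by ring
        rw [h8, h]
        linarith
    · refine ⟨⌈y⌉₊ - 1, 1, h4, Nat.coprime_one_right _, ?_, ?_, by exact_mod_cast hy⟩
      · have h8 : ((⌈y⌉₊ - 1 : ℕ) : ℝ) * x < y * x := mul_lt_mul_of_pos_right h5 hx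
        linarith
      · have h8 : y * (1 - ((⌈y⌉₊ - 1 : ℕ) : ℝ) * x) = y - ((⌈y⌉₊ - 1 : ℕ) : ℝ) * (x * y) := by ring
        rw [h8, h, Nat.cast_one]
        have h9 := lt_of_le_of_ne h6 h7
        linarith
  · -- `x y > 1`
    obtain ⟨h4, h5, h6⟩ := hceil y hy
    refine ⟨1, ⌈y⌉₊ - 1, le_rfl, Nat.coprime_one_left _, by simpa using hx1, ?_, h5⟩
    rw [Nat.cast_one]
    linarith

end Pool.Agent.Helper1.T1.PQR
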