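import Pool.Agent.Helper1.T1.MAINR
import Pool.Agent.Helper1.T1.PQR
import Pool.Agent.Helper1.T1.EMPT
import Pool.Agent.Helper1.T1.Fin

/-!
PROJECT T1: the regular side from the goals (helper1).
-/

set_option autoImplicit false

noncomputable section

namespace Pool.Agent.Helper1.T1.REGU

open Module Pool.Agent.Helper97 Pool.Agent.Helper97.Nag Pool.Agent.Helper98.UN Pool.Agent.Helper1.All
  Pool.Agent.Helper1.T1

/-- a small correction avoiding two values -/
theorem eps (x M δ κ : ℝ) (hκ : 0 < κ) (hδ : 0 < δ) :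
    ∃ ε : ℝ, 0 < ε ∧ ε ≤ δ ∧ ¬(κ * (M + ε) = 2 ∧ x = 1 / 2) ∧ ¬(κ * (M + ε) = 3 ∧ x = 1 / 3) := by
  have h0 : 0 < κ * δ := mul_pos hκ hδ
  by_cases h : (κ * (M + δ) = 2 ∧ x = 1 / 2) ∨ (κ * (M + δ) = 3 ∧ x = 1 / 3)
  · refine ⟨δ / 2, by linarith, by linarith, ?_, ?_⟩
    · rintro ⟨h1, h2⟩
      rcases h with ⟨h3, -⟩ | ⟨-, h4⟩
      · linarith
      · rw [h2] at h4
        norm_num at h4
    · rintro ⟨h1, h2⟩
      rcases h with ⟨-, h4⟩ | ⟨h3, -⟩
      · rw [h2] at h4
        norm_num at h4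
      · linarith
  · push Not at h
    exact ⟨δ, hδ, le_rfl, fun h1 => h.1 h1.1 h1.2, fun h1 => h.2 h1.1 h1.2⟩

theorem t (hM : S_MAINR) (hR : S_REGP) (hS : S_SLOPP) (hP : S_PQR) {n c : ℕ} (k d : ℕ)
    (m : Fin n → ℕ) (w h : Fin n → ℝ) (W H : Fin c → ℝ) (A : Fin c → Finset (Fin n))
    (hC : Cells k w h W H A) (hA : ∀ i, ∃ l, i ∈ A l)
    (hm : ∀ i, (m i : ℝ) + 1 ≤ min (w i) (h i)) (h1 : ∀ l, k * H l < (d : ℝ) + 3)
    (h2 : ∑ l, H l * max (W l) (((d : ℝ) + 3) / k) < ((d : ℝ) + 3) ^ 2) :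
    GenDim d m (vdim d m) ∧ 0 ≤ vdim d m := by
  classical
  obtain ⟨hk, hc, hdis, hCut⟩ := hC
  have hk0 : (0 : ℝ) < k := by
    have : 0 < k := by omega
    exact_mod_cast this
  obtain ⟨Q, hQ⟩ : ∃ Q : ℝ, Q = (d : ℝ) + 3 := ⟨_, rfl⟩
  have hQ0 : 0 < Q := by
    rw [hQ]
    positivity
  have hg := fun l => Pool.Agent.Helper35.All.GUI.gur (cut_pack (m := m)
    (fun i => (hm i).trans (min_le_left _ _)) (fun i => (hm i).trans (min_le_right _ _)) (hCut l))
  choose hW0 hH0 lam hDg hPk using hg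
  rw [← hQ] at h2
  simp only [← hQ] at h1
  have hs : 0 ≤ ∑ l, H l := Finset.sum_nonneg fun l _ => (hH0 l).le
  obtain ⟨δ, hδ0, hδ⟩ : ∃ δ : ℝ, 0 < δ ∧
      ∑ l, H l * max (W l) (Q / k) + δ * ∑ l, H l < Q ^ 2 := by
    refine ⟨(Q ^ 2 - ∑ l, H l * max (W l) (Q / k)) / (1 + ∑ l, H l),
      div_pos (by linarith) (by linarith), ?_⟩
    rw [div_mul_eq_mul_div, ← lt_sub_iff_add_lt', div_lt_iff₀ (by linarith)]
    nlinarith
  have he : ∀ l, ∃ ε : ℝ, 0 < ε ∧ ε ≤ δ ∧
      ¬(k / Q * (max (W l) (Q / k) + ε) = 2 ∧ k * H l / Q = 1 / 2) ∧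
      ¬(k / Q * (max (W l) (Q / k) + ε) = 3 ∧ k * H l / Q = 1 / 3) :=
    fun l => eps _ _ _ _ (div_pos hk0 hQ0) hδ0
  choose ε hε0 hε1 hε2 hε3 using he
  obtain ⟨V, hV⟩ : ∃ V : Fin c → ℝ, V = fun l => max (W l) (Q / k) + ε l := ⟨_, rfl⟩
  have hVl : ∀ l, max (W l) (Q / k) + ε l = V l := fun l => by rw [hV]
  simp only [hVl] at hε2 hε3
  have hVW : ∀ l, W l ≤ V l := by
    intro l
    have h3 := le_max_left (W l) (Q / k)
    have h4 := hε0 l
    rw [← hVl l]
    linarith
  have hVQ : ∀ l, Q < k * V l := by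
    intro l
    have h3 := le_max_right (W l) (Q / k)
    have h4 := hε0 l
    have h5 : Q / k < V l := by
      rw [← hVl l]
      linarith
    rwa [div_lt_iff₀ hk0, mul_comm] at h5
  have hV0 : ∀ l, 0 < V l := fun l => (hW0 l).trans_le (hVW l)
  have hVH : ∑ l, V l * H l < Q ^ 2 := by
    refine lt_of_le_of_lt ?_ hδ
    rw [Finset.mul_sum, ← Finset.sum_add_distrib]
    apply Finset.sum_le_sum
    intro l _
    rw [← hVl l]
    have h3 := mul_le_mul_of_nonneg_right (hε1 l) (hH0 l).le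
    linarith
  have hpq : ∀ l, ∃ p q : ℕ, 1 ≤ p ∧ Nat.Coprime p q ∧ p * (k * H l) < Q ∧
      k * V l * (Q - p * (k * H l)) < q * Q ^ 2 ∧ q * Q < k * V l := by
    intro l
    obtain ⟨p, q, i1, i2, i3, i4, i5⟩ := hP (k * H l / Q) (k / Q * V l)
      (div_pos (mul_pos hk0 (hH0 l)) hQ0) ((div_lt_one hQ0).2 (h1 l))
      (by
        rw [div_mul_eq_mul_div, lt_div_iff₀ hQ0, one_mul]
        exact hVQ l) (hε2 l) (hε3 l)
    refine ⟨p, q, i1, i2, ?_, ?_, ?_⟩
    · rw [mul_div_assoc', div_lt_one hQ0] at i3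
      exact i3
    · have h3 : k / Q * V l * (1 - p * (k * H l / Q)) =
          k * V l * (Q - p * (k * H l)) / Q ^ 2 := by
        field_simp
      rw [h3, div_lt_iff₀ (by positivity)] at i4
      exact i4
    · rw [div_mul_eq_mul_div, lt_div_iff₀ hQ0] at i5
      exact i5
  choose p q hp1 hp2 hp3 hp4 hp5 using hpq
  obtain ⟨G, hG⟩ : ∃ G, 2 * (c + G) = (k - 1) * (k - 2) := by
    have h3 : Even ((k - 1) * (k - 2)) := by
      obtain ⟨k', rfl⟩ : ∃ k', k = k' + 2 := ⟨k - 2, by omega⟩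
      have h4 : (k' + 2 - 1) * (k' + 2 - 2) = k' * (k' + 1) := by
        rw [show k' + 2 - 1 = k' + 1 by omega, show k' + 2 - 2 = k' by omega, mul_comm]
      rw [h4]
      exact Nat.even_mul_succ_self k'
    obtain ⟨r, hr⟩ := h3
    exact ⟨r - c, by omega⟩
  rw [hQ] at hVH
  simp only [hQ] at hp3 hp4 hp5
  obtain ⟨L, a₀, T₀, a, T, g1, g2, g3, g4⟩ := hS c k d G V H p q (by omega)
    (fun l => ⟨hV0 l, hH0 l, hp1 l, hp3 l, hp4 l, hp5 l⟩) hVH
  have hr := fun l => hR n m (A l) (lam l) (H l) (W l) (V l) k d (a l) (L - a l) (T l) (p l) (q l)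
    (hDg l) (hPk l) (hH0 l) (hW0 l) (hVW l) (by omega) (g2 l).1
    (by have := (g2 l).2.1; omega) (g2 l).2.2.2 (hp1 l) (hp2 l) (g4 l).1 (g4 l).2.1 (g4 l).2.2
  choose u v S hu hv hSR hcard hI using hr
  choose g hg using hA
  have hg' : ∀ i l, i ∈ A l → l = g i := by
    intro i l hl
    by_contra hne
    exact Finset.disjoint_left.1 (hdis l (g i) hne) hl (hg i)
  obtain ⟨K, i1, i2, P, hPP⟩ := hM k L (c + G) d n m (fun i => Fin.castAdd G (g i))
    (fun i => u (g i) i) (fun i => v (g i) i) (Fin.append a fun _ => a₀) (Fin.append T fun _ => T₀)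
    (Fin.append S fun _ => ∅) hk hG (fun i => hu _ i) (fun i => hv _ i)
    (by
      intro l
      refine Fin.addCases (fun l => ?_) (fun l => ?_) l
      · rw [Fin.append_left, Fin.append_left]
        exact g2 l
      · rw [Fin.append_right, Fin.append_right]
        exact g1)
    (by
      rw [Fin.sum_univ_add]
      simp only [Fin.append_left, Fin.append_right]
      rw [Finset.sum_const, Finset.card_univ, Fintype.card_fin, nsmul_eq_mul]
      exact g3)
    (by
      intro l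
      refine Fin.addCases (fun l => ?_) (fun l => ?_) l
      · rw [Fin.append_left, Fin.append_left, Fin.append_left]
        exact hSR l
      · rw [Fin.append_right, Fin.append_right, Fin.append_right]
        intro s hs
        exact absurd hs (Finset.notMem_empty s))
    (by
      intro l
      refine Fin.addCases (fun l => ?_) (fun l => ?_) l
      · rw [Fin.append_left]
        apply EMPT.mono (hI l)
        · intro i
          by_cases hi : i ∈ A l
          · rw [if_pos hi, if_pos (by rw [hg' i l hi])]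
          · rw [if_neg hi]
            exact Nat.zero_le _
        · intro i hi
          by_cases hi' : i ∈ A l
          · rw [← hg' i l hi']
            exact ⟨rfl, rfl⟩
          · rw [if_neg hi'] at hi
            exact absurd rfl hi
      · rw [Fin.append_right]
        intro _ _ s hs
        exact absurd hs (Finset.notMem_empty s))
  have hsum : ∑ l, ((Fin.append S fun _ : Fin G => (∅ : Finset (ℕ × ℤ))) l).card =
      ∑ i, (m i + 1).choose 2 := by
    rw [Fin.sum_univ_add]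
    simp only [Fin.append_left, Fin.append_right, Finset.card_empty, Finset.sum_const_zero,
      add_zero]
    rw [Finset.sum_congr rfl fun l _ => hcard l, ← Finset.sum_biUnion fun l _ l' _ hne => hdis l l' hne]
    congr 1
    ext i
    simp only [Finset.mem_biUnion, Finset.mem_univ, true_and, iff_true]
    exact ⟨g i, hg i⟩
  rw [hsum] at hPP
  have h3 := transC (n := n) (d := d) (m := m)
    (N := (d + 2).choose 2 - ∑ l, (m l + 1).choose 2) nGoals.trk ⟨K, i1, i2, P, by omega⟩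
  have h5 : ∑ l, (m l + 1).choose 2 ≤ (d + 2).choose 2 := by omega
  have h6 : (((d + 2).choose 2 - ∑ l, (m l + 1).choose 2 : ℕ) : ℤ) = vdim d m := by
    unfold vdim
    rw [Nat.cast_sub h5]
    push_cast
    rfl
  have h7 : 0 ≤ vdim d m := by
    rw [← h6]
    exact Int.natCast_nonneg _
  have h4 := upgrade h3 (by rw [h6]; exact le_max_left _ _)
  rw [max_eq_left h7] at h4
  exact ⟨h4, h7⟩

end Pool.Agent.Helper1.T1.REGU
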