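import Pool.Agent.Helper1.T1.Goals4

/-!
PROJECT T1, THE REGULAR SIDE, SHARP FORM (helper1): REGP and SLOPP instead of REGC and SLOPR (chords in the
direction `(p, q)` instead of `(1, e)`).

THEOREM (RT2). Let `k ≥ 3`, `2 c ≤ (k - 1)(k - 2)`, let the rectangles `W_l × H_l`, `l < c`, be cut into rectangles
`w_i × h_i` (all the points), `m_i + 1 ≤ min w_i h_i`, `Q = d + 3`, `k H_l < Q` and
`∑ H_l max (W_l) (Q/k) < Q²`. Then `L(d; m)` with general points has the virtual dimension.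
-/

set_option autoImplicit false

noncomputable section

namespace Pool.Agent.Helper1.T1

open Module Pool.Agent.Helper97 Pool.Agent.Helper97.Nag Pool.Agent.Helper98.UN Pool.Agent.Helper1.All

open Pool.Agent.Helper97.Tate (OO KK SS cf iO evx evK Van Fm)

/-- REGP (helper35; hypothesis AFF; it contains REGC, `p = 1`). One cell, regular side.
PROOF. `β = T/a`, `α = T/b`, `p α < q`, `t' = (d + 3 - k)/k`, `E = α + β`. `S₀` = all the `(j, n)` with InR: `j < t'`,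
`-α (t' - j) < n < β (t' - j)`. On the line `X = q j - p n` the `j` are in one class modulo `p` and: `j ≥ 0`,
`j < J = (X + p β t')/(q + p β)`, `j > I = (X - p α t')/(q - p α)`. If `X < p α t'` (`I < 0`) there are at least `s ≥ 1`
of them if `J > p s - 1` (the class has a member `≤ p - 1`), i.e. `X > (p s - 1)(q + p β) - p β t'`. If
`X ≥ p α t'` (`I ≥ 0`) there are at least `s` if `J - I > p s`, i.e. `X < q t' - s (q - p α)(q + p β)/E`
(`J - I = p E (q t' - X)/((q + p β)(q - p α))`). So all the integers `X` of the open interval between these two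
numbers have at least `s` points; its length is `ℓ(s) = (q + p β)(d + 3)/k - s (q + p β)²/E`
(`t' + 1 = (d + 3)/k`), so there are at least `N` such `X` for every natural `N < ℓ(s)`. If `lam s > 0` then by
PackD (`a = lam s - 1`) `lam s * H + (s + 1) W ≤ W H`, so `s + 1 < H` and `lam s ≤ W (1 - (s + 1)/H) ≤
V (1 - (s + 1)/H) < ℓ(s + 1)`, because `ℓ` is linear, `ℓ(0) = (q + p β)(d + 3)/k > V` and `ℓ(H) > 0`. So
`lam s ≤ nr S₀' (s + 1)`, `S₀'` = the image of `S₀` under the unimodular map of CELLP. As in FIN.reg (choose,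
size) and Helper35/T1/CELLP.lean (points outside `A` have multiplicity `0`) there is a subset of `S₀'` with
`∑ C(m_i + 1, 2)` points and IndepC; AFF. -/
def S_REGP : Prop := ∀ (n : ℕ) (m : Fin n → ℕ) (A : Finset (Fin n)) (lam : ℕ → ℕ) (H W V : ℝ)
  (k d a b T p q : ℕ), Dg m A lam → Pool.Agent.Helper35.All.GU.PackD W H lam → 0 < H → 0 < W →
  W ≤ V → 1 ≤ k → 0 < a → 0 < b → 0 < T → 1 ≤ p → Nat.Coprime p q → p * ((T : ℝ) / b) < q →
  V < ((q : ℝ) + p * ((T : ℝ) / a)) * (((d : ℝ) + 3) / k) →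
  H * ((q : ℝ) + p * ((T : ℝ) / a)) < ((T : ℝ) / a + (T : ℝ) / b) * (((d : ℝ) + 3) / k) →
  ∃ (u w : Fin n → ℚ) (S : Finset (ℕ × ℤ)), (∀ i, 0 < u i) ∧ (∀ i, 0 < w i) ∧
    (∀ s ∈ S, InR k d a b T s.1 s.2) ∧ S.card = ∑ i ∈ A, (m i + 1).choose 2 ∧
    IndepC (fun i => if i ∈ A then m i else 0) u w S

/-- SLOPP (helper57 or helper8; it contains SLOPR, `p = 1`). The slopes. `G` = the number of the nodes
without points.
PROOF. `Q = d + 3`, `y = k V/Q`, `x = k H/Q`, `p x < 1`, `β_0 = (y - q)/p > 0`, `α_0 = (q - y (1 - p x))/p > 0`,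
`p α_0 < q`; `∑ (α_0 + β_0) = ∑ x y < k²`. Rational `β > β_0`, `α_0 < α < q/p`, `α ≠ β`, close to `β_0`, `α_0`, and
very small rational slopes `α' ≠ β'` for the other nodes, such that the sum is `≤ k²`. `V < (q + p β) Q/k`,
and `x (q + p β) = x y + p x (β - β_0) < x y + (β - β_0) = α_0 + β < α + β`. Then `L, a, T` as in
Helper1/T1/EMPT2L.lean, `lat` (apply it to `Fin (c + 1)`). -/
def S_SLOPP : Prop := ∀ (c k d G : ℕ) (V H : Fin c → ℝ) (p q : Fin c → ℕ), 1 ≤ k →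
  (∀ l, 0 < V l ∧ 0 < H l ∧ 1 ≤ p l ∧ p l * (k * H l) < d + 3 ∧
    k * V l * ((d : ℝ) + 3 - p l * (k * H l)) < q l * ((d : ℝ) + 3) ^ 2 ∧
    q l * ((d : ℝ) + 3) < k * V l) →
  ∑ l, V l * H l < ((d : ℝ) + 3) ^ 2 →
  ∃ (L a₀ T₀ : ℕ) (a T : Fin c → ℕ), (0 < a₀ ∧ a₀ < L ∧ 2 * a₀ ≠ L ∧ 0 < T₀) ∧
    (∀ l, 0 < a l ∧ a l < L ∧ 2 * a l ≠ L ∧ 0 < T l) ∧
    (∑ l, ((T l : ℝ) / a l + (T l : ℝ) / ((L - a l : ℕ) : ℝ)) +
      G * ((T₀ : ℝ) / a₀ + (T₀ : ℝ) / ((L - a₀ : ℕ) : ℝ)) ≤ (k : ℝ) ^ 2) ∧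
    ∀ l, p l * ((T l : ℝ) / ((L - a l : ℕ) : ℝ)) < q l ∧
      V l < ((q l : ℝ) + p l * ((T l : ℝ) / a l)) * (((d : ℝ) + 3) / k) ∧
      H l * ((q l : ℝ) + p l * ((T l : ℝ) / a l)) <
        ((T l : ℝ) / a l + (T l : ℝ) / ((L - a l : ℕ) : ℝ)) * (((d : ℝ) + 3) / k)

/-- PQR (helper1). -/
def S_PQR : Prop := ∀ x y : ℝ, 0 < x → x < 1 → 1 < y → ¬(y = 2 ∧ x = 1 / 2) →
  ¬(y = 3 ∧ x = 1 / 3) →
  ∃ p q : ℕ, 1 ≤ p ∧ Nat.Coprime p q ∧ p * x < 1 ∧ y * (1 - p * x) < q ∧ (q : ℝ) < y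

end Pool.Agent.Helper1.T1
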