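import Pool.Agent.Helper1.T1.All2
import Pool.Agent.Helper1.T1.REGU
import Pool.Agent.Helper79.T1.POTR
import Pool.Agent.Helper8.T1.SLOPP
import Pool.Agent.Helper30.T1.ISO
import Pool.Agent.Helper35.T1.REGP

/-!
PROJECT T1: the regular side without hypotheses (helper1).
-/

set_option autoImplicit false

noncomputable section

namespace Pool.Agent.Helper1.T1

open Module Pool.Agent.Helper97 Pool.Agent.Helper97.Nag Pool.Agent.Helper98.UN Pool.Agent.Helper1.All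

open Pool.Agent.Helper97.Nag (all_MIKV)

open Pool.Agent.Helper97.Tate (all_EVC)

theorem allReg0 (hC : S_NFC) (hS : S_NFS) {n c : ℕ} (k d : ℕ) (m : Fin n → ℕ) (w h : Fin n → ℝ)
    (W H : Fin c → ℝ) (A : Fin c → Finset (Fin n)) (hc : Cells k w h W H A)
    (hA : ∀ i, ∃ l, i ∈ A l) (hm : ∀ i, (m i : ℝ) + 1 ≤ min (w i) (h i))
    (h1 : ∀ l, k * H l < (d : ℝ) + 3)
    (h2 : ∑ l, H l * max (W l) (((d : ℝ) + 3) / k) < ((d : ℝ) + 3) ^ 2) :
    GenDim d m (vdim d m) ∧ 0 ≤ vdim d m :=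
  REGU.t (MAINR.t all_ANN all_CRVT all_LEVT Pool.Agent.Helper79.T1.POTR.t
      (Pool.Agent.Helper30.T1.ISO.t hC) all_MIKV all_EVC hS)
    (Pool.Agent.Helper35.T1.REGP.t all_AFF) Pool.Agent.Helper8.T1.SLOPP.t PQR.t
    k d m w h W H A hc hA hm h1 h2

end Pool.Agent.Helper1.T1
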