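import Pool.Agent.Helper79.T1.NFS

/-!
PROJECT T1: NFC (helper1).
-/

set_option autoImplicit false

namespace Pool.Agent.Helper1.T1.NFC

open Pool.Agent.Helper1.T1

theorem sum (k e : ℕ) (h : k ≤ e + 2) :
    2 * ∑ p ∈ Finset.range k, (e + 1 - p) + k * k = k * (2 * e + 3) := by
  induction k with
  | zero => simp
  | succ k ih =>
    have h1 := ih (by omega)
    rw [Finset.sum_range_succ]
    have h2 : e + 1 - k + k = e + 1 := by omega
    nlinarith

theorem t : S_NFC := by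
  intro k e hk h
  rw [Pool.Agent.Helper79.T1.NFS.card_nf]
  have h1 := sum k e h
  obtain ⟨k', rfl⟩ : ∃ k', k = k' + 1 := ⟨k - 1, by omega⟩
  rcases Nat.eq_zero_or_pos k' with h0 | h0
  · subst h0
    simp at h1 ⊢
  · obtain ⟨j, rfl⟩ : ∃ j, k' = j + 1 := ⟨k' - 1, by omega⟩
    have h2 : (j + 1 + 1 - 1) * (j + 1 + 1 - 2) = (j + 1) * j := by
      rw [show j + 1 + 1 - 1 = j + 1 by omega, show j + 1 + 1 - 2 = j by omega]
    rw [h2]
    nlinarith

end Pool.Agent.Helper1.T1.NFC
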