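import Pool.Agent.Helper1.T1.EMPT2
import Pool.Agent.Helper1.T1.NEF

/-!
PROJECT T1: a criterion of emptiness for all multiplicities (helper1).
-/

set_option autoImplicit false

noncomputable section

namespace Pool.Agent.Helper1.T1.CRIT

open Module Pool.Agent.Helper97 Pool.Agent.Helper97.Nag Pool.Agent.Helper98.UN Pool.Agent.Helper1.All
  Pool.Agent.Helper1.T1 Pool.Agent.Helper1.T1.NEF

open Pool.Agent.Helper97.Tate (OO KK SS cf iO evx evK Van Fm)

open Filter Topology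

/-- the widths are increased -/
theorem widen {c : ℕ} (K : ℝ) (v R : Fin c → ℝ) (h1 : ∀ l, 0 < v l)
    (h2 : K < ∑ l, min (v l ^ 2 / R l) (v l)) (hR : ∀ l, 0 < R l) :
    ∃ ε : ℝ, 0 < ε ∧ K < ∑ l, v l ^ 2 / max (R l) (v l + ε) := by
  have e3 : ∀ᶠ ε in 𝓝[>] (0 : ℝ), K < ∑ l, v l ^ 2 / max (R l) (v l + ε) := by
    have hc : ContinuousAt (fun ε : ℝ => ∑ l, v l ^ 2 / max (R l) (v l + ε)) 0 := by
      apply tendsto_finsetSum
      intro l _
      apply ContinuousAt.div continuousAt_const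
      · fun_prop
      · exact (lt_of_lt_of_le (hR l) (le_max_left _ _)).ne'
    have h3 : ∀ᶠ ε in 𝓝 (0 : ℝ), K < ∑ l, v l ^ 2 / max (R l) (v l + ε) := by
      apply hc.eventually_const_lt
      refine lt_of_lt_of_eq h2 ?_
      apply Finset.sum_congr rfl
      intro l _
      rw [add_zero]
      rcases le_total (R l) (v l) with h | h
      · rw [max_eq_right h, min_eq_right]
        · rw [sq, mul_div_assoc, div_self (h1 l).ne', mul_one]
        · rw [le_div_iff₀ (hR l), sq]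
          exact mul_le_mul_of_nonneg_left h (h1 l).le
      · rw [max_eq_left h, min_eq_left]
        rw [div_le_iff₀ (hR l), sq]
        exact mul_le_mul_of_nonneg_left h (h1 l).le
    exact h3.filter_mono nhdsWithin_le_nhds
  have e4 : ∀ᶠ ε in 𝓝[>] (0 : ℝ), 0 < ε := self_mem_nhdsWithin
  obtain ⟨ε, a, b⟩ := (e4.and e3).exists
  exact ⟨ε, a, b⟩

theorem t (hE : S_EMPT2) (hT : Tate.S_TRK) {n : ℕ} (k c d : ℕ) (m : Fin n → ℕ) (w h : Fin n → ℝ)
    (W H : Fin c → ℝ) (A : Fin c → Finset (Fin n)) (hk : 3 ≤ k)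
    (hc : 2 * c ≤ (k - 1) * (k - 2)) (hdis : ∀ l l', l ≠ l' → Disjoint (A l) (A l'))
    (hCut : ∀ l, Cut w h (W l) (H l) (A l))
    (h1 : ∀ l, d * H l < k * ∑ i ∈ A l, min (w i) (h i) * m i)
    (h2 : (d : ℝ) ^ 2 < ∑ l, min ((∑ i ∈ A l, min (w i) (h i) * m i) ^ 2 / (W l * H l))
      (d * (∑ i ∈ A l, min (w i) (h i) * m i) / (k * H l))) :
    GenDim d m 0 ∧ vdim d m ≤ 0 := by
  classical
  have htri := fun l => tri m (hCut l)
  choose hW0 hH0 lam hlam using htri
  obtain ⟨X, hX⟩ : ∃ X : Fin c → ℝ, X = fun l => ∑ i ∈ A l, min (w i) (h i) * (m i : ℝ) := ⟨_, rfl⟩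
  have hXl : ∀ l, X l = ∑ i ∈ A l, min (w i) (h i) * (m i : ℝ) := fun l => by rw [hX]
  simp only [← hXl] at h1 h2 hlam
  have hk0 : (0 : ℝ) < k := by
    have : 0 < k := by omega
    exact_mod_cast this
  have hX0 : ∀ l, 0 < X l := by
    intro l
    have h3 : 0 < k * X l := lt_of_le_of_lt (mul_nonneg (Nat.cast_nonneg d) (hH0 l).le) (h1 l)
    exact pos_of_mul_pos_right h3 hk0.le
  have hd1 : 1 ≤ d := by
    by_contra hcon
    have h0 : d = 0 := by omega
    subst h0
    have h3 : ∑ l, min (X l ^ 2 / (W l * H l)) (((0 : ℕ) : ℝ) * X l / (k * H l)) ≤ 0 := by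
      apply Finset.sum_nonpos
      intro l _
      apply min_le_of_right_le
      rw [Nat.cast_zero, zero_mul, zero_div]
    have h4 : (((0 : ℕ) : ℝ)) ^ 2 = 0 := by simp
    rw [h4] at h2
    linarith
  have hd0 : (0 : ℝ) < d := by
    have : 0 < d := by omega
    exact_mod_cast this
  obtain ⟨t, ht⟩ : ∃ t : ℝ, t = (d : ℝ) / k := ⟨_, rfl⟩
  have ht0 : 0 < t := by
    rw [ht]
    positivity
  have hdt : (d : ℝ) = k * t := by
    rw [ht]
    field_simp
  obtain ⟨v, hv⟩ : ∃ v : Fin c → ℝ, v = fun l => X l / H l / t := ⟨_, rfl⟩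
  have hvl : ∀ l, v l = X l / H l / t := fun l => by rw [hv]
  have hv1 : ∀ l, 1 < v l := by
    intro l
    rw [hvl, div_div, lt_div_iff₀ (mul_pos (hH0 l) ht0), one_mul]
    have h3 := h1 l
    rw [hdt] at h3
    have h4 : k * (H l * t) < k * X l := by linarith
    exact lt_of_mul_lt_mul_left h4 hk0.le
  have hv0 : ∀ l, 0 < v l := fun l => lt_trans one_pos (hv1 l)
  have hR0 : ∀ l, 0 < W l / H l := fun l => div_pos (hW0 l) (hH0 l)
  have hsum : (k : ℝ) ^ 2 < ∑ l, min (v l ^ 2 / (W l / H l)) (v l) := by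
    have h3 : ∑ l, min (X l ^ 2 / (W l * H l)) (d * X l / (k * H l)) =
        t ^ 2 * ∑ l, min (v l ^ 2 / (W l / H l)) (v l) := by
      rw [Finset.mul_sum]
      apply Finset.sum_congr rfl
      intro l _
      rw [mul_min_of_nonneg _ _ (pow_pos ht0 2).le, hvl]
      have h4 := (hW0 l).ne'
      have h5 := (hH0 l).ne'
      have h6 := ht0.ne'
      have h7 := hk0.ne'
      congr 1
      · field_simp
      · rw [hdt]
        field_simp
    rw [h3, hdt, mul_pow, mul_comm] at h2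
    exact lt_of_mul_lt_mul_left h2 (pow_pos ht0 2).le
  obtain ⟨ε, hε, hε2⟩ := widen ((k : ℝ) ^ 2) v (fun l => W l / H l) hv0 hsum hR0
  have hemp := hE k c d n m A lam H (fun l => max (W l / H l) (v l + ε) * H l)
    (fun l => X l / H l) hk hc hd1 hdis
    (fun l => ⟨(hlam l).1, hH0 l, mul_pos (lt_of_lt_of_le (hR0 l) (le_max_left _ _)) (hH0 l)⟩)
    (by
      intro l s' a' hsa
      apply (hlam l).2
      rw [div_mul_cancel₀ _ (hH0 l).ne'] at hsa
      refine lt_of_le_of_lt ?_ hsa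
      have h3 : W l ≤ max (W l / H l) (v l + ε) * H l := by
        have h4 : W l / H l * H l = W l := div_mul_cancel₀ _ (hH0 l).ne'
        calc W l = W l / H l * H l := h4.symm
          _ ≤ _ := mul_le_mul_of_nonneg_right (le_max_left _ _) (hH0 l).le
      have h5 := mul_le_mul_of_nonneg_right h3 (Nat.cast_nonneg (α := ℝ) s')
      linarith)
    (by
      intro l
      rw [← ht, ← hvl, mul_div_cancel_right₀ _ (hH0 l).ne']
      refine ⟨hv1 l, lt_of_lt_of_le ?_ (le_max_right _ _)⟩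
      linarith)
    (by
      rw [← ht]
      refine lt_of_lt_of_eq hε2 ?_
      apply Finset.sum_congr rfl
      intro l _
      rw [← hvl]
      have h3 : max (W l / H l) (v l + ε) ≠ 0 := (lt_of_lt_of_le (hR0 l) (le_max_left _ _)).ne'
      have h4 := (hH0 l).ne'
      field_simp)
  obtain ⟨K, i1, i2, Q, hQ⟩ := hemp
  have h5 := transC (n := n) (d := d) (m := m) (N := 0) hT ⟨K, i1, i2, Q, by omega⟩
  have h6 := upgrade h5 (by simp)
  obtain ⟨G', hG0, hG⟩ := h5
  have h7 : GenDim d m 0 := ⟨G', hG0, fun P _ hP => by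
    rw [Nat.le_zero.1 (hG P hP)]
    rfl⟩
  refine ⟨h7, ?_⟩
  rw [← gen_unique h6 h7]
  exact le_max_left _ _

end Pool.Agent.Helper1.T1.CRIT
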