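import Pool.Agent.Helper1.All.LIN
import Pool.Agent.Helper97.Nag.Goals1

/-!
PROJECT T1 (MP_d3128a_ag, slot 12): NAGATA'S INEQUALITY FOR UNEQUAL MULTIPLICITIES. Definitions.
Captain helper1, co-captain helper79; idea of the loops: helper79, helper51, helper35.
-/

set_option autoImplicit false

noncomputable section

namespace Pool.Agent.Helper1.T1

open Pool.Agent.Helper97.Tate (OO KK SS cf iO evx evK Van Fm)

section Node

variable {F : Type} [Field F]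

/-- a node of the curve `D_k(x) = D_{k-1}(y)`, given by one of its four parameters -/
def IsNode (k : ℕ) (ζ : Fˣ) : Prop :=
  ζ ^ (2 * (k * (k - 1))) = 1 ∧ ζ ^ (2 * k) ≠ 1 ∧ ζ ^ (2 * (k - 1)) ≠ 1

/-- the parameter of the other branch: `ζ ^ (1 - 2 k)` -/
def cnj (k : ℕ) (ζ : Fˣ) : Fˣ := (ζ ^ (2 * k - 1))⁻¹

/-- different nodes -/
def Sep (k : ℕ) (ζ ξ : Fˣ) : Prop := ζ ≠ ξ ∧ ζ ≠ ξ⁻¹ ∧ ζ ≠ cnj k ξ ∧ ζ ≠ (cnj k ξ)⁻¹

/-- the local series: `ρ(0) = 1`, `ρ'(0) ≠ 0`, `ρ^N - ρ^(-N) = X`, `N = k (k - 1)` -/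
def IsRho (k : ℕ) (ρ : PowerSeries F) : Prop :=
  PowerSeries.constantCoeff ρ = 1 ∧ PowerSeries.coeff 1 ρ ≠ 0 ∧
    ρ ^ (2 * (k * (k - 1))) = 1 + PowerSeries.X * ρ ^ (k * (k - 1))

/-- the value of `p` at `x = v^(k-1) + v^(-(k-1))`, `y = v^k + v^(-k)`, where `v = ζ * r` -/
def lev (k : ℕ) (ζ : Fˣ) (r : PowerSeries F) (p : MvPolynomial (Fin 2) F) : PowerSeries F :=
  MvPolynomial.aeval
    ![(PowerSeries.C (ζ : F) * r) ^ (k - 1) + ((PowerSeries.C (ζ : F) * r)⁻¹) ^ (k - 1),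
      (PowerSeries.C (ζ : F) * r) ^ k + ((PowerSeries.C (ζ : F) * r)⁻¹) ^ k] p

/-- normal forms: degree `< k` in the first variable, total degree `≤ e` -/
def IsNF (k e : ℕ) (p : MvPolynomial (Fin 2) F) : Prop :=
  ∀ s ∈ p.support, s 0 < k ∧ s 0 + s 1 ≤ e

/-- the value of a polynomial on an annulus -/
def Ph (x y : SS F) (p : MvPolynomial (Fin 2) F) : SS F :=
  MvPolynomial.eval₂ ((PowerSeries.C : LaurentPolynomial F →+* SS F).comp LaurentPolynomial.C) ![x, y] p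

/-- annuli of the curve `D_k(x) = D_{k-1}(y) + q^L` at `c` nodes. `cf f N n` is the coefficient of
`q^N T^n`. The variables of the two branches are `q^(a l) T` and `q^(L - a l) / T`. -/
structure IsAnn (k L : ℕ) {c : ℕ} (a : Fin c → ℕ) (x y : Fin c → SS F) : Prop where
  pos : ∀ l, 0 < a l ∧ a l < L
  rel : ∀ l, (Polynomial.dickson 1 (1 : SS F) k).eval (x l) -
    (Polynomial.dickson 1 (1 : SS F) (k - 1)).eval (y l) = PowerSeries.X ^ L
  der : ∀ l, 2 * a l ≠ L → ∀ u : Fˣ, PowerSeries.constantCoeff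
    (evK u ((Polynomial.derivative (Polynomial.dickson 1 (1 : SS F) k)).eval (x l))) ≠ 0
  sup : ∀ (l : Fin c) (p : MvPolynomial (Fin 2) F) (N n : ℤ), cf (Ph (x l) (y l) p) N n ≠ 0 →
    (a l : ℤ) * n ≤ N ∧ -((((L - a l : ℕ) : ℤ)) * n) ≤ N
  cnt : ∀ (e : ℕ) (p : MvPolynomial (Fin 2) F) (A B : Fin c → ℕ), IsNF k e p → p ≠ 0 →
    (∀ (l : Fin c) (n : ℕ), n < A l →
      cf (Ph (x l) (y l) p) (((L - a l : ℕ) : ℤ) * n) (-(n : ℤ)) = 0) →
    (∀ (l : Fin c) (n : ℕ), n < B l → cf (Ph (x l) (y l) p) ((a l : ℤ) * n) n = 0) →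
    ∑ l, (A l + B l) ≤ k * e

end Node

section Wedge

/-- the wedge: with `t = d/k`, `α = T/b`, `β = T/a`: `j < t`, `-α (t - j) < n < β (t - j)`; and the apex -/
def InW (k d a b T j : ℕ) (n : ℤ) : Prop :=
  (k * j < d ∧ (k : ℤ) * a * n < T * ((d : ℤ) - k * j) ∧ -((k : ℤ) * b * n) < T * ((d : ℤ) - k * j)) ∨
    (k * j = d ∧ n = 0)

/-- the exponents of the normal forms of degree `≤ e` -/
def nf (k e : ℕ) : Finset (ℕ × ℕ) :=
  (Finset.range k ×ˢ Finset.range (e + 1)).filter fun p => p.1 + p.2 ≤ e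

/-- an enumeration of `nf k e` -/
def nfi (k e r : ℕ) : ℕ × ℕ :=
  if h : r < (nf k e).card then (((nf k e).equivFin.symm ⟨r, h⟩ : nf k e) : ℕ × ℕ) else (0, 0)

end Wedge

end Pool.Agent.Helper1.T1
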