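import Pool.Agent.Helper1.T1.Goals3
import Pool.Agent.Helper1.T1.EMPT

/-!
PROJECT T1: EMPTE (helper1).
-/

set_option autoImplicit false

noncomputable section

namespace Pool.Agent.Helper1.T1.EMPTE

open Module Pool.Agent.Helper97 Pool.Agent.Helper97.Nag Pool.Agent.Helper98.UN Pool.Agent.Helper1.All
  Pool.Agent.Helper1.T1

open Pool.Agent.Helper97.Tate (OO KK SS cf iO evx evK Van Fm)

/-- the torus acts -/
theorem scu {n : ℕ} {M : Fin n → ℕ} {u w : Fin n → ℚ} {C : Finset (ℕ × ℤ)} (r : ℚ) (hr : r ≠ 0)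
    (h : IndepC M u w C) : IndepC M (fun i => r * u i) w C := by
  intro a ha q hq
  have h1 := h (fun q => a q * r ^ q.2) (by
    intro l α β hl
    have h2 := ha l α β hl
    rw [← h2]
    apply Finset.sum_congr rfl
    intro q' _
    rw [mul_zpow]
    ring) q hq
  rcases mul_eq_zero.1 h1 with h2 | h2
  · exact h2
  · exact absurd h2 (zpow_ne_zero _ hr)

/-- all the `u i` can be made larger than `1` -/
theorem big {n : ℕ} (u : Fin n → ℚ) (hu : ∀ i, 0 < u i) : ∃ r : ℚ, 0 < r ∧ ∀ i, r * u i ≠ 1 := by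
  have h0 : 0 ≤ ∑ i, 1 / u i := Finset.sum_nonneg fun i _ => (one_div_pos.2 (hu i)).le
  refine ⟨1 + ∑ i, 1 / u i, by linarith, fun i => ?_⟩
  have h1 : 1 / u i ≤ ∑ i, 1 / u i :=
    Finset.single_le_sum (f := fun i => 1 / u i) (fun i _ => (one_div_pos.2 (hu i)).le)
      (Finset.mem_univ i)
  have h2 : 1 / u i * u i = 1 := by
    have := (hu i).ne'
    field_simp
  have h3 := mul_le_mul_of_nonneg_right h1 (hu i).le
  have h4 := hu i
  intro h5
  rw [add_mul] at h5
  linarith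

theorem t (hM : S_MAINE) (hC : S_CELLP) (hCc : S_CELLC) (hR : S_RATE) (hPQ : S_PQ0) : S_EMPTE := by
  intro k c d n m A lam H W V v R hk hc hd hdis hDg hlam hV hsum
  have hk0 : (0 : ℝ) < k := by
    have : 0 < k := by omega
    exact_mod_cast this
  have hd0 : (0 : ℝ) < d := by
    have : 0 < d := by omega
    exact_mod_cast this
  obtain ⟨t, ht⟩ : ∃ t : ℝ, t = (d : ℝ) / k := ⟨_, rfl⟩
  have ht0 : 0 < t := by
    rw [ht]
    positivity
  simp only [← ht] at hV
  have hc0 : 0 < c := by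
    rcases Nat.eq_zero_or_pos c with h0 | h0
    · subst h0
      rw [Finset.univ_eq_empty, Finset.sum_empty] at hsum
      have : (0 : ℚ) < (k : ℚ) ^ 2 := by
        have : 0 < k := by omega
        positivity
      linarith
    · exact h0
  have hv1 : ∀ l, (1 : ℝ) < v l := fun l => by exact_mod_cast (hV l).2.2.1
  have hvR : ∀ l, ((v l : ℚ) : ℝ) < R l := fun l => by exact_mod_cast (hV l).2.2.2
  have hpq := fun l => hPQ (v l) (R l) (hv1 l) (hvR l)
  choose p q hp hcop hpq1 hpq2 hpq3 hpq4 using hpq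
  have hv0 : ∀ l, (0 : ℚ) < v l := fun l => lt_trans one_pos (hV l).2.2.1
  have hR0 : ∀ l, (0 : ℚ) < R l := fun l => lt_trans (hv0 l) (hV l).2.2.2
  have hp0 : ∀ l, (0 : ℚ) < p l := by
    intro l
    have : 0 < p l := hp l
    exact_mod_cast this
  -- the conditions over `ℚ`
  have g1 : ∀ l, (p l : ℚ) * (v l ^ 2 / R l) ≤ v l := by
    intro l
    have := hpq1 l
    exact_mod_cast this
  have g2 : ∀ l, v l - p l * (v l ^ 2 / R l) < q l := by
    intro l
    have := hpq2 l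
    exact_mod_cast this
  have g3 : ∀ l, (q l : ℚ) < v l := by
    intro l
    have := hpq3 l
    exact_mod_cast this
  obtain ⟨β, hβ⟩ : ∃ β : Fin c → ℚ, β = fun l => (v l - q l) / p l := ⟨_, rfl⟩
  obtain ⟨α, hα⟩ : ∃ α : Fin c → ℚ, α = fun l => v l ^ 2 / R l - β l := ⟨_, rfl⟩
  have hpβ : ∀ l, (p l : ℚ) * β l = v l - q l := by
    intro l
    rw [hβ]
    simp only
    rw [mul_div_cancel₀ _ (hp0 l).ne']
  have hαβ : ∀ l, α l + β l = v l ^ 2 / R l := by
    intro l
    rw [hα]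
    simp only
    ring
  have hβ0 : ∀ l, 0 < β l := by
    intro l
    rw [hβ]
    exact div_pos (sub_pos.2 (g3 l)) (hp0 l)
  have hpα : ∀ l, (p l : ℚ) * α l = p l * (v l ^ 2 / R l) - v l + q l := by
    intro l
    have h1 : (p l : ℚ) * (α l + β l) = p l * (v l ^ 2 / R l) := by rw [hαβ]
    rw [mul_add, hpβ] at h1
    linarith
  have hα0 : ∀ l, 0 < α l := by
    intro l
    have h1 : 0 < (p l : ℚ) * α l := by
      rw [hpα]
      have := g2 l
      linarith
    exact pos_of_mul_pos_right h1 (hp0 l).le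
  -- a cell with `E > 1`
  have hl₀ : ∃ l₀, 1 < v l₀ ^ 2 / R l₀ := by
    by_contra hcon
    push Not at hcon
    have h1 : ∑ l, v l ^ 2 / R l ≤ c := by
      calc ∑ l, v l ^ 2 / R l ≤ ∑ _l : Fin c, (1 : ℚ) := Finset.sum_le_sum fun l _ => hcon l
        _ = c := by simp
    have h2 : (k : ℚ) ^ 2 ≤ c := hsum.trans h1
    have h3 : k ^ 2 ≤ c := by exact_mod_cast h2
    have h6 : (k - 1) * (k - 2) ≤ k * k := Nat.mul_le_mul (Nat.sub_le _ _) (Nat.sub_le _ _)
    have h7 : 0 < k * k := Nat.mul_pos (by omega) (by omega)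
    rw [sq] at h3
    omega
  obtain ⟨l₀, hl₀⟩ := hl₀
  have hp1 : p l₀ = 1 := by
    apply hpq4
    exact_mod_cast hl₀
  have hα1 : (p l₀ : ℚ) * α l₀ < q l₀ := by
    rw [hpα, hp1]
    have h1 : v l₀ ^ 2 / R l₀ < v l₀ := by
      rw [div_lt_iff₀ (hR0 l₀), sq]
      exact mul_lt_mul_of_pos_left (hV l₀).2.2.2 (hv0 l₀)
    push_cast
    linarith
  obtain ⟨L, a, T, h1, h2, h3, h4, h5⟩ := hR c k d l₀ α β (by omega) hd (fun l => ⟨hα0 l, hβ0 l⟩)
    (by
      refine hsum.trans (le_of_eq ?_)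
      apply Finset.sum_congr rfl
      intro l _
      rw [hαβ])
  -- real forms
  have r1 : ∀ l, ((q l : ℝ) + p l * ((β l : ℚ) : ℝ)) = v l := by
    intro l
    have h6 : ((p l : ℚ) * β l : ℚ) = v l - q l := hpβ l
    have h7 : ((p l : ℝ)) * ((β l : ℚ) : ℝ) = v l - q l := by exact_mod_cast h6
    rw [h7]
    ring
  have r2 : ∀ l, (p l : ℝ) * ((α l : ℚ) : ℝ) ≤ q l := by
    intro l
    have h6 : (p l : ℚ) * α l ≤ q l := by
      rw [hpα]
      have := g1 l
      linarith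
    exact_mod_cast h6
  have r3 : ∀ l, W l / H l * (((α l : ℚ) : ℝ) + ((β l : ℚ) : ℝ)) = (v l : ℝ) ^ 2 := by
    intro l
    have h6 : R l * (α l + β l) = v l ^ 2 := by
      rw [hαβ, mul_div_cancel₀ _ (hR0 l).ne']
    rw [(hV l).2.1]
    exact_mod_cast h6
  have r4 : ∀ l, (v l : ℝ) * t = V l := by
    intro l
    rw [← (hV l).1]
    exact div_mul_cancel₀ _ ht0.ne'
  have h6 : ∀ l : Fin c, ∃ u w : Fin n → ℚ, (∀ i, 0 < u i) ∧ (∀ i, 0 < w i) ∧
      ∀ S : Finset (ℕ × ℤ), (∀ q ∈ S, InW k d (a l) (L - a l) (T l) q.1 q.2) →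
        IndepC (fun i => if i ∈ A l then m i else 0) u w S := by
    intro l
    by_cases hl : l = l₀
    · subst hl
      obtain ⟨u, w, hu, hw, hI⟩ := hCc n m (A l) (lam l) (H l) (W l) (V l) k d
        ((α l : ℚ) : ℝ) ((β l : ℚ) : ℝ) (p l) (q l) (hDg l).1 (hDg l).2.1 (hDg l).2.2 (hlam l)
        (by omega) hd (by exact_mod_cast hα0 l) (by exact_mod_cast hβ0 l) (hp l) (hcop l)
        (by rw [r1, ← ht, r4]) (by exact_mod_cast hα1) (by rw [r1, r3])
      exact ⟨u, w, hu, hw, fun S hS => hI S fun s hs => h5 _ _ (hS s hs)⟩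
    · have h7 := h2 l hl
      refine hC n m (A l) (lam l) (H l) (W l) (V l) k d (a l) (L - a l) (T l) (p l) (q l) (hDg l).1
        (hDg l).2.1 (hDg l).2.2 (hlam l) (by omega) hd (h1 l).1 ?_ (h1 l).2.2 (hp l) (hcop l) ?_ ?_ ?_
      · have := (h1 l).2.1
        omega
      · rw [h7.1, r1, ← ht, r4]
      · rw [h7.2]
        exact r2 l
      · rw [h7.1, h7.2, r1, add_comm, r3]
  choose u w hu hw hcell using h6
  have h8 := fun l => big (u l) (hu l)
  choose r hr hru using h8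
  classical
  have hg : ∀ i : Fin n, ∃ l : Fin c, ∀ l', i ∈ A l' → l' = l := by
    intro i
    by_cases hi : ∃ l, i ∈ A l
    · obtain ⟨l, hl⟩ := hi
      refine ⟨l, fun l' hl' => ?_⟩
      by_contra hne
      exact Finset.disjoint_left.1 (hdis l' l hne) hl' hl
    · push Not at hi
      exact ⟨⟨0, hc0⟩, fun l' hl' => absurd hl' (hi l')⟩
  choose g hg using hg
  refine hM k L c d n m g (fun i => r (g i) * u (g i) i) (fun i => w (g i) i) a T hk hc hc0
    (fun i => mul_pos (hr _) (hu _ i)) (fun i => hw _ i) h1 (fun i => hru _ i) h3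
    (fun j hj => ⟨l₀, h4 j hj⟩) ?_
  intro l C hCl
  apply Pool.Agent.Helper1.T1.EMPT.mono (scu (r l) (hr l).ne' (hcell l C hCl))
  · intro i
    by_cases hi : i ∈ A l
    · rw [if_pos hi, if_pos (hg i l hi).symm]
    · rw [if_neg hi]
      exact Nat.zero_le _
  · intro i hi
    by_cases hi' : i ∈ A l
    · rw [← hg i l hi']
      exact ⟨rfl, rfl⟩
    · rw [if_neg hi'] at hi
      exact absurd rfl hi

end Pool.Agent.Helper1.T1.EMPTE
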