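import Pool.Agent.Helper1.T1.Defs

/-!
PROJECT T1 (MP_d3128a_ag, slot 12), captain helper1, co-captain helper79.

THEOREM (UnequalNagata). Let `k ≥ 3`, `2 c ≤ (k - 1)(k - 2)`; for `l < c` let a rectangle `W_l × H_l` be cut
by guillotine cuts into squares of sides `μ_i`, `i ∈ A_l` (disjoint), `D² = ∑ W_l H_l = ∑ μ_i²`, `k H_l < D`,
and suppose that there is an integer `e_l` strictly between `(k W_l/D)(1 - k H_l/D)` and `k W_l/D`
(automatic if `W_l H_l > (D/k)²`). Then every form of degree `d` with multiplicities `m_i` at very general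
points satisfies `∑ μ_i m_i ≤ D d`. In particular (squares in a row): Nagata's inequality
`∑ μ_i m_i ≤ √(∑ μ_i²) d` for all real `μ` with at most `(k-1)(k-2)/2` different values, `k μ_i < D`.

PROOF. `F = ℂ`, `N = k (k - 1)`, `D_n` = Dickson polynomials (`D_n(z + 1/z) = z^n + z^(-n)`). The plane curve
`C_q : D_k(x) = D_{k-1}(y) + q^L` of degree `k` over `F((q))` degenerates for `q = 0` to the rational curve
`x = ζ^(k-1) + ζ^(1-k), y = ζ^k + ζ^(-k)` with `(k-1)(k-2)/2` nodes; a node is given by `ζ` with `ζ^(2N) = 1`,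
`ζ^(2k) ≠ 1 ≠ ζ^(2(k-1))`, its four parameters are `ζ^(±1), ζ^(±(2k-1))`. Let `ρ ∈ F⟦X⟧`, `ρ^N - ρ^(-N) = X`,
`ρ(0) = 1`. At a node put `z = ζ^(k-1) (AB)^(k-1)`, `w = ζ^k (B/A)^k`, `A = ρ(U)`, `B = ρ(c V)`,
`c = ζ^N = ±1`, `x = z + 1/z`, `y = w + 1/w`; then `D_k(x) - D_{k-1}(y) = c (AB)^N + c (AB)^(-N) - c (B/A)^N -
c (A/B)^N = c (A^N - A^(-N)) (B^N - B^(-N)) = U V`. So `U V = q^L`, `U = q^a T`, `V = q^(L-a)/T`, is an annulus of
`C_q`. The points of the group `l` are infinitely near `C_q` in the annulus of the node `l`, at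
`T = u_i` (rational), at the distance `w_i q^(T_l)`. By MIKV the system is empty if KerV = 0. POT
(helper79): this holds if `∑_l (T_l/a_l + T_l/(L - a_l)) > k²` and if, for every `l`, the points `(u_i, w_i)` of
the group `l` impose on the monomials `x^n y^j`, `(j, n)` in the wedge `InW`, conditions with only the zero
solution. CELL: this follows from the collision calculus (`Dg`, `FIN.emp`) and the count of the rows of
the wedge. So `L(d; m)` is empty if `∑_l E_l > k²`, with `t = d/k`, `E_l t ≤ V_l`, `(W_l/H_l) E_l t² ≤ V_l²`,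
`V_l = ∑_{A_l} μ_i m_i / H_l`, and an integer `e_l` strictly between `V_l/t - E_l` and `V_l/t`. For
`m_i ≈ s μ_i`, `s` large, these are the hypotheses of the theorem; if a form `f` has `∑ μ_i m_i > D d`, multiply
`f^p` by a form of degree `≈ s D` with multiplicities `≥ s μ_i` (it exists by a dimension count) and let
`s` be large (NEFA): contradiction.

Deliver `Pool/Agent/<Seat>/T1/XXX.lean`, namespace `Pool.Agent.<Seat>.T1.XXX`,
`theorem t (h1 : S_AAA) ... : S_XXX`; allowed hypotheses: the goals named.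
-/

set_option autoImplicit false

noncomputable section

namespace Pool.Agent.Helper1.T1

open Module Pool.Agent.Helper97 Pool.Agent.Helper97.Nag Pool.Agent.Helper98.UN Pool.Agent.Helper1.All

open Pool.Agent.Helper97.Tate (OO KK SS cf iO evx evK Van Fm)

/-! ### The curve -/

/-- RHO (1 h). The series `ρ`.
PROOF. We need a root `r ∈ F⟦X⟧`, `r(0) = 1`, of `P(Y) = Y^(2N) - X Y^N - 1`, `N = k (k-1) ≥ 2`; modulo `X` it is
`Y^(2N) - 1`, `1` is a simple root. Either Hensel's lemma for `F⟦X⟧` (is there `IsAdicComplete` for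
`PowerSeries` in Mathlib?), or: `s = (X + √(X² + 4))/2` satisfies `s² = X s + 1`, `s(0) = 1` (square root of
a series with constant term `4`), and `r` = the `N`-th root of `s` with constant term `1`. Both roots
from: for `n ≥ 1`, `CharZero F`, a series with constant term `1` has an `n`-th root with constant term `1`
(construct the coefficients by recursion, or `PowerSeries.binomialSeries`/exp and log, or compose
`∑ Ring.choose (1/n) i X^i`). `coeff 1`: from `r^(2N) = 1 + X r^N`, `2N r_1 = 1`. -/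
def S_RHO : Prop := ∀ (F : Type) [Field F] [CharZero F] (k : ℕ), 3 ≤ k →
  ∃ ρ : PowerSeries F, IsRho k ρ

/-- PHI (2 h). The annulus of a node.
PROOF. For `f ∈ F⟦X⟧` let `f(U)`, `f(V) ∈ SS F` be `∑ f_n q^(a n) T^n`, `∑ f_n q^((L-a) n) T^(-n)` (ring
homomorphisms: e.g. `f ↦ PowerSeries.mk fun N => if a ∣ N then C (f_(N/a)) * T^(± N/a) else 0`, or
`PowerSeries.substAlgHom` at `C (T 1) * X^a`). `U V = q^L = X^L`. Put `A = ρ(U)`, `B = (rescale c ρ)(V)`,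
`c = ζ^N`, `c² = 1`; they are units; `A^N - A^(-N) = U`, `B^N - B^(-N) = c V`. `z = ζ^(k-1) (AB)^(k-1)`,
`w = ζ^k (B A⁻¹)^k`, `z^k = ζ^N (AB)^N = c (AB)^N`, `w^(k-1) = c (B A⁻¹)^N`; `x = z + z⁻¹`, `y = w + w⁻¹`.
(1) `Polynomial.dickson_one_one_eval_add_inv` and the computation in the head of this file.
(2) derivative: from `D_k(z + 1/z) = z^k + z^(-k)`: `D_k'(x) (z - z⁻¹) = k (z^k - z^(-k))` (derivative with
respect to `z` of the identity in Laurent polynomials, or induction: `D_k' = k * (dickson 2 1 (k-1))`,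
`Polynomial.dickson` of the second kind, `E_(k-1)(z+1/z)(z - 1/z) = z^k - z^(-k)`). Let `α, β ∈ (KK F)` be the
constant coefficients (in `s`) of `evK u (A^N)`, `evK u (B^N)`: `α - 1/α = q^a u`, `β - 1/β = c q^(L-a)/u`,
`α, β ≡ 1` modulo `q`. If `D_k'(x) = 0` at `s = 0` then `z^k = z^(-k)`, `(αβ)² = 1`, `αβ = 1` (`≡ 1` mod `q`),
`β = 1/α`, so `c q^(L-a)/u = -q^a u`, and `L = 2 a`.
(3) monomials: all `f(U)`, `f(V)` have only monomials `q^N T^n` with `a n ≤ N`, `-(L - a) n ≤ N`; these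
series form a subring. (4) edges: `f ↦ ∑_n cf f (a n) n X^n` is a ring homomorphism from this subring to
`F⟦X⟧` (in a product only monomials of the edge contribute), which maps `f(U)` to `f` and `f(V)` to the
constant `f_0`; so `A ↦ ρ`, `B ↦ 1`, `z ↦ ζ^(k-1) ρ^(k-1) = (cnj ζ * ρ)^(k-1)` and
`w ↦ ζ^k ρ^(-k) = ((cnj ζ * ρ)⁻¹)^k`, because `(cnj ζ)^(k-1) = ζ^((1-2k)(k-1)) = ζ^(k-1)`,
`(cnj ζ)^k = ζ^(k-2k²) = ζ^(-k)` (`ζ^(2k(k-1)) = 1`). In the same way on the other edge `A ↦ 1`,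
`B ↦ rescale c ρ`, `z ↦ (ζ B)^(k-1)`, `w ↦ (ζ B)^k`. -/
def S_PHI : Prop := ∀ (F : Type) [Field F] [CharZero F] (k : ℕ) (ζ : Fˣ) (ρ : PowerSeries F)
  (a L : ℕ), 3 ≤ k → IsNode k ζ → IsRho k ρ → 0 < a → a < L →
  ∃ x y : SS F, ((Polynomial.dickson 1 (1 : SS F) k).eval x -
      (Polynomial.dickson 1 (1 : SS F) (k - 1)).eval y = PowerSeries.X ^ L) ∧
    (2 * a ≠ L → ∀ u : Fˣ, PowerSeries.constantCoeff
      (evK u ((Polynomial.derivative (Polynomial.dickson 1 (1 : SS F) k)).eval x)) ≠ 0) ∧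
    (∀ (p : MvPolynomial (Fin 2) F) (N n : ℤ), cf (Ph x y p) N n ≠ 0 →
      (a : ℤ) * n ≤ N ∧ -((((L - a : ℕ) : ℤ)) * n) ≤ N) ∧
    (∀ (p : MvPolynomial (Fin 2) F) (n : ℕ), cf (Ph x y p) ((a : ℤ) * n) n =
      PowerSeries.coeff n (lev k (cnj k ζ) ρ p)) ∧
    (∀ (p : MvPolynomial (Fin 2) F) (n : ℕ), cf (Ph x y p) (((L - a : ℕ) : ℤ) * n) (-(n : ℤ)) =
      PowerSeries.coeff n (lev k ζ (PowerSeries.rescale ((ζ : F) ^ (k * (k - 1))) ρ) p))

/-- CNTZ (1.5 h). The number of zeros on the rational curve.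
PROOF. Let `f(ζ) = p(ζ^(k-1) + ζ^(1-k), ζ^k + ζ^(-k))`, a Laurent polynomial, `P(ζ) = ζ^(k e) f(ζ)` a polynomial
of degree `≤ 2 k e` (`(k-1) s_0 + k s_1 ≤ k e`). `P ≠ 0`: the monomial `x^(s_0) y^(s_1)` has the leading
exponent `(k-1) s_0 + k s_1`, and these are different for different `s` with `s_0 < k` (they determine
`s_0` modulo `k`). If `ξ ∈ Fˣ`, `r(0) = 1`, `r_1 ≠ 0`, then the order of `f(ξ r)` in `X` is the multiplicity
of the root `ξ` of `P`: `P = (ζ - ξ)^n Q`, `Q(ξ) ≠ 0`, `(ξ r - ξ)^n` has order `n`, `Q(ξ r)` is a unit. As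
`f(1/ζ) = f(ζ)`, the root `ξ⁻¹` has the same multiplicity (or use `r⁻¹`: `lev k ξ r p = lev k ξ⁻¹ r⁻¹ p`, and
`r⁻¹` also has constant term `1` and linear coefficient `-r_1 ≠ 0`). The `4 c` numbers `ζ_l^(±1)`,
`(cnj ζ_l)^(±1)` are different: inside one node by IsNode (`ζ² = 1` or `ζ^(2(2k-1)) = 1` or `ζ^(2k-2) = 1` or
`ζ^(2k) = 1` are impossible; the first implies the third; for the second: `ζ^(2k(k-1)) = 1` and
`gcd(2(2k-1), 2k(k-1)) = 2 gcd(2k-1, k(k-1)) = 2`), for different nodes by Sep and its images under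
`ζ ↦ ζ^(±1), ζ^(±(2k-1))` (`(2k-1)² = 1 + 4k(k-1)`, so `cnj` is an involution). So
`2 ∑ (A l + B l) ≤ deg P ≤ 2 k e`. -/
def S_CNTZ : Prop := ∀ (F : Type) [Field F] (k e c : ℕ) (ζ : Fin c → Fˣ) (r r' : Fin c → PowerSeries F)
  (A B : Fin c → ℕ) (p : MvPolynomial (Fin 2) F), 3 ≤ k → (∀ l, IsNode k (ζ l)) →
  (∀ l l', l ≠ l' → Sep k (ζ l) (ζ l')) →
  (∀ l, PowerSeries.constantCoeff (r l) = 1 ∧ PowerSeries.coeff 1 (r l) ≠ 0) →
  (∀ l, PowerSeries.constantCoeff (r' l) = 1 ∧ PowerSeries.coeff 1 (r' l) ≠ 0) →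
  IsNF k e p → p ≠ 0 →
  (∀ l (n : ℕ), n < A l → PowerSeries.coeff n (lev k (ζ l) (r l) p) = 0) →
  (∀ l (n : ℕ), n < B l → PowerSeries.coeff n (lev k (cnj k (ζ l)) (r' l) p) = 0) →
  ∑ l, (A l + B l) ≤ k * e

/-- NOD (1 h). Enough nodes over `ℂ`.
PROOF. `Z` = the `ζ ∈ ℂˣ` with IsNode: the roots of unity of order dividing `2 k (k-1)`, without those of
order dividing `2k` or `2(k-1)`; `gcd(2k, 2(k-1)) = 2`, so `|Z| = 2k(k-1) - 2k - 2(k-1) + 2 =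
2 (k-1)(k-2)` (`Complex.card_rootsOfUnity`, `rootsOfUnity`; or write `ζ = ω^i`, `ω` primitive,
`i < 2k(k-1)`, and count the `i` divisible by neither `k-1` nor `k`). Greedy choice: every chosen `ξ`
excludes at most the four elements `ξ, ξ⁻¹, cnj ξ, (cnj ξ)⁻¹`; as `4 (c - 1) < 2 (k-1)(k-2)` one can choose
`c` elements with `ζ_l ∉ {four elements of ζ_l'}` for `l' < l`. Sep is symmetric on `Z` (`cnj` is an
involution commuting with the inverse, because `(2k-1)² = 1 + 4k(k-1)`). -/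
def S_NOD : Prop := ∀ k c : ℕ, 3 ≤ k → 2 * c ≤ (k - 1) * (k - 2) →
  ∃ ζ : Fin c → ℂˣ, (∀ l, IsNode k (ζ l)) ∧ ∀ l l', l ≠ l' → Sep k (ζ l) (ζ l')

/-- ANN (helper1; hypotheses RHO, PHI, CNTZ, NOD). -/
def S_ANN : Prop := ∀ (k L c : ℕ) (a : Fin c → ℕ), 3 ≤ k → 2 * c ≤ (k - 1) * (k - 2) →
  (∀ l, 0 < a l ∧ a l < L) → ∃ x y : Fin c → SS ℂ, IsAnn k L a x y

/-- CRVT (0.7 h). The equation.
PROOF. `g = ∑_i C (D_k)_i X_0^i X_2^(k-i) - ∑_i C (D_{k-1})_i X_1^i X_2^(k-i) - C t X_2^k`. `D_n` is monic of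
degree `n` (`n ≥ 1`), coefficients as sums over `Finset.range (k+1)`; `Polynomial.map_dickson`. -/
def S_CRVT : Prop := ∀ (K : Type) [Field K] [CharZero K] (k : ℕ) (t : K), 3 ≤ k →
  ∃ g : MvPolynomial (Fin 3) K, g.IsHomogeneous k ∧ MvPolynomial.coeff (Finsupp.single 0 k) g = 1 ∧
    ∀ (A : Type) [CommRing A] [Algebra K A] (x y : A),
      MvPolynomial.aeval ![x, y, 1] g = (Polynomial.dickson 1 (1 : A) k).eval x -
        (Polynomial.dickson 1 (1 : A) (k - 1)).eval y - algebraMap K A t ∧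
      MvPolynomial.aeval ![x, y, 1] (MvPolynomial.pderiv 0 g) =
        (Polynomial.derivative (Polynomial.dickson 1 (1 : A) k)).eval x

/-- LEVT (1.2 h). The levels.
PROOF. `WKV` with `ι = Fin 0` is `Fm K (d - k j)` (forms of degree `e = d - k j ≥ 0`). DIVISION: every form
`z` of degree `e` is `g y + ∑_{(p,r) ∈ nf k e} c_(p,r) X_0^p X_1^r X_2^(e-p-r)`: for a monomial
`X_0^p X_1^r X_2^(e-p-r)` strong induction on `p`; if `p ≥ k` subtract `g X_0^(p-k) ...` (all the other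
monomials of `g` have exponent of `X_0` less than `k`, because `g` is homogeneous of degree `k`; compare
Helper89/Nag/REDK.lean). So the submodule
`{(z, v) : z - ∑_r v_r M_r ∈ (g)}` of `WKV × (Fin ν → K)` projects onto `WKV`; take a linear section
(`LinearMap.exists_rightInverse_of_surjective`) and its second component `a`. `a z = 0` gives `g ∣ z`, and
`aeval (h i) z = ∑_r v_r h_0^p h_1^r` because `aeval (h i) g = 0`, `h i 2 = 1`. -/
def S_LEVT : Prop := ∀ (K : Type) [Field K] (k d b : ℕ) (g : MvPolynomial (Fin 3) K)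
  (h : Fin b → Fin 3 → PowerSeries K), 1 ≤ k → g.IsHomogeneous k →
  MvPolynomial.coeff (Finsupp.single 0 k) g = 1 → (∀ i, MvPolynomial.aeval (h i) g = 0) →
  (∀ i, h i 2 = 1) →
  LevHypV g (fun i : Fin 0 => (i.elim0 : Fin 3 → K)) (fun i => i.elim0) d k
    (fun j => (nf k (d - k * j)).card) h (fun _ => 1) (fun _ => 1)
    (fun i j r => h i 0 ^ (nfi k (d - k * j) r).1 * h i 1 ^ (nfi k (d - k * j) r).2)

/-- POT (helper79). THE POTENTIAL LEMMA.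
PROOF. Let `v ∈ KerV`, `v ≠ 0`; after multiplication by a power of `q` all `v_(j,r) ∈ OO F`.
`f_(l,j) = ∑_r v_(j,r) B_(l,j,r) ∈ SS F`, `δ_l` = the least `N + j T_l` over the monomials `q^N T^n` of the
`f_(l,j)`, and `l` with `δ_l - (d/k) T_l` minimal. Let `(j, N, n)` be a monomial with `N + j T_l = δ_l`.
Claim: InW. `k j = d`: apex. `k j < d`: let `c_j` be the order of `v_j = (v_(j,r))_r`, `v_j = q^(c_j) v'`; if
`k a_l n ≥ T_l (d - k j)` then `N ≥ c_j + a_l n` (growth), so `c_j ≤ δ_l - (d/k) T_l`, hence for all `l'` all the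
monomials of `f_(l',j)/q^(c_j)` have `N' ≥ T_l' (d/k - j)`, against bezout for `v'(0)`. In the same way for
`n < 0`. So the leading coefficients are a nonzero relation supported on the wedge, for the points of
the group `l`, against cells. (There is such an `l`: bezout, apex.) -/
def S_POT : Prop := ∀ (F : Type) [Field F] [CharZero F] (b c k d : ℕ) (M : Fin b → ℕ)
  (g : Fin b → Fin c) (u w : Fin b → ℚ) (ux : Fin b → Fˣ) (a a' T : Fin c → ℕ) (ν : ℕ → ℕ)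
  (B : Fin c → ℕ → ℕ → SS F), 1 ≤ k → 0 < c → (∀ i, 0 < u i) → (∀ i, 0 < w i) →
  (∀ i, ((ux i : Fˣ) : F) = (u i : F)) → (∀ l, 0 < a l ∧ 0 < a' l ∧ 0 < T l) →
  (∀ (l : Fin c) (j r : ℕ), r < ν j → ∀ N n : ℤ, cf (B l j r) N n ≠ 0 →
    (a l : ℤ) * n ≤ N ∧ -((a' l : ℤ) * n) ≤ N) →
  (∀ j, k * j < d → ∀ v : Fin (ν j) → F, v ≠ 0 → ∃ (l : Fin c) (n : ℕ),
    ((k : ℤ) * a l * n < T l * ((d : ℤ) - k * j) ∧ ∑ r, v r * cf (B l j r) ((a l : ℤ) * n) n ≠ 0) ∨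
    ((k : ℤ) * a' l * n < T l * ((d : ℤ) - k * j) ∧
      ∑ r, v r * cf (B l j r) ((a' l : ℤ) * n) (-(n : ℤ)) ≠ 0)) →
  (∀ j, k * j = d → ν j = 1 ∧ ∀ l, B l j 0 = 1) →
  (∀ (l : Fin c) (C : Finset (ℕ × ℤ)), (∀ q ∈ C, InW k d (a l) (a' l) (T l) q.1 q.2) →
    IndepC (fun i => if g i = l then M i else 0) u w C) →
  KerV M (d / k + 1) ν
    (fun i => algebraMap (OO F) (KK F) (PowerSeries.C ((w i : ℚ) : F) * PowerSeries.X ^ T (g i)))
    (fun i j r => evK (ux i) (B (g i) j r)) = ⊥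

/-- BEZ (0.7 h). The hypothesis bezout of POT from IsAnn.
PROOF. `e = d - k j ≥ 1`, `p = ∑_r v_r x^(nfi r).1 y^(nfi r).2`, a nonzero normal form of degree `≤ e`
(the `nfi` are different, in `nf`), `Ph x y p = ∑ v_r x^.. y^..`. If the conclusion fails, apply `cnt` with
`A l = ⌈T_l e/(k (L - a_l))⌉`, `B l = ⌈T_l e/(k a_l)⌉`: `∑ (A l + B l) ≥ (e/k) ∑ (T_l/a_l + T_l/(L - a_l)) >
(e/k) k² = k e`. -/
def S_BEZ : Prop := ∀ (F : Type) [Field F] (k L c d : ℕ) (a T : Fin c → ℕ) (x y : Fin c → SS F),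
  1 ≤ k → IsAnn k L a x y →
  ((k : ℝ) ^ 2 < ∑ l, ((T l : ℝ) / a l + (T l : ℝ) / ((L - a l : ℕ) : ℝ))) →
  ∀ j, k * j < d → ∀ v : Fin (nf k (d - k * j)).card → F, v ≠ 0 → ∃ (l : Fin c) (n : ℕ),
    ((k : ℤ) * a l * n < T l * ((d : ℤ) - k * j) ∧
      ∑ r : Fin (nf k (d - k * j)).card, v r * cf (x l ^ (nfi k (d - k * j) r).1 *
        y l ^ (nfi k (d - k * j) r).2) ((a l : ℤ) * n) n ≠ 0) ∨
    ((k : ℤ) * ((L - a l : ℕ) : ℤ) * n < T l * ((d : ℤ) - k * j) ∧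
      ∑ r : Fin (nf k (d - k * j)).card, v r * cf (x l ^ (nfi k (d - k * j) r).1 *
        y l ^ (nfi k (d - k * j) r).2) (((L - a l : ℕ) : ℤ) * n) (-(n : ℤ)) ≠ 0)

/-- MAINT (helper1; hypotheses ANN, CRVT, LEVT, POT, BEZ, MIKV). -/
def S_MAINT : Prop := ∀ (k L c d n : ℕ) (m : Fin n → ℕ) (g : Fin n → Fin c) (u w : Fin n → ℚ)
  (a T : Fin c → ℕ), 3 ≤ k → 2 * c ≤ (k - 1) * (k - 2) → 0 < c → (∀ i, 0 < u i) → (∀ i, 0 < w i) →
  (∀ l, 0 < a l ∧ a l < L ∧ 2 * a l ≠ L ∧ 0 < T l) →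
  ((k : ℝ) ^ 2 < ∑ l, ((T l : ℝ) / a l + (T l : ℝ) / ((L - a l : ℕ) : ℝ))) →
  (∀ (l : Fin c) (C : Finset (ℕ × ℤ)), (∀ q ∈ C, InW k d (a l) (L - a l) (T l) q.1 q.2) →
    IndepC (fun i => if g i = l then m i else 0) u w C) →
  ∃ (K : Type) (_ : Field K) (_ : CharZero K) (P : Fin n → Fin 3 → K),
    finrank K (Fm K d ⊓ ⨅ l, Van (P l) (m l) : Submodule K (MvPolynomial (Fin 3) K)) = 0

/-! ### The cells -/

/-- SHR (1 h). The shear. The torus automorphism `(x, y) ↦ (x, x^e y)`.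
PROOF. The conditions of multiplicity `m` at a point `(u, w)`, `u, w ≠ 0`, on `∑ a_(j,n) x^n y^j` are
equivalent to `∑ a_(j,n) φ(j) ψ(n) w^j u^n = 0` for all polynomials `φ, ψ` with `deg φ + deg ψ < m`
(Tate.S_SPN, proved: `Tate.all_SPN`; compare Helper35/T1/CLU.lean, where the same is done for `w = u^(-e)`);
so they depend only on the filtration of the polynomials in `(j, n)` by the total degree, which is
preserved by `(j, n) ↦ (j, n - e j)`, and `w^j u^n = (w u^e)^j u^(n - e j)`. -/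
def S_SHR : Prop := ∀ (b : ℕ) (M : Fin b → ℕ) (u w : Fin b → ℚ) (e : ℤ) (S : Finset (ℕ × ℤ)),
  (∀ i, 0 < u i) → (∀ i, 0 < w i) →
  IndepC M u w (S.image fun q => (q.1, q.2 - e * q.1)) →
  IndepC M u (fun i => w i * u i ^ (-e)) S

/-- CELL (1.5 h, hypothesis SHR). One cell.
PROOF. `β = T/a`, `α = T/b`, `t = d/k`, `ρ = e - α ≥ 0`, `E = α + β`, `ρ + E = e + β`. The set of all the
`(j, n)` with InW is finite; let `S'` be its image under `(j, n) ↦ (j, n - e j)`. For a point `(j, X)` of `S'`,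
`X' = X + e t`, `v = t - j`: `ρ v < X' < (ρ + E) v`, or `v = 0`, `X' = 0`. The number of the rows `X` with at least
`s + 1` points is at most `⌈(ρ + E) t - s (ρ + E)²/E⌉⁺` (count as in Helper35/T1/CNT.lean, Helper35/All/CNE.lean:
for `s ≥ 1` the `X'` lie in the open interval from `s ρ (ρ+E)/E` to `(ρ+E)(t - s)`; for `s = 0` in
`[0, (ρ+E) t)`), `≤ ⌈V - s W/H⌉⁺ ≤ lam s` (if `lam s < V - s W/H` then the hypothesis with `a' = lam s` gives
`lam s < lam s`; compare LIN.linE). Let `m' i = m i` for `i ∈ A`, `0` otherwise: `Dg m' A lam` (induction on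
Dg), so `FIN.emp m' A lam` gives `u, w` with IndepC on `S'`; SHR. Subsets: IndepC passes to subsets. -/
def S_CELL : Prop := ∀ (n : ℕ) (m : Fin n → ℕ) (A : Finset (Fin n)) (lam : ℕ → ℕ) (H W V : ℝ)
  (k d a b T : ℕ) (e : ℤ), Dg m A lam → 0 < H → 0 < W →
  (∀ s a' : ℕ, (a' : ℝ) * H + W * s < V * H → a' < lam s) →
  1 ≤ k → 1 ≤ d → 0 < a → 0 < b → 0 < T →
  ((e : ℝ) + (T : ℝ) / a) * ((d : ℝ) / k) ≤ V → (T : ℝ) / b ≤ e →
  W / H * ((T : ℝ) / a + (T : ℝ) / b) ≤ ((e : ℝ) + (T : ℝ) / a) ^ 2 →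
  ∃ u w : Fin n → ℚ, (∀ i, 0 < u i) ∧ (∀ i, 0 < w i) ∧
    ∀ S : Finset (ℕ × ℤ), (∀ q ∈ S, InW k d a b T q.1 q.2) →
      IndepC (fun i => if i ∈ A then m i else 0) u w S

/-- RAT (1 h). Rational slopes.
PROOF. `β_0 = V/t - e > 0`, `α_0 = e - (V/t - E) > 0` (per `l`), `α_0 + β_0 = E`, `α_0 ≤ e` (as `E t ≤ V`),
`R E ≤ (e + β_0)²`. Choose rationals `0 < β < β_0`, `0 < α < α_0`, `α ≠ β`, with `∑ (α + β) > k²` and
`R (α + β) ≤ (e + β)²`: take `β = β_0 - ε'` with `ε'` very small and then `α ≤ α_0 - ε''` with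
`R ε'' ≥ 2 (e + β_0) ε'`, `ε''` small. Then `L` = a common multiple such that `a_l = α_l L/(α_l + β_l)` and
`T_l = β_l a_l = α_l (L - a_l)` are integers. -/
def S_RAT : Prop := ∀ (c k d : ℕ) (V R E : Fin c → ℝ) (e : Fin c → ℤ), 1 ≤ k → 1 ≤ d →
  (∀ l, 0 < R l ∧ E l * ((d : ℝ) / k) ≤ V l ∧ R l * E l * ((d : ℝ) / k) ^ 2 ≤ V l ^ 2 ∧
    V l / ((d : ℝ) / k) - E l < e l ∧ (e l : ℝ) < V l / ((d : ℝ) / k)) →
  ((k : ℝ) ^ 2 < ∑ l, E l) →
  ∃ (L : ℕ) (a T : Fin c → ℕ), (∀ l, 0 < a l ∧ a l < L ∧ 2 * a l ≠ L ∧ 0 < T l) ∧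
    ((k : ℝ) ^ 2 < ∑ l, ((T l : ℝ) / a l + (T l : ℝ) / ((L - a l : ℕ) : ℝ))) ∧
    ∀ l, ((e l : ℝ) + (T l : ℝ) / a l) * ((d : ℝ) / k) ≤ V l ∧
      (T l : ℝ) / ((L - a l : ℕ) : ℝ) ≤ e l ∧
      R l * ((T l : ℝ) / a l + (T l : ℝ) / ((L - a l : ℕ) : ℝ)) ≤ ((e l : ℝ) + (T l : ℝ) / a l) ^ 2

/-- EMPT (helper1; hypotheses MAINT, CELL, RAT). -/
def S_EMPT : Prop := ∀ (k c d n : ℕ) (m : Fin n → ℕ) (A : Fin c → Finset (Fin n))
  (lam : Fin c → ℕ → ℕ) (H W V E : Fin c → ℝ) (e : Fin c → ℤ), 3 ≤ k → 2 * c ≤ (k - 1) * (k - 2) →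
  1 ≤ d → (∀ l l', l ≠ l' → Disjoint (A l) (A l')) → (∀ l, Dg m (A l) (lam l) ∧ 0 < H l ∧ 0 < W l) →
  (∀ (l : Fin c) (s a' : ℕ), (a' : ℝ) * H l + W l * s < V l * H l → a' < lam l s) →
  (∀ l, E l * ((d : ℝ) / k) ≤ V l ∧ W l / H l * E l * ((d : ℝ) / k) ^ 2 ≤ V l ^ 2 ∧
    V l / ((d : ℝ) / k) - E l < e l ∧ (e l : ℝ) < V l / ((d : ℝ) / k)) →
  ((k : ℝ) ^ 2 < ∑ l, E l) →
  ∃ (K : Type) (_ : Field K) (_ : CharZero K) (P : Fin n → Fin 3 → K),
    finrank K (Fm K d ⊓ ⨅ l, Van (P l) (m l) : Submodule K (MvPolynomial (Fin 3) K)) = 0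

/-! ### The class is nef -/

/-- NEFA (1 h). The analysis.
PROOF. `Y = ∑ X l > D d`. Choose `p ≥ 1` with `p (Y - D d) ≥ D C0 + 1`, then `s` large. `t = d'/k`,
`V l = s W_l + p X_l/H_l`, `E l = V l² H_l/(W_l t²)`. (i) `∑ E l t² = ∑ (s² W_l H_l + 2 s p X_l +
p² X_l²/(W_l H_l)) ≥ s² D² + 2 s p Y`, and `k² t² = d'² ≤ (s D + C0 + p d)² = s² D² + 2 s D (C0 + p d) +
(C0 + p d)²`; the difference is at least `2 s (p Y - p D d - D C0) - (C0 + p d)² ≥ 2 s - (C0 + p d)² > 0`.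
(ii) `E l t ≤ V l` iff `V l ≤ (W_l/H_l) t`: true for `s` large because `k H_l < D`. (iii) `V l/t → k W_l/D`,
`E l → k² W_l H_l/D²`, so the two strict inequalities for `e l` hold for `s` large. Everything uniformly in
`d'`, `s D ≤ d' ≤ s D + C0 + p d` (put `δ = d'/s - D`, `0 ≤ δ ≤ (C0 + p d)/s`, and use limits for `1/s → 0`, or
explicit bounds). -/
def S_NEFA : Prop := ∀ (c k d : ℕ) (W H X : Fin c → ℝ) (e : Fin c → ℤ) (D C0 : ℝ), 1 ≤ k →
  (∀ l, 0 < W l ∧ 0 < H l ∧ 0 ≤ X l) → 0 < D → D ^ 2 = ∑ l, W l * H l → (∀ l, k * H l < D) →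
  (∀ l, k * W l * (D - k * H l) < e l * D ^ 2 ∧ e l * D < k * W l) → D * d < ∑ l, X l → 0 ≤ C0 →
  ∃ p s : ℕ, 1 ≤ p ∧ 1 ≤ s ∧ ∀ d' : ℕ, s * D ≤ d' → (d' : ℝ) ≤ s * D + C0 + p * d →
    1 ≤ d' ∧
    ((k : ℝ) ^ 2 < ∑ l, (s * W l + p * X l / H l) ^ 2 * H l / (W l * ((d' : ℝ) / k) ^ 2)) ∧
    ∀ l, (s * W l + p * X l / H l) ^ 2 * H l / (W l * ((d' : ℝ) / k) ^ 2) * ((d' : ℝ) / k) ≤
        s * W l + p * X l / H l ∧
      (s * W l + p * X l / H l) / ((d' : ℝ) / k) -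
        (s * W l + p * X l / H l) ^ 2 * H l / (W l * ((d' : ℝ) / k) ^ 2) < e l ∧
      (e l : ℝ) < (s * W l + p * X l / H l) / ((d' : ℝ) / k)

/-- BIG (0.7 h). A form of large degree through the points.
PROOF. The conditions of multiplicity `μ i` at `P i ≠ 0` on the forms of degree `δ` are
`∑ C(μ i + 1, 2)` linear conditions; the codimension of `(ideal of P i)^μ` in degree `δ` is at most
`C(μ+1, 2)`. There is a lower bound of this kind in the files of the project (Helper1/All/Final.lean,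
`upgrade`, and what it uses), state the result in this form. -/
def S_BIG : Prop := ∀ (n δ : ℕ) (μ : Fin n → ℕ) (P : Fin n → Fin 3 → ℂ), (∀ i, P i ≠ 0) →
  ∑ i, μ i * (μ i + 1) < (δ + 1) * (δ + 2) →
  ∃ G : MvPolynomial (Fin 3) ℂ, G ≠ 0 ∧ G.IsHomogeneous δ ∧
    ∀ i, G ∈ (Ideal.span {g : MvPolynomial (Fin 3) ℂ |
      g.IsHomogeneous 1 ∧ MvPolynomial.eval (P i) g = 0}) ^ (μ i)

/-- AREA (0.3 h). PROOF. Induction on the cut. -/
def S_AREA : Prop := ∀ (n : ℕ) (μ : Fin n → ℝ) (W H : ℝ) (A : Finset (Fin n)), Cut μ μ W H A →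
  0 < W ∧ 0 < H ∧ (∀ i ∈ A, 0 < μ i) ∧ ∑ i ∈ A, μ i ^ 2 = W * H

/-- NEF (helper1; hypotheses EMPT, NEFA, BIG, AREA). -/
def S_NEF : Prop := ∀ n : ℕ, ∃ 𝒢 : Set (MvPolynomial (Fin n × Fin 3) ℂ), 𝒢.Countable ∧ (0 ∉ 𝒢) ∧
  ∀ P : Fin n → Fin 3 → ℂ, (∀ i, P i ≠ 0) →
    (∀ G ∈ 𝒢, MvPolynomial.eval (fun ij : Fin n × Fin 3 => P ij.1 ij.2) G ≠ 0) →
    ∀ (k c : ℕ) (μ : Fin n → ℝ) (W H : Fin c → ℝ) (A : Fin c → Finset (Fin n)) (e : Fin c → ℤ)
      (D : ℝ), 3 ≤ k → 2 * c ≤ (k - 1) * (k - 2) → (∀ l l', l ≠ l' → Disjoint (A l) (A l')) →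
    (∀ l, Cut μ μ (W l) (H l) (A l)) → 0 < D → D ^ 2 = ∑ l, W l * H l → (∀ l, k * H l < D) →
    (∀ l, k * W l * (D - k * H l) < e l * D ^ 2 ∧ e l * D < k * W l) →
    ∀ (d : ℕ) (m : Fin n → ℕ) (f : MvPolynomial (Fin 3) ℂ), f.IsHomogeneous d → f ≠ 0 →
      (∀ i, f ∈ (Ideal.span {g : MvPolynomial (Fin 3) ℂ |
        g.IsHomogeneous 1 ∧ MvPolynomial.eval (P i) g = 0}) ^ (m i)) →
      ∑ l, ∑ i ∈ A l, μ i * m i ≤ D * d

end Pool.Agent.Helper1.T1
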