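import Pool.Agent.Helper1.T1.Goals3
import Pool.Agent.Helper35.All.GU

/-!
PROJECT T1, THE REGULAR SIDE FOR SEVERAL CELLS (helper1).

THEOREM (RT1). Let `k ≥ 3`, `2 c ≤ (k - 1)(k - 2)`, let the rectangles `W_l × H_l`, `l < c`, be cut into rectangles
`w_i × h_i` (all the points), `m_i + 1 ≤ min w_i h_i`, `Q = d + 3`, `V_l ≥ W_l`, `∑ V_l H_l < Q²`, `k H_l < Q`, and let
`e_l` be an integer strictly between `y (1 - x)` and `y`, `y = k V_l/Q`, `x = k H_l/Q`. Then `L(d; m)` with general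
points has the virtual dimension. (Kawamata-Viehweg would give this from the nef theorem; here is a direct
proof, sharp: `Q = d + 3`.)

PROOF. All the `g = (k - 1)(k - 2)/2` nodes are used (the nodes `l ≥ c` with very small slopes and no
points). `t' = (d + 3 - k)/k`, `e_j = d - k j`. Levels `j` with `e_j ≥ k - 2`, i.e. `t' - j ≥ 1/k`: there
`dim = ν_j = k e_j + 1 - g` (NFC) and the number of the lattice points of level `j` in all the open wedges of
height `t'` (InR) is `∑ (⌈β τ⌉ + ⌈α τ⌉ - 1) < k² τ + g`, `τ = t' - j`, so at most `k (e_j + 3 - k) + g - 1 = ν_j`.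
These positions `(l, n)` can be completed to a set `Z` of `ν_j` positions such that a section of level `j` whose
edge coefficients at `Z` vanish is zero (ISO; the number of zeros would be `ν_j + g = k e_j + 1`). Choose
subsets `S_l` of the wedges with `∑_(A_l) C(m_i + 1, 2)` points on which the conditions are independent
(REGC), and let `V'` be the space of all `(v_j)` whose Laurent coefficients at the positions of `Z` outside the
`S_l` vanish: `dim V' ≥ ∑ |S_l|`. POTR: a nonzero `v ∈ V'` is not in KerV, by the potential argument of POT with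
`t'` instead of `t`. So the rank of the conditions is at least their number.
-/

set_option autoImplicit false

noncomputable section

namespace Pool.Agent.Helper1.T1

open Module Pool.Agent.Helper97 Pool.Agent.Helper97.Nag Pool.Agent.Helper98.UN Pool.Agent.Helper1.All

open Pool.Agent.Helper97.Tate (OO KK SS cf iO evx evK Van Fm)

/-- the open wedge of height `t' = (d + 3 - k)/k` -/
def InR (k d a b T j : ℕ) (n : ℤ) : Prop :=
  k * j + k ≤ d + 2 ∧ (k : ℤ) * a * n < T * ((d : ℤ) + 3 - k - k * j) ∧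
    -((k : ℤ) * b * n) < T * ((d : ℤ) + 3 - k - k * j)

/-- the edge coefficient at `T^n` -/
def ec {F : Type} [Field F] (a a' : ℕ) (f : SS F) (n : ℤ) : F :=
  if 0 ≤ n then cf f ((a : ℤ) * n) n else cf f (-((a' : ℤ) * n)) n

/-- NFC (0.4 h). PROOF. `(nf k e).card = ∑_(p < k) (e + 1 - p)` for `k ≤ e + 2`. -/
def S_NFC : Prop := ∀ k e : ℕ, 1 ≤ k → k ≤ e + 2 →
  2 * (nf k e).card + (k - 1) * (k - 2) = 2 * (k * e + 1)

/-- NFS (0.6 h). PROOF. `(e + 2).choose 2 = #{(p, r) : p + r ≤ e}`; those with `p ≥ k` are in bijection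
with the pairs for `e - k`. Induction on `d` (step `k`), or the bijection `(j, p, r) ↦ (p + k j, r)`. -/
def S_NFS : Prop := ∀ k d : ℕ, 1 ≤ k →
  ∑ j ∈ Finset.range (d / k + 1), (nf k (d - k * j)).card = (d + 2).choose 2

/-- ISO (1.5 h, hypothesis NFC). Completion of the wedges to a basis.
PROOF. `f = d + 3 - k - k j ≥ 1`, `e = d - k j ≥ k - 2`, `g = c`. `A l = ⌈T_l f/(k (L - a_l))⌉ ≥ 1`,
`B l = ⌈T_l f/(k a_l)⌉ ≥ 1`. The `n` with InR are the `-(A l) < n < B l`. `A l + B l < f/k (T_l/a_l +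
T_l/(L - a_l)) + 2`, so `∑ (A l + B l - 1) < k f + c` (`c ≥ 1`), `∑ (A l + B l - 1) ≤ k f + c - 1 = k e + 1 - g =
(nf k e).card =: ν` (NFC; `3 k - k² = 2 - 2 g`). Increase one of the `B l` by `ν - ∑ (A l + B l - 1)`. Now
`Z = {(l, n) : -(A l) < n < B l}` has `ν` elements, `∑ (A l + B l) = ν + c = k e + 1 > k e`, and
`p = ∑_r v_r x^(nfi r).1 y^(nfi r).2` is a normal form of degree `≤ e`; if its edge coefficients at `Z`
vanish then `p = 0` by `cnt`, so `v = 0` (compare Helper30/T1/BEZ.lean). -/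
def S_ISO : Prop := ∀ (F : Type) [Field F] (k L c d : ℕ) (a T : Fin c → ℕ) (x y : Fin c → SS F),
  3 ≤ k → IsAnn k L a x y → 2 * c = (k - 1) * (k - 2) → (∀ l, 0 < T l) →
  ((∑ l, ((T l : ℝ) / a l + (T l : ℝ) / ((L - a l : ℕ) : ℝ))) ≤ (k : ℝ) ^ 2) →
  ∀ j, k * j + k ≤ d + 2 → ∃ Z : Finset (Fin c × ℤ),
    (∀ (l : Fin c) (n : ℤ), InR k d (a l) (L - a l) (T l) j n → (l, n) ∈ Z) ∧
    Z.card = (nf k (d - k * j)).card ∧
    ∀ v : Fin (nf k (d - k * j)).card → F,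
      (∀ p ∈ Z, ∑ r : Fin (nf k (d - k * j)).card, v r * ec (a p.1) (L - a p.1)
        (x p.1 ^ (nfi k (d - k * j) r).1 * y p.1 ^ (nfi k (d - k * j) r).2) p.2 = 0) → v = 0

/-- POTR (2 h; helper79). THE POTENTIAL LEMMA, regular side (adapt Helper79/T1/POT.lean).
PROOF. `Z_j` as in the hypothesis, `S_j = {(l, n) : (j, n) ∈ S l} ⊆ Z_j`. `V'` = the `v` in the space of KerV with
`v_j = 0` if `k j + k > d + 2`, and, if `k j + k ≤ d + 2`, for all `(l, n) ∈ Z_j ∖ S_j`: all the coefficients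
of `T^n` in `f_(l,j) = ∑_r v_(j,r) B_(l,j,r)` vanish (the series `ser f n ∈ OO F`, linear over `KK F` in `v`: one
linear equation). So `dim V' ≥ ∑_j ν_j - ∑_(bad j) ν_j - ∑_(good j) (ν_j - |S_j|) = ∑_l |S l|`. Claim:
`KerV ∩ V' = 0`; then `dim KerV + dim V' ≤ ∑ ν_j`. Let `0 ≠ v` in the intersection, `v_(j,r) ∈ OO F` after
multiplication by a power of `q`. `δ_l` = the least `N + j T_l` over the monomials `q^N T^n` of the
`f_(l,j)`, `t' = (d + 3 - k)/k`, `l` with `δ_l - t' T_l` minimal, `(j, N, n)` a monomial with `N + j T_l = δ_l`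
(so `v_j ≠ 0`, `j` good), `c_j` the order of `v_j`, `v_j = q^(c_j) v'`. If `(j, n)` is not in InR of `l`, say
`k a_l n ≥ T_l f`, `f/k = t' - j`, then `N ≥ c_j + a_l n` so `c_j ≤ δ_l - t' T_l`, hence for all `l'` all the monomials
of `∑_r v'_r B_(l',j,r)` have `N' ≥ T_l' (t' - j)`, so the edge coefficients of `v'(0)` at InR vanish; those at
`Z_j` outside the `S l` vanish too; so `v'(0) = 0` by hypothesis, contradiction. So the leading coefficients
of `l` are a nonzero relation supported on InR, and on `S l` because `Z_j ∖ S_j` is excluded, for the points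
of the group `l`, against IndepC. -/
def S_POTR : Prop := ∀ (F : Type) [Field F] [CharZero F] (b c k d : ℕ) (M : Fin b → ℕ)
  (g : Fin b → Fin c) (u w : Fin b → ℚ) (ux : Fin b → Fˣ) (a a' T : Fin c → ℕ) (ν : ℕ → ℕ)
  (B : Fin c → ℕ → ℕ → SS F) (S : Fin c → Finset (ℕ × ℤ)), 3 ≤ k → 0 < c → (∀ i, 0 < u i) →
  (∀ i, 0 < w i) → (∀ i, ((ux i : Fˣ) : F) = (u i : F)) → (∀ l, 0 < a l ∧ 0 < a' l ∧ 0 < T l) →
  (∀ (l : Fin c) (j r : ℕ), r < ν j → ∀ N n : ℤ, cf (B l j r) N n ≠ 0 →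
    (a l : ℤ) * n ≤ N ∧ -((a' l : ℤ) * n) ≤ N) →
  (∀ j, k * j + k ≤ d + 2 → ∃ Z : Finset (Fin c × ℤ),
    (∀ (l : Fin c) (n : ℤ), InR k d (a l) (a' l) (T l) j n → (l, n) ∈ Z) ∧ Z.card = ν j ∧
    ∀ v : Fin (ν j) → F, (∀ p ∈ Z, ∑ r : Fin (ν j), v r * ec (a p.1) (a' p.1) (B p.1 j r) p.2 = 0) →
      v = 0) →
  (∀ l, ∀ s ∈ S l, InR k d (a l) (a' l) (T l) s.1 s.2) →
  (∀ l, IndepC (fun i => if g i = l then M i else 0) u w (S l)) →
  finrank (KK F) (KerV M (d / k + 1) ν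
    (fun i => algebraMap (OO F) (KK F) (PowerSeries.C ((w i : ℚ) : F) * PowerSeries.X ^ T (g i)))
    (fun i j r => evK (ux i) (B (g i) j r))) + ∑ l, (S l).card ≤
      ∑ j ∈ Finset.range (d / k + 1), ν j

/-- MAINR (helper1). -/
def S_MAINR : Prop := ∀ (k L c d n : ℕ) (m : Fin n → ℕ) (g : Fin n → Fin c) (u w : Fin n → ℚ)
  (a T : Fin c → ℕ) (S : Fin c → Finset (ℕ × ℤ)), 3 ≤ k → 2 * c = (k - 1) * (k - 2) →
  (∀ i, 0 < u i) → (∀ i, 0 < w i) → (∀ l, 0 < a l ∧ a l < L ∧ 2 * a l ≠ L ∧ 0 < T l) →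
  ((∑ l, ((T l : ℝ) / a l + (T l : ℝ) / ((L - a l : ℕ) : ℝ))) ≤ (k : ℝ) ^ 2) →
  (∀ l, ∀ s ∈ S l, InR k d (a l) (L - a l) (T l) s.1 s.2) →
  (∀ l, IndepC (fun i => if g i = l then m i else 0) u w (S l)) →
  ∃ (K : Type) (_ : Field K) (_ : CharZero K) (P : Fin n → Fin 3 → K),
    finrank K (Fm K d ⊓ ⨅ l, Van (P l) (m l) : Submodule K (MvPolynomial (Fin 3) K)) +
      ∑ l, (S l).card ≤ (d + 2).choose 2

/-- REGC (1.5 h; helper35; hypothesis AFF). One cell, regular side.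
PROOF. `β = T/a`, `α = T/b < q`, `t' = (d + 3 - k)/k`, `E = α + β`. `S₀` = all the `(j, n)` with InR: `j < t'`,
`-α (t' - j) < n < β (t' - j)`. On the line `X = q j - n`: the `j ≥ 0` with `j < J = (X + β t')/(q + β)` and
`j > I = (X - α t')/(q - α)`. If `X < α t'` (`I < 0`) there are at least `s` of them iff `J > s - 1`, i.e.
`X > (s - 1)(q + β) - β t'`. If `X ≥ α t'` (`I ≥ 0`) there are at least `s` if `J - I > s`, i.e.
`X < q t' - s (q - α)(q + β)/E`. So all the integers `X` of the open interval between these two numbers have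
at least `s` points; its length is `ℓ(s) = (q + β)(d + 3)/k - s (q + β)²/E`, so there are at least `N` such `X` for
every natural `N < ℓ(s)`. If `lam s > 0` then by PackD (`a = lam s - 1`) `lam s * H + (s + 1) W ≤ W H`, so
`s + 1 < H` and `lam s ≤ W (1 - (s + 1)/H) ≤ V (1 - (s + 1)/H) < ℓ(s + 1)`, because `ℓ` is linear,
`ℓ(0) = (q + β)(d + 3)/k > V` and `ℓ(H) > 0`. So `lam s ≤ nr S₀' (s + 1)`, `S₀'` = the image of `S₀` under
`(j, n) ↦ (j, q j - n)`. As in FIN.reg (choose, size) and Helper35/T1/CELL.lean (points outside `A` have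
multiplicity `0`) there is a subset of `S₀'` with `∑ C(m_i + 1, 2)` points and IndepC; AFF with `p = 1`. -/
def S_REGC : Prop := ∀ (n : ℕ) (m : Fin n → ℕ) (A : Finset (Fin n)) (lam : ℕ → ℕ) (H W V : ℝ)
  (k d a b T q : ℕ), Dg m A lam → Pool.Agent.Helper35.All.GU.PackD W H lam → 0 < H → 0 < W →
  W ≤ V → 1 ≤ k → 0 < a → 0 < b → 0 < T → (T : ℝ) / b < q →
  V < ((q : ℝ) + (T : ℝ) / a) * (((d : ℝ) + 3) / k) →
  H * ((q : ℝ) + (T : ℝ) / a) < ((T : ℝ) / a + (T : ℝ) / b) * (((d : ℝ) + 3) / k) →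
  ∃ (u w : Fin n → ℚ) (S : Finset (ℕ × ℤ)), (∀ i, 0 < u i) ∧ (∀ i, 0 < w i) ∧
    (∀ s ∈ S, InR k d a b T s.1 s.2) ∧ S.card = ∑ i ∈ A, (m i + 1).choose 2 ∧
    IndepC (fun i => if i ∈ A then m i else 0) u w S

/-- SLOPR (1 h). The slopes. `G` = the number of the nodes without points.
PROOF. `Q = d + 3`, `y = k V/Q`, `x = k H/Q < 1`, `β_0 = y - e > 0`, `α_0 = e - y (1 - x) > 0`, `α_0 < e`;
`∑ (α_0 + β_0) = ∑ x y < k²`. Rational `β > β_0`, `α_0 < α < e`, `α ≠ β`, close to `β_0`, `α_0`, and very small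
rational slopes `α' ≠ β'` for the other nodes, such that the sum is `≤ k²`. `V < (e + β) Q/k`, and
`x (e + β) = x y + x (β - β_0) < x y + (β - β_0) = α_0 + β < α + β`. Then `L, a, T` as in
Helper1/T1/EMPT2L.lean, `lat` (apply it to `Fin (c + 1)`). -/
def S_SLOPR : Prop := ∀ (c k d G : ℕ) (V H : Fin c → ℝ) (e : Fin c → ℕ), 1 ≤ k →
  (∀ l, 0 < V l ∧ 0 < H l ∧ k * H l < d + 3 ∧
    k * V l * ((d : ℝ) + 3 - k * H l) < e l * ((d : ℝ) + 3) ^ 2 ∧ e l * ((d : ℝ) + 3) < k * V l) →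
  ∑ l, V l * H l < ((d : ℝ) + 3) ^ 2 →
  ∃ (L a₀ T₀ : ℕ) (a T : Fin c → ℕ), (0 < a₀ ∧ a₀ < L ∧ 2 * a₀ ≠ L ∧ 0 < T₀) ∧
    (∀ l, 0 < a l ∧ a l < L ∧ 2 * a l ≠ L ∧ 0 < T l) ∧
    (∑ l, ((T l : ℝ) / a l + (T l : ℝ) / ((L - a l : ℕ) : ℝ)) +
      G * ((T₀ : ℝ) / a₀ + (T₀ : ℝ) / ((L - a₀ : ℕ) : ℝ)) ≤ (k : ℝ) ^ 2) ∧
    ∀ l, (T l : ℝ) / ((L - a l : ℕ) : ℝ) < e l ∧
      V l < ((e l : ℝ) + (T l : ℝ) / a l) * (((d : ℝ) + 3) / k) ∧
      H l * ((e l : ℝ) + (T l : ℝ) / a l) <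
        ((T l : ℝ) / a l + (T l : ℝ) / ((L - a l : ℕ) : ℝ)) * (((d : ℝ) + 3) / k)

end Pool.Agent.Helper1.T1
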