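import Pool.Agent.Helper1.T1.Goals3
import Pool.Agent.Helper1.T1.MAINT

/-!
PROJECT T1: MAINE (helper1).
-/

set_option autoImplicit false

noncomputable section

namespace Pool.Agent.Helper1.T1.MAINE

open Module Pool.Agent.Helper97 Pool.Agent.Helper97.Nag Pool.Agent.Helper98.UN Pool.Agent.Helper1.All
  Pool.Agent.Helper1.T1 Pool.Agent.Helper1.T1.MAINT

open Pool.Agent.Helper97.Tate (OO KK SS cf iO evx evK Van Fm)

theorem ann (hR : S_RHO) (hP : S_PHIE) (hZ : S_CNTZ) (hN : S_NOD) (k L c : ℕ) (a : Fin c → ℕ)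
    (hk : 3 ≤ k) (hc : 2 * c ≤ (k - 1) * (k - 2)) (ha : ∀ l, 0 < a l ∧ a l < L) :
    ∃ x y : Fin c → SS ℂ, IsAnnE k L a x y := by
  obtain ⟨ρ, hρ⟩ := hR ℂ k hk
  obtain ⟨ζ, hζ, hsep⟩ := hN k c hk hc
  have h1 := fun l : Fin c => hP ℂ k (ζ l) ρ (a l) L hk (hζ l) hρ (ha l).1 (ha l).2
  choose x y hrel hder hsup hE1 hE2 using h1
  refine ⟨x, y, ⟨ha, hrel, fun l hl u => hder l u (Or.inl hl), hsup, ?_⟩, hder⟩
  intro e p A B hp hp0 hA hB
  refine hZ ℂ k e c ζ (fun l => PowerSeries.rescale ((ζ l : ℂ) ^ (k * (k - 1))) ρ) (fun _ => ρ) A B p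
    hk hζ hsep ?_ (fun _ => ⟨hρ.1, hρ.2.1⟩) hp hp0 ?_ ?_
  · intro l
    refine ⟨?_, ?_⟩
    · rw [← PowerSeries.coeff_zero_eq_constantCoeff_apply, PowerSeries.coeff_rescale, pow_zero,
        one_mul, PowerSeries.coeff_zero_eq_constantCoeff_apply, hρ.1]
    · rw [PowerSeries.coeff_rescale, pow_one]
      exact mul_ne_zero (pow_ne_zero _ (ζ l).ne_zero) hρ.2.1
  · intro l n hn
    rw [← hE2 l p n]
    exact hA l n hn
  · intro l n hn
    rw [← hE1 l p n]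
    exact hB l n hn

theorem t (hR : S_RHO) (hPh : S_PHIE) (hZ : S_CNTZ) (hN : S_NOD) (hC : S_CRVT) (hL : S_LEVT)
    (hP : S_POT) (hB : S_BEZE) (hM : S_MIKV) (hE : Tate.S_EVC) : S_MAINE := by
  intro k L c d n m g u w a T hk hc hc0 hu hw ha hu1 hsum hint hcell
  obtain ⟨x, y, hxyE⟩ := ann hR hPh hZ hN k L c a hk hc (fun l => ⟨(ha l).1, (ha l).2.1⟩)
  have hxy := hxyE.1
  have : CharZero (KK ℂ) := Tate.charZero_KK ℂ
  have : Infinite (KK ℂ) := Infinite.of_injective _ (Nat.cast_injective (R := KK ℂ))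
  obtain ⟨G, hG1, hG2, hG3⟩ := hC (KK ℂ) k
    (algebraMap (OO ℂ) (KK ℂ) (PowerSeries.X ^ L)) hk
  have hux : ∀ i : Fin n, ((u i : ℚ) : ℂ) ≠ 0 := by
    intro i
    exact_mod_cast (hu i).ne'
  set ux : Fin n → ℂˣ := fun i => Units.mk0 ((u i : ℚ) : ℂ) (hux i) with huxd
  have hux4 : ∀ i, ux i ^ 4 ≠ 1 := by
    intro i h4
    have h5 : (((u i : ℚ) : ℂ)) ^ 4 = 1 := by
      have := congrArg (fun z : ℂˣ => (z : ℂ)) h4
      simpa [huxd] using this
    have h6 : (u i) ^ 4 = 1 := by exact_mod_cast h5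
    exact hu1 i ((pow_eq_one_iff_of_nonneg (hu i).le (by norm_num)).1 h6)
  set h : Fin n → Fin 3 → PowerSeries (KK ℂ) :=
    fun i => ![evK (ux i) (x (g i)), evK (ux i) (y (g i)), 1] with hh
  have hG0 : G ≠ 0 := by
    rintro rfl
    rw [MvPolynomial.coeff_zero] at hG2
    exact zero_ne_one hG2
  have hX : ∀ v : ℂˣ, evK v ((PowerSeries.X : SS ℂ) ^ L) =
      PowerSeries.C (algebraMap (OO ℂ) (KK ℂ) (PowerSeries.X ^ L)) := by
    intro v
    have h1 := (hE ℂ v 0 0 0).2.2 (PowerSeries.X ^ L)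
    rw [← h1]
    congr 1
    unfold Pool.Agent.Helper97.Tate.iO
    rw [map_pow, PowerSeries.map_X]
  have hgh : ∀ i, MvPolynomial.aeval (h i) G = 0 := by
    intro i
    rw [hh]
    simp only
    rw [(hG3 (PowerSeries (KK ℂ)) _ _).1, ← hom_dickson (evK (ux i)), ← hom_dickson (evK (ux i)),
      ← map_sub, hxy.rel (g i), hX]
    exact sub_self _
  have hdh : ∀ i, PowerSeries.constantCoeff
      (MvPolynomial.aeval (h i) (MvPolynomial.pderiv 0 G)) ≠ 0 := by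
    intro i
    rw [hh]
    simp only
    rw [(hG3 (PowerSeries (KK ℂ)) _ _).2, ← hom_dickson' (evK (ux i))]
    exact hxyE.2 (g i) (ux i) (Or.inr (hux4 i))
  have hLH := hL (KK ℂ) k d n G h (by omega) hG1 hG2 hgh (fun i => rfl)
  obtain ⟨P', hP'⟩ := hM (KK ℂ) (Fin 0) G (fun i : Fin 0 => (i.elim0 : Fin 3 → KK ℂ))
    (fun i => i.elim0) d k n m (fun j => (nf k (d - k * j)).card) h
    (fun i => PowerSeries.C (algebraMap (OO ℂ) (KK ℂ)
      (PowerSeries.C ((w i : ℚ) : ℂ) * PowerSeries.X ^ T (g i))) *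
      (MvPolynomial.aeval (h i) (MvPolynomial.pderiv 0 G))⁻¹)
    (fun _ => 1) (fun _ => 1)
    (fun i => algebraMap (OO ℂ) (KK ℂ) (PowerSeries.C ((w i : ℚ) : ℂ) * PowerSeries.X ^ T (g i)))
    (fun i j r => h i 0 ^ (nfi k (d - k * j) r).1 * h i 1 ^ (nfi k (d - k * j) r).2)
    (by omega) hG0 hG1 (fun i => i.elim0) hgh
    (by
      intro i
      rw [mul_left_comm, PowerSeries.mul_inv_cancel _ (hdh i)])
    (by
      intro i
      rw [map_one]
      exact one_ne_zero)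
    hLH
  have hPe : (Fm (KK ℂ) d ⊓ (⨅ i : Fin 0, Van (i.elim0 : Fin 3 → KK ℂ) (i.elim0)) ⊓
      ⨅ l, Van (P' l) (m l) : Submodule (KK ℂ) (MvPolynomial (Fin 3) (KK ℂ))) =
      Fm (KK ℂ) d ⊓ ⨅ l, Van (P' l) (m l) := by
    rw [iInf_of_empty, inf_top_eq]
  refine ⟨KK ℂ, inferInstance, inferInstance, P', ?_⟩
  rw [hPe] at hP'
  have hK := hP ℂ n c k d m g u w ux a (fun l => L - a l) T (fun j => (nf k (d - k * j)).card)
    (fun l j r => x l ^ (nfi k (d - k * j) r).1 * y l ^ (nfi k (d - k * j) r).2)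
    (by omega) hc0 hu hw (fun i => rfl)
    (fun l => ⟨(ha l).1, by have := (ha l).2.1; omega, (ha l).2.2⟩)
    (by
      intro l j r _ N n' hN
      rw [← Ph_mono] at hN
      exact hxy.sup l _ N n' hN)
    (hB ℂ k L c d a T x y (by omega) hxy hsum hint)
    (by
      intro j hj
      have h0 : d - k * j = 0 := by omega
      rw [h0]
      refine ⟨by rw [nf_zero (by omega)]; rfl, ?_⟩
      intro l
      rw [nfi_zero (by omega), pow_zero, pow_zero, one_mul])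
    hcell
  have hS : (fun (i : Fin n) (j r : ℕ) => h i 0 ^ (nfi k (d - k * j) r).1 *
      h i 1 ^ (nfi k (d - k * j) r).2) =
      fun i j r => evK (ux i) (x (g i) ^ (nfi k (d - k * j) r).1 *
        y (g i) ^ (nfi k (d - k * j) r).2) := by
    funext i j r
    rw [map_mul, map_pow, map_pow]
    rfl
  rw [hS, hK, finrank_bot] at hP'
  exact Nat.le_zero.1 hP'

end Pool.Agent.Helper1.T1.MAINE
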