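import Pool.Agent.Helper1.T1.Goals2
import Pool.Agent.Helper1.T1.NEF

/-!
PROJECT T1: NEF2 (helper1).
-/

set_option autoImplicit false

noncomputable section

namespace Pool.Agent.Helper1.T1.NEF2

open Module Pool.Agent.Helper97 Pool.Agent.Helper97.Nag Pool.Agent.Helper98.UN Pool.Agent.Helper1.All
  Pool.Agent.Helper1.T1 Pool.Agent.Helper1.T1.NEF

open Pool.Agent.Helper97.Tate (OO KK SS cf iO evx evK Van Fm)

/-- the numerical theorem -/
theorem gen (hE : S_EMPT2) (hN : S_NEFA2) (hB : S_BIG) (hAr : S_AREA) (hT : Tate.S_TRK)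
    {n : ℕ} {k c : ℕ} {μ : Fin n → ℝ} {W H : Fin c → ℝ} {A : Fin c → Finset (Fin n)}
    {D : ℝ} (hk : 3 ≤ k) (hc : 2 * c ≤ (k - 1) * (k - 2))
    (hdis : ∀ l l', l ≠ l' → Disjoint (A l) (A l'))
    (hCut : ∀ l, Cut μ μ (W l) (H l) (A l)) (hD : 0 < D) (hD2 : D ^ 2 = ∑ l, W l * H l)
    (hkH : ∀ l, k * H l < D ∧ D < k * W l)
    (d : ℕ) (m : Fin n → ℕ) (hlt : D * d < ∑ l, ∑ i ∈ A l, μ i * m i) :
    GenDim d m 0 ∧ vdim d m ≤ 0 := by
  classical
  have hAr' := fun l => hAr n μ (W l) (H l) (A l) (hCut l)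
  have hX0 : ∀ l, 0 ≤ ∑ i ∈ A l, μ i * (m i : ℝ) := fun l =>
    Finset.sum_nonneg fun i hi => mul_nonneg ((hAr' l).2.2.1 i hi).le (Nat.cast_nonneg _)
  obtain ⟨C, hC⟩ : ∃ C : ℝ, C = 3 * (∑ l, ∑ i ∈ A l, μ i) / (2 * D) + 2 * n := ⟨_, rfl⟩
  have hS0 : 0 ≤ ∑ l, ∑ i ∈ A l, μ i :=
    Finset.sum_nonneg fun l _ => Finset.sum_nonneg fun i hi => ((hAr' l).2.2.1 i hi).le
  have hC0 : 0 ≤ C := by
    rw [hC]
    positivity
  obtain ⟨p, s, hp, hs, hps⟩ := hN c k d W H (fun l => ∑ i ∈ A l, μ i * m i) D (C + 1) (by omega)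
    (fun l => ⟨(hAr' l).1, (hAr' l).2.1, hX0 l⟩) hD hD2 hkH hlt (by linarith)
  set δ : ℕ := ⌈s * D + C⌉₊ with hδ
  have hsC : 0 ≤ (s : ℝ) * D + C := by positivity
  have hδ1 : (s : ℝ) * D + C ≤ δ := Nat.le_ceil _
  have hδ2 : (δ : ℝ) < s * D + C + 1 := Nat.ceil_lt_add_one hsC
  set μ' : Fin n → ℕ := fun i => if ∃ l, i ∈ A l then ⌈s * μ i⌉₊ else 0 with hμ'
  have hμ1 : ∀ l, ∀ i ∈ A l, μ' i = ⌈s * μ i⌉₊ := by
    intro l i hi
    simp only [hμ']
    rw [if_pos ⟨l, hi⟩]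
  have hμ2 : ∀ i, (∀ l, i ∉ A l) → μ' i = 0 := by
    intro i hi
    simp only [hμ']
    rw [if_neg (by push Not; exact hi)]
  have hnum : ∑ i, μ' i * (μ' i + 1) < (δ + 1) * (δ + 2) := by
    apply num s μ A D C hdis (fun l i hi => (hAr' l).2.2.1 i hi) hD _ hC μ' hμ1 hμ2
    rw [hD2]
    apply Finset.sum_congr rfl
    intro l _
    exact ((hAr' l).2.2.2).symm
  set m' : Fin n → ℕ := fun i => if ∃ l, i ∈ A l then p * m i + μ' i else 0 with hm'
  have hm1 : ∀ l, ∀ i ∈ A l, m' i = p * m i + ⌈s * μ i⌉₊ := by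
    intro l i hi
    simp only [hm']
    rw [if_pos ⟨l, hi⟩, hμ1 l i hi]
  have hpd : (0 : ℝ) ≤ (p : ℝ) * d := by positivity
  have hd' := hps (p * d + δ) (by push_cast; linarith) (by push_cast; linarith)
  obtain ⟨hd1, hsum, hl⟩ := hd'
  have htri := fun l => tri m' (hCut l)
  choose hW0 hH0 lam hlam using htri
  have hd0 : (0 : ℝ) < ((p * d + δ : ℕ) : ℝ) := by exact_mod_cast hd1
  have hk0 : (0 : ℝ) < (k : ℝ) := by
    have : 0 < k := by omega
    exact_mod_cast this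
  have hemp := hE k c (p * d + δ) n m' A lam H W
    (fun l => s * W l + p * (∑ i ∈ A l, μ i * m i) / H l) hk hc hd1 hdis
    (fun l => ⟨(hlam l).1, hH0 l, hW0 l⟩)
    (by
      intro l s' a' hsa
      apply (hlam l).2
      refine lt_of_lt_of_le hsa ?_
      have h1 : (s * W l + p * (∑ i ∈ A l, μ i * (m i : ℝ)) / H l) * H l =
          s * (∑ i ∈ A l, μ i ^ 2) + p * (∑ i ∈ A l, μ i * (m i : ℝ)) := by
        rw [(hAr' l).2.2.2]
        have := (hH0 l).ne'
        field_simp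
      rw [h1, Finset.mul_sum, Finset.mul_sum, ← Finset.sum_add_distrib]
      apply Finset.sum_le_sum
      intro i hi
      rw [min_self, hm1 l i hi]
      push_cast
      have h2 : s * μ i ≤ ⌈s * μ i⌉₊ := Nat.le_ceil _
      have h3 := (hAr' l).2.2.1 i hi
      have h4 : μ i * (s * μ i) ≤ μ i * ⌈s * μ i⌉₊ := mul_le_mul_of_nonneg_left h2 h3.le
      nlinarith)
    hl hsum
  obtain ⟨K, i1, i2, Q, hQ⟩ := hemp
  obtain ⟨G', hG0, hG⟩ := transC (n := n) (d := p * d + δ) (m := m') (N := 0) hT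
    ⟨K, i1, i2, Q, by omega⟩
  have hkey : ∃ G : MvPolynomial (Fin n × Fin 3) ℂ, G ≠ 0 ∧ ∀ P : Fin n → Fin 3 → ℂ,
      MvPolynomial.eval (fun ij : Fin n × Fin 3 => P ij.1 ij.2) G ≠ 0 →
      finrank ℂ (↥(MvPolynomial.homogeneousSubmodule (Fin 3) ℂ d ⊓
        ⨅ i : Fin n, Submodule.restrictScalars ℂ
          ((Ideal.span {g : MvPolynomial (Fin 3) ℂ |
              g.IsHomogeneous 1 ∧ MvPolynomial.eval (P i) g = 0}) ^ (m i)
            : Ideal (MvPolynomial (Fin 3) ℂ)))) ≤ 0 := by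
    refine ⟨G' * ∏ i : Fin n, MvPolynomial.X (i, 2), ?_, ?_⟩
    · apply mul_ne_zero hG0
      rw [Finset.prod_ne_zero_iff]
      intro i _
      exact MvPolynomial.X_ne_zero _
    · intro P hP
      rw [map_mul, map_prod] at hP
      have hPA := left_ne_zero_of_mul hP
      have hP0 : ∀ i, P i ≠ 0 := by
        intro i h0
        have h4 := (Finset.prod_ne_zero_iff.1 (right_ne_zero_of_mul hP)) i (Finset.mem_univ i)
        rw [MvPolynomial.eval_X] at h4
        exact h4 (congrFun h0 2)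
      have h1 := fin_LL d m P
      have h2 := fin_LL (p * d + δ) m' P
      have h3 : LL (p * d + δ) m' P = ⊥ := Submodule.finrank_eq_zero.1 (Nat.le_zero.1 (hG P hPA))
      have h4 : LL d m P = ⊥ := by
        by_contra hcon
        obtain ⟨f, hf, hf0⟩ := Submodule.exists_mem_ne_zero_of_ne_bot hcon
        rw [mem_LL] at hf
        obtain ⟨G, hG0, hGh, hGm⟩ := hB n δ μ' P hP0 hnum
        have h5 : f ^ p * G ∈ LL (p * d + δ) m' P := by
          rw [mem_LL]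
          refine ⟨?_, ?_⟩
          · have h6 := hf.1.pow p
            rw [mul_comm d p] at h6
            exact h6.mul hGh
          · intro i
            by_cases hi : ∃ l, i ∈ A l
            · obtain ⟨l, hl⟩ := hi
              rw [hm1 l i hl, ← hμ1 l i hl, pow_add, mul_comm p, pow_mul]
              exact Ideal.mul_mem_mul (Ideal.pow_mem_pow (hf.2 i) p) (hGm i)
            · have h6 : m' i = 0 := by
                simp only [hm']
                rw [if_neg hi]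
              rw [h6, pow_zero, Ideal.one_eq_top]
              exact Submodule.mem_top
        rw [h3, Submodule.mem_bot] at h5
        exact mul_ne_zero (pow_ne_zero p hf0) hG0 h5
      exact le_of_eq (Submodule.finrank_eq_zero.2 h4)
  have h5 := upgrade hkey (by simp)
  obtain ⟨G1, hG10, hG1⟩ := hkey
  have h6 : GenDim d m 0 := ⟨G1, hG10, fun P _ hP => by
    rw [Nat.le_zero.1 (hG1 P hP)]
    rfl⟩
  refine ⟨h6, ?_⟩
  rw [← gen_unique h5 h6]
  exact le_max_left _ _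

theorem t (hE : S_EMPT2) (hN : S_NEFA2) (hB : S_BIG) (hAr : S_AREA) (hT : Tate.S_TRK) : S_NEF2 := by
  intro n
  obtain ⟨𝒢, h1, h2, h3⟩ := vgen n
  refine ⟨𝒢, h1, h2, ?_⟩
  intro P hP0 hP k c μ W H A D hk hc hdis hCut hD hD2 hkH d m f hf hf0 hfm
  by_contra hcon
  have h4 := (gen hE hN hB hAr hT hk hc hdis hCut hD hD2 hkH d m (not_le.1 hcon)).1
  exact hf0 (h3 P hP0 hP d m h4 f hf hfm)

end Pool.Agent.Helper1.T1.NEF2
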