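import Pool.Agent.Helper1.T1.NEF2
import Pool.Agent.Helper1.All.Final2

/-!
PROJECT T1: the closed form of the hypotheses (helper1).
-/

set_option autoImplicit false

noncomputable section

namespace Pool.Agent.Helper1.T1.NEF3

open Module Pool.Agent.Helper97 Pool.Agent.Helper97.Nag Pool.Agent.Helper98.UN Pool.Agent.Helper1.All
  Pool.Agent.Helper1.T1 Pool.Agent.Helper1.T1.NEF

open Pool.Agent.Helper97.Tate (OO KK SS cf iO evx evK Van Fm)

open Filter Topology

/-- scaling of a cut -/
theorem scale {n : ℕ} {w h w' h' : Fin n → ℝ} {s : ℝ} (hs : 0 < s) {W H : ℝ} {A : Finset (Fin n)}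
    (hC : Cut w h W H A) (hw : ∀ i ∈ A, w' i = s * w i) (hh : ∀ i ∈ A, h' i = s * h i) :
    Cut w' h' (s * W) (s * H) A := by
  induction hC with
  | piece i h1 h2 =>
    rw [← hw i (Finset.mem_singleton_self i), ← hh i (Finset.mem_singleton_self i)]
    apply Cut.piece
    · rw [hw i (Finset.mem_singleton_self i)]
      positivity
    · rw [hh i (Finset.mem_singleton_self i)]
      positivity
  | hor W₁ W₂ H A B hAB _ _ ih1 ih2 =>
    rw [mul_add]
    exact Cut.hor _ _ _ _ _ hAB
      (ih1 (fun i hi => hw i (Finset.mem_union_left _ hi)) (fun i hi => hh i (Finset.mem_union_left _ hi)))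
      (ih2 (fun i hi => hw i (Finset.mem_union_right _ hi))
        (fun i hi => hh i (Finset.mem_union_right _ hi)))
  | ver W H₁ H₂ A B hAB _ _ ih1 ih2 =>
    rw [mul_add]
    exact Cut.ver _ _ _ _ _ hAB
      (ih1 (fun i hi => hw i (Finset.mem_union_left _ hi)) (fun i hi => hh i (Finset.mem_union_left _ hi)))
      (ih2 (fun i hi => hw i (Finset.mem_union_right _ hi))
        (fun i hi => hh i (Finset.mem_union_right _ hi)))

/-- rectangles of the same height side by side -/
theorem merge {n : ℕ} {w h : Fin n → ℝ} {H : ℝ} : ∀ (c : ℕ) (W : Fin (c + 1) → ℝ)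
    (A : Fin (c + 1) → Finset (Fin n)), (∀ l l', l ≠ l' → Disjoint (A l) (A l')) →
    (∀ l, Cut w h (W l) H (A l)) → Cut w h (∑ l, W l) H (Finset.univ.biUnion A) := by
  classical
  intro c
  induction c with
  | zero =>
    intro W A _ hC
    rw [Fin.sum_univ_one]
    have : (Finset.univ : Finset (Fin 1)).biUnion A = A 0 := by
      rw [Finset.univ_unique, Finset.singleton_biUnion]
      rfl
    rw [this]
    exact hC 0
  | succ c ih =>
    intro W A hd hC
    rw [Fin.sum_univ_castSucc]
    have h1 := ih (fun l => W l.castSucc) (fun l => A l.castSucc)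
      (fun l l' hne => hd _ _ (fun h => hne (Fin.castSucc_injective _ h))) (fun l => hC _)
    have h2 : (Finset.univ : Finset (Fin (c + 2))).biUnion A =
        (Finset.univ : Finset (Fin (c + 1))).biUnion (fun l => A l.castSucc) ∪ A (Fin.last (c + 1)) := by
      ext i
      simp only [Finset.mem_biUnion, Finset.mem_univ, true_and, Finset.mem_union]
      constructor
      · rintro ⟨l, hl⟩
        rcases Fin.eq_castSucc_or_eq_last l with ⟨l', rfl⟩ | rfl
        · exact Or.inl ⟨l', hl⟩
        · exact Or.inr hl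
      · rintro (⟨l, hl⟩ | hl)
        · exact ⟨_, hl⟩
        · exact ⟨_, hl⟩
    rw [h2]
    refine Cut.hor _ _ _ _ _ ?_ h1 (hC _)
    rw [Finset.disjoint_biUnion_left]
    intro l _
    exact hd _ _ (Fin.castSucc_lt_last l).ne

theorem gen (hE : S_EMPT2) (hN : S_NEFA2) (hB : S_BIG) (hAr : S_AREA) (hT : Tate.S_TRK)
    {n : ℕ} {k c : ℕ} {μ : Fin n → ℝ} {W H : Fin c → ℝ} {A : Fin c → Finset (Fin n)}
    {D : ℝ} (hk : 3 ≤ k) (hc : 2 * c ≤ (k - 1) * (k - 2))
    (hdis : ∀ l l', l ≠ l' → Disjoint (A l) (A l'))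
    (hCut : ∀ l, Cut μ μ (W l) (H l) (A l)) (hD : 0 < D) (hD2 : D ^ 2 = ∑ l, W l * H l)
    (hkH : ∀ l, k * H l ≤ D ∧ D ≤ k * W l ∧ H l < W l)
    (d : ℕ) (m : Fin n → ℕ) (hlt : D * d < ∑ l, ∑ i ∈ A l, μ i * m i) :
    GenDim d m 0 ∧ vdim d m ≤ 0 := by
  classical
  have hAr' := fun l => hAr n μ (W l) (H l) (A l) (hCut l)
  have hk0 : (0 : ℝ) < k := by
    have : 0 < k := by omega
    exact_mod_cast this
  have hc0 : 0 < c := by
    rcases Nat.eq_zero_or_pos c with h0 | h0
    · subst h0
      rw [Finset.univ_eq_empty, Finset.sum_empty] at hD2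
      have := pow_pos hD 2
      linarith
    · exact h0
  by_cases hall : ∀ l, k * H l = D
  · -- all the rectangles have the same height
    obtain ⟨c', rfl⟩ : ∃ c', c = c' + 1 := ⟨c - 1, by omega⟩
    have hHl : ∀ l, H l = D / k := by
      intro l
      rw [← hall l]
      field_simp
    have hCut' : ∀ l, Cut μ μ (W l) (D / k) (A l) := by
      intro l
      rw [← hHl l]
      exact hCut l
    have h1 := merge c' W A hdis hCut'
    have hWD : (∑ l, W l) * (D / k) = D ^ 2 := by
      rw [hD2, Finset.sum_mul]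
      apply Finset.sum_congr rfl
      intro l _
      rw [hHl]
    have hmax : max (3 * (D / k)) (Real.sqrt ((∑ l, W l) * (D / k))) = D := by
      rw [hWD, Real.sqrt_sq hD.le]
      apply max_eq_right
      rw [mul_div_assoc', div_le_iff₀ hk0]
      have h3 : (3 : ℝ) ≤ k := by exact_mod_cast hk
      nlinarith
    apply allE d m μ μ _ _ _ h1
    rw [hmax, Finset.sum_biUnion (fun l _ l' _ hne => hdis l l' hne)]
    simpa only [min_self] using hlt
  · push Not at hall
    obtain ⟨l₁, hl₁⟩ := hall
    -- not all the widths are `D / k`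
    have hall2 : ∃ l, D ≠ k * W l := by
      by_contra hcon
      push Not at hcon
      have h1 : ∀ l, k * H l ≤ D := fun l => (hkH l).1
      have h2 : (k : ℝ) ^ 2 * D ^ 2 ≤ c * D ^ 2 := by
        rw [hD2, Finset.mul_sum, ← hD2]
        calc ∑ l, (k : ℝ) ^ 2 * (W l * H l) ≤ ∑ _l : Fin c, D ^ 2 := by
              apply Finset.sum_le_sum
              intro l _
              have h3 : (k : ℝ) ^ 2 * (W l * H l) = (k * W l) * (k * H l) := by ring
              rw [h3, ← hcon l, sq]
              exact mul_le_mul_of_nonneg_left (h1 l) hD.le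
          _ = c * D ^ 2 := by
              rw [Finset.sum_const, Finset.card_univ, Fintype.card_fin, nsmul_eq_mul]
      have h4 : (k : ℝ) ^ 2 ≤ c := le_of_mul_le_mul_right h2 (pow_pos hD 2)
      have h5 : k ^ 2 ≤ c := by exact_mod_cast h4
      have h6 : (k - 1) * (k - 2) ≤ k * k := Nat.mul_le_mul (Nat.sub_le _ _) (Nat.sub_le _ _)
      have h7 : 0 < k * k := Nat.mul_pos (by omega) (by omega)
      rw [sq] at h5
      omega
    obtain ⟨l₂, hl₂⟩ := hall2
    -- the perturbation
    obtain ⟨a, ha⟩ : ∃ a : Fin c → ℝ, a = fun l => if k * H l = D then 0 else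
      if D = k * W l then 2 else 1 := ⟨_, rfl⟩
    have ha0 : ∀ l, 0 ≤ a l := by
      intro l
      rw [ha]
      simp only
      split_ifs <;> norm_num
    have ha2 : ∀ l, a l ≤ 2 := by
      intro l
      rw [ha]
      simp only
      split_ifs <;> norm_num
    have haH : ∀ l, k * H l = D → a l = 0 := by
      intro l hl
      rw [ha]
      simp only
      rw [if_pos hl]
    have haH' : ∀ l, k * H l ≠ D → 0 < a l := by
      intro l hl
      rw [ha]
      simp only
      rw [if_neg hl]
      split_ifs <;> norm_num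
    have haW : ∀ l, D = k * W l → a l = 2 := by
      intro l hl
      have h1 : k * H l ≠ D := by
        intro h2
        have h3 : k * H l = k * W l := h2.trans hl
        have h4 := mul_left_cancel₀ hk0.ne' h3
        exact absurd h4 (hkH l).2.2.ne
      rw [ha]
      simp only
      rw [if_neg h1, if_pos hl]
    have haW' : ∀ l, D ≠ k * W l → a l < 2 := by
      intro l hl
      rw [ha]
      simp only
      rw [if_neg hl]
      split_ifs <;> norm_num
    obtain ⟨Dt, hDt⟩ : ∃ Dt : ℝ → ℝ, Dt = fun τ =>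
      Real.sqrt (∑ l, (1 + a l * τ) ^ 2 * (W l * H l)) := ⟨_, rfl⟩
    have hDtc : Continuous Dt := by
      rw [hDt]
      fun_prop
    have hDt0 : Dt 0 = D := by
      rw [hDt]
      simp only [mul_zero, add_zero, one_pow, one_mul]
      rw [← hD2, Real.sqrt_sq hD.le]
    have hWH : ∀ l, 0 < W l * H l := fun l => mul_pos (hAr' l).1 (hAr' l).2.1
    have hDt1 : ∀ τ : ℝ, 0 < τ → D < Dt τ := by
      intro τ hτ
      rw [hDt]
      simp only
      apply Real.lt_sqrt_of_sq_lt
      rw [hD2]
      apply Finset.sum_lt_sum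
      · intro l _
        have h1 : 0 ≤ a l * τ := mul_nonneg (ha0 l) hτ.le
        have h2 := (hWH l).le
        have h3 : 1 ≤ (1 + a l * τ) ^ 2 := by nlinarith
        nlinarith
      · refine ⟨l₁, Finset.mem_univ _, ?_⟩
        have h1 : 0 < a l₁ * τ := mul_pos (haH' l₁ hl₁) hτ
        have h2 := hWH l₁
        have h3 : 1 < (1 + a l₁ * τ) ^ 2 := by nlinarith
        nlinarith
    have hDt2 : ∀ τ : ℝ, 0 < τ → Dt τ < (1 + 2 * τ) * D := by
      intro τ hτ
      rw [hDt]
      simp only
      rw [Real.sqrt_lt' (by positivity), mul_pow, hD2, Finset.mul_sum]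
      apply Finset.sum_lt_sum
      · intro l _
        have h1 : 0 ≤ a l * τ := mul_nonneg (ha0 l) hτ.le
        have h1' : a l * τ ≤ 2 * τ := mul_le_mul_of_nonneg_right (ha2 l) hτ.le
        have h3 : (1 + a l * τ) ^ 2 ≤ (1 + 2 * τ) ^ 2 := by
          apply pow_le_pow_left₀ (by linarith)
          linarith
        exact mul_le_mul_of_nonneg_right h3 (hWH l).le
      · refine ⟨l₂, Finset.mem_univ _, ?_⟩
        have h1 : 0 ≤ a l₂ * τ := mul_nonneg (ha0 l₂) hτ.le
        have h1' : a l₂ * τ < 2 * τ := mul_lt_mul_of_pos_right (haW' l₂ hl₂) hτ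
        have h3 : (1 + a l₂ * τ) ^ 2 < (1 + 2 * τ) ^ 2 := by
          apply pow_lt_pow_left₀ (by linarith) (by linarith) two_ne_zero
        exact mul_lt_mul_of_pos_right h3 (hWH l₂)
    have e1 : ∀ᶠ τ in 𝓝[>] (0 : ℝ), ∀ l, k * ((1 + a l * τ) * H l) < Dt τ ∧
        Dt τ < k * ((1 + a l * τ) * W l) := by
      rw [Filter.eventually_all]
      intro l
      have e2 : ∀ᶠ τ in 𝓝[>] (0 : ℝ), k * ((1 + a l * τ) * H l) < Dt τ := by
        by_cases hl : k * H l = D
        · filter_upwards [self_mem_nhdsWithin] with τ hτ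
          rw [haH l hl, zero_mul, add_zero, one_mul, hl]
          exact hDt1 τ (Set.mem_Ioi.1 hτ)
        · have h3 : ∀ᶠ τ in 𝓝 (0 : ℝ), k * ((1 + a l * τ) * H l) < Dt τ := by
            have hc1 : Continuous fun τ : ℝ => k * ((1 + a l * τ) * H l) := by fun_prop
            apply hc1.continuousAt.eventually_lt hDtc.continuousAt
            simp only [mul_zero, add_zero, one_mul]
            rw [hDt0]
            exact lt_of_le_of_ne (hkH l).1 hl
          exact h3.filter_mono nhdsWithin_le_nhds
      have e3 : ∀ᶠ τ in 𝓝[>] (0 : ℝ), Dt τ < k * ((1 + a l * τ) * W l) := by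
        by_cases hl : D = k * W l
        · filter_upwards [self_mem_nhdsWithin] with τ hτ
          rw [haW l hl]
          have h1 := hDt2 τ (Set.mem_Ioi.1 hτ)
          have h2 : k * ((1 + 2 * τ) * W l) = (1 + 2 * τ) * D := by
            rw [hl]
            ring
          rw [h2]
          exact h1
        · have h3 : ∀ᶠ τ in 𝓝 (0 : ℝ), Dt τ < k * ((1 + a l * τ) * W l) := by
            have hc1 : Continuous fun τ : ℝ => k * ((1 + a l * τ) * W l) := by fun_prop
            apply hDtc.continuousAt.eventually_lt hc1.continuousAt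
            simp only [mul_zero, add_zero, one_mul]
            rw [hDt0]
            exact lt_of_le_of_ne (hkH l).2.1 hl
          exact h3.filter_mono nhdsWithin_le_nhds
      exact e2.and e3
    have e4 : ∀ᶠ τ in 𝓝[>] (0 : ℝ), Dt τ * d < ∑ l, (1 + a l * τ) * ∑ i ∈ A l, μ i * m i := by
      have h3 : ∀ᶠ τ in 𝓝 (0 : ℝ), Dt τ * d < ∑ l, (1 + a l * τ) * ∑ i ∈ A l, μ i * m i := by
        have hc1 : Continuous fun τ : ℝ => ∑ l, (1 + a l * τ) * ∑ i ∈ A l, μ i * (m i : ℝ) := by
          fun_prop
        have hc2 : Continuous fun τ : ℝ => Dt τ * d := by fun_prop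
        apply hc2.continuousAt.eventually_lt hc1.continuousAt
        simp only [mul_zero, add_zero, one_mul]
        rw [hDt0]
        exact hlt
      exact h3.filter_mono nhdsWithin_le_nhds
    have e5 : ∀ᶠ τ in 𝓝[>] (0 : ℝ), 0 < τ := self_mem_nhdsWithin
    obtain ⟨τ, hτ, h1, h2⟩ := (e5.and (e1.and e4)).exists
    have hs : ∀ l, 0 < 1 + a l * τ := by
      intro l
      have := mul_nonneg (ha0 l) hτ.le
      linarith
    have hg : ∀ i : Fin n, ∃ l : Fin c, ∀ l', i ∈ A l' → l' = l := by
      intro i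
      by_cases hi : ∃ l, i ∈ A l
      · obtain ⟨l, hl⟩ := hi
        refine ⟨l, fun l' hl' => ?_⟩
        by_contra hne
        exact Finset.disjoint_left.1 (hdis l' l hne) hl' hl
      · push Not at hi
        exact ⟨⟨0, hc0⟩, fun l' hl' => absurd hl' (hi l')⟩
    choose g hg using hg
    have hμ' : ∀ l, ∀ i ∈ A l, (1 + a (g i) * τ) * μ i = (1 + a l * τ) * μ i := by
      intro l i hi
      rw [← hg i l hi]
    refine Pool.Agent.Helper1.T1.NEF2.gen hE hN hB hAr hT (μ := fun i => (1 + a (g i) * τ) * μ i)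
      (W := fun l => (1 + a l * τ) * W l) (H := fun l => (1 + a l * τ) * H l) (D := Dt τ) hk hc hdis
      (fun l => scale (hs l) (hCut l) (hμ' l) (hμ' l)) (hD.trans (hDt1 τ hτ)) ?_ h1 d m ?_
    · rw [hDt]
      simp only
      rw [Real.sq_sqrt]
      · apply Finset.sum_congr rfl
        intro l _
        ring
      · apply Finset.sum_nonneg
        intro l _
        have := (hWH l).le
        positivity
    · refine lt_of_lt_of_eq h2 ?_
      apply Finset.sum_congr rfl
      intro l _
      rw [Finset.mul_sum]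
      apply Finset.sum_congr rfl
      intro i hi
      rw [hμ' l i hi]
      ring

end Pool.Agent.Helper1.T1.NEF3
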