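import Pool.Agent.Helper1.T1.NEF3

/-!
PROJECT T1: the strict inequality for irrational classes (helper1).
-/

set_option autoImplicit false

noncomputable section

namespace Pool.Agent.Helper1.T1.STR

open Module Pool.Agent.Helper97 Pool.Agent.Helper97.Nag Pool.Agent.Helper98.UN Pool.Agent.Helper1.All
  Pool.Agent.Helper1.T1 Pool.Agent.Helper1.T1.NEF

open Pool.Agent.Helper97.Tate (OO KK SS cf iO evx evK Van Fm)

open Filter Topology

/-- all the sides in a rectangle cut into squares are commensurable -/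
theorem rat {n : ℕ} {μ μ' : Fin n → ℝ} {W H : ℝ} {A : Finset (Fin n)} (hC : Cut μ μ' W H A)
    (he : μ' = μ) : 0 < W ∧ 0 < H ∧ (∃ σ : ℚ, W = σ * H) ∧ ∀ i ∈ A, ∃ ρ : ℚ, μ i = ρ * H := by
  subst he
  induction hC with
  | piece i h1 h2 =>
    refine ⟨h1, h1, ⟨1, by simp⟩, fun j hj => ⟨1, ?_⟩⟩
    rw [Finset.mem_singleton.1 hj]
    simp
  | hor W₁ W₂ H A B hAB _ _ ih1 ih2 =>
    obtain ⟨w1, h1, ⟨σ1, e1⟩, r1⟩ := ih1
    obtain ⟨w2, -, ⟨σ2, e2⟩, r2⟩ := ih2
    refine ⟨by linarith, h1, ⟨σ1 + σ2, ?_⟩, fun i hi => ?_⟩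
    · rw [e1, e2]
      push_cast
      ring
    · rcases Finset.mem_union.1 hi with hi | hi
      · exact r1 i hi
      · exact r2 i hi
  | ver W H₁ H₂ A B hAB _ _ ih1 ih2 =>
    obtain ⟨w1, h1, ⟨σ1, e1⟩, r1⟩ := ih1
    obtain ⟨-, h2, ⟨σ2, e2⟩, r2⟩ := ih2
    have s1 : (σ1 : ℝ) ≠ 0 := by
      rintro h0
      rw [h0, zero_mul] at e1
      exact w1.ne' e1
    have s2 : (σ2 : ℝ) ≠ 0 := by
      rintro h0
      rw [h0, zero_mul] at e2
      exact w1.ne' e2
    have k1 : H₁ = W / σ1 := by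
      rw [e1]
      field_simp
    have k2 : H₂ = W / σ2 := by
      rw [e2]
      field_simp
    have h12 : (H₁ + H₂) ≠ 0 := by
      have : 0 < H₁ + H₂ := by linarith
      exact this.ne'
    have p1 : 0 < (σ1 : ℝ) := by
      by_contra h
      have := mul_nonpos_of_nonpos_of_nonneg (not_lt.1 h) h1.le
      linarith
    have p2 : 0 < (σ2 : ℝ) := by
      by_contra h
      have := mul_nonpos_of_nonpos_of_nonneg (not_lt.1 h) h2.le
      linarith
    have q1 : ∃ τ : ℚ, H₁ = τ * (H₁ + H₂) := by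
      refine ⟨σ2 / (σ1 + σ2), ?_⟩
      have hs : (σ1 : ℝ) + σ2 ≠ 0 := (add_pos p1 p2).ne'
      push_cast
      rw [k1, k2]
      field_simp
      ring
    obtain ⟨τ1, t1⟩ := q1
    have t2 : H₂ = ((1 - τ1 : ℚ) : ℝ) * (H₁ + H₂) := by
      push_cast
      linarith
    refine ⟨w1, by linarith, ⟨σ1 * τ1, ?_⟩, fun i hi => ?_⟩
    · push_cast
      rw [mul_assoc, ← t1]
      exact e1
    · rcases Finset.mem_union.1 hi with hi | hi
      · obtain ⟨ρ, hρ⟩ := r1 i hi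
        refine ⟨ρ * τ1, ?_⟩
        push_cast
        rw [mul_assoc, ← t1]
        exact hρ
      · obtain ⟨ρ, hρ⟩ := r2 i hi
        refine ⟨ρ * (1 - τ1), ?_⟩
        rw [Rat.cast_mul, mul_assoc, ← t2]
        exact hρ

/-- the cells are scaled -/
theorem pert (hE : S_EMPT2) (hN : S_NEFA2) (hB : S_BIG) (hAr : S_AREA) (hT : Tate.S_TRK)
    {n : ℕ} {k c : ℕ} {μ : Fin n → ℝ} {W H : Fin c → ℝ} {A : Fin c → Finset (Fin n)}
    (hk : 3 ≤ k) (hc : 2 * c ≤ (k - 1) * (k - 2))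
    (hdis : ∀ l l', l ≠ l' → Disjoint (A l) (A l'))
    (hCut : ∀ l, Cut μ μ (W l) (H l) (A l)) (d : ℕ) (m : Fin n → ℕ) (s : Fin c → ℝ) (D : ℝ)
    (hs : ∀ l, 0 < s l) (hD : 0 < D) (hD2 : D ^ 2 = ∑ l, s l ^ 2 * (W l * H l))
    (hkH : ∀ l, k * (s l * H l) < D ∧ D < k * (s l * W l))
    (hlt : D * d < ∑ l, s l * ∑ i ∈ A l, μ i * m i) :
    GenDim d m 0 ∧ vdim d m ≤ 0 := by
  classical
  have hc0 : 0 < c := by
    rcases Nat.eq_zero_or_pos c with h0 | h0
    · subst h0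
      rw [Finset.univ_eq_empty, Finset.sum_empty] at hD2
      have := pow_pos hD 2
      linarith
    · exact h0
  have hg : ∀ i : Fin n, ∃ l : Fin c, ∀ l', i ∈ A l' → l' = l := by
    intro i
    by_cases hi : ∃ l, i ∈ A l
    · obtain ⟨l, hl⟩ := hi
      refine ⟨l, fun l' hl' => ?_⟩
      by_contra hne
      exact Finset.disjoint_left.1 (hdis l' l hne) hl' hl
    · push Not at hi
      exact ⟨⟨0, hc0⟩, fun l' hl' => absurd hl' (hi l')⟩
  choose g hg using hg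
  have hμ' : ∀ l, ∀ i ∈ A l, s (g i) * μ i = s l * μ i := by
    intro l i hi
    rw [← hg i l hi]
  refine Pool.Agent.Helper1.T1.NEF2.gen hE hN hB hAr hT (μ := fun i => s (g i) * μ i)
    (W := fun l => s l * W l) (H := fun l => s l * H l) (D := D) hk hc hdis
    (fun l => NEF3.scale (hs l) (hCut l) (hμ' l) (hμ' l)) hD ?_ hkH d m ?_
  · rw [hD2]
    apply Finset.sum_congr rfl
    intro l _
    ring
  · refine lt_of_lt_of_eq hlt ?_
    apply Finset.sum_congr rfl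
    intro l _
    rw [Finset.mul_sum]
    apply Finset.sum_congr rfl
    intro i hi
    rw [hμ' l i hi]
    ring

theorem t (hE : S_EMPT2) (hN : S_NEFA2) (hB : S_BIG) (hAr : S_AREA) (hT : Tate.S_TRK)
    {n : ℕ} {k c : ℕ} {μ : Fin n → ℝ} {W H : Fin c → ℝ} {A : Fin c → Finset (Fin n)}
    {D : ℝ} (hk : 3 ≤ k) (hc : 2 * c ≤ (k - 1) * (k - 2))
    (hdis : ∀ l l', l ≠ l' → Disjoint (A l) (A l'))
    (hCut : ∀ l, Cut μ μ (W l) (H l) (A l)) (hD : 0 < D) (hD2 : D ^ 2 = ∑ l, W l * H l)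
    (hkH : ∀ l, k * H l < D ∧ D < k * W l) (l₀ : Fin c) (i₀ : Fin n) (hi₀ : i₀ ∈ A l₀)
    (hirr : Irrational (μ i₀ / D))
    (d : ℕ) (hd : 1 ≤ d) (m : Fin n → ℕ) (hle : D * d ≤ ∑ l, ∑ i ∈ A l, μ i * m i) :
    GenDim d m 0 ∧ vdim d m ≤ 0 := by
  classical
  rcases lt_or_eq_of_le hle with hlt | heq
  · exact Pool.Agent.Helper1.T1.NEF2.gen hE hN hB hAr hT hk hc hdis hCut hD hD2 hkH d m hlt
  by_contra hcon
  have hAr' := fun l => hAr n μ (W l) (H l) (A l) (hCut l)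
  have hWH : ∀ l, 0 < W l * H l := fun l => mul_pos (hAr' l).1 (hAr' l).2.1
  obtain ⟨X, hX⟩ : ∃ X : Fin c → ℝ, X = fun l => ∑ i ∈ A l, μ i * (m i : ℝ) := ⟨_, rfl⟩
  have hXl : ∀ l, X l = ∑ i ∈ A l, μ i * (m i : ℝ) := fun l => by rw [hX]
  simp only [← hXl] at heq
  -- the scaled classes
  obtain ⟨S, hS⟩ : ∃ S : ℝ → Fin c → ℝ, S = fun s l => if l = l₀ then s else 1 := ⟨_, rfl⟩
  obtain ⟨Dt, hDt⟩ : ∃ Dt : ℝ → ℝ, Dt = fun s => Real.sqrt (D ^ 2 + (s ^ 2 - 1) * (W l₀ * H l₀)) :=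
    ⟨_, rfl⟩
  have hsum : ∀ s : ℝ, ∑ l, S s l ^ 2 * (W l * H l) = D ^ 2 + (s ^ 2 - 1) * (W l₀ * H l₀) := by
    intro s
    have h1 : ∀ l, S s l ^ 2 * (W l * H l) = W l * H l +
        if l = l₀ then (s ^ 2 - 1) * (W l₀ * H l₀) else 0 := by
      intro l
      rw [hS]
      simp only
      split_ifs with h
      · rw [h]
        ring
      · ring
    rw [Finset.sum_congr rfl fun l _ => h1 l, Finset.sum_add_distrib, ← hD2,
      Finset.sum_ite_eq' Finset.univ l₀]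
    simp
  have hsumX : ∀ s : ℝ, ∑ l, S s l * X l = D * d + (s - 1) * X l₀ := by
    intro s
    have h1 : ∀ l, S s l * X l = X l + if l = l₀ then (s - 1) * X l₀ else 0 := by
      intro l
      rw [hS]
      simp only
      split_ifs with h
      · rw [h]
        ring
      · ring
    rw [Finset.sum_congr rfl fun l _ => h1 l, Finset.sum_add_distrib, ← heq,
      Finset.sum_ite_eq' Finset.univ l₀]
    simp
  have hA0 : W l₀ * H l₀ ≤ D ^ 2 := by
    rw [hD2]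
    exact Finset.single_le_sum (f := fun l => W l * H l) (fun l _ => (hWH l).le) (Finset.mem_univ l₀)
  have hcD : Continuous Dt := by
    rw [hDt]
    fun_prop
  have hDt1 : Dt 1 = D := by
    rw [hDt]
    simp only
    rw [one_pow, sub_self, zero_mul, add_zero, Real.sqrt_sq hD.le]
  have e1 : ∀ᶠ s in 𝓝 (1 : ℝ), ∀ l, k * (S s l * H l) < Dt s ∧ Dt s < k * (S s l * W l) := by
    rw [Filter.eventually_all]
    intro l
    have hcS : Continuous fun s : ℝ => S s l := by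
      rw [hS]
      simp only
      split_ifs
      · exact continuous_id
      · exact continuous_const
    have hS1 : S 1 l = 1 := by
      rw [hS]
      simp
    have e2 : ∀ᶠ s in 𝓝 (1 : ℝ), k * (S s l * H l) < Dt s := by
      have hc1 : Continuous fun s : ℝ => k * (S s l * H l) := by fun_prop
      apply hc1.continuousAt.eventually_lt hcD.continuousAt
      rw [hDt1, hS1, one_mul]
      exact (hkH l).1
    have e3 : ∀ᶠ s in 𝓝 (1 : ℝ), Dt s < k * (S s l * W l) := by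
      have hc1 : Continuous fun s : ℝ => k * (S s l * W l) := by fun_prop
      apply hcD.continuousAt.eventually_lt hc1.continuousAt
      rw [hDt1, hS1, one_mul]
      exact (hkH l).2
    exact e2.and e3
  have e4 : ∀ᶠ s in 𝓝 (1 : ℝ), 0 < s := by
    exact lt_mem_nhds one_pos
  have e5 : ∀ᶠ s in 𝓝 (1 : ℝ), 0 < Dt s := by
    have := hcD.continuousAt (x := (1 : ℝ))
    apply this.eventually_const_lt
    rw [hDt1]
    exact hD
  have e6 : ∀ᶠ s in 𝓝 (1 : ℝ), 0 ≤ Dt s * d - (D * d + (s - 1) * X l₀) := by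
    filter_upwards [e1, e4, e5] with s h1 h2 h3
    by_contra h4
    have h5 : Dt s * d < ∑ l, S s l * ∑ i ∈ A l, μ i * (m i : ℝ) := by
      simp only [← hXl]
      rw [hsumX]
      linarith
    apply hcon
    refine pert hE hN hB hAr hT hk hc hdis hCut d m (S s) (Dt s) ?_ h3 ?_ h1 h5
    · intro l
      rw [hS]
      simp only
      split_ifs
      · exact h2
      · exact one_pos
    · rw [hsum, hDt]
      simp only
      apply Real.sq_sqrt
      have h6 : 0 ≤ s ^ 2 * (W l₀ * H l₀) := mul_nonneg (sq_nonneg s) (hWH l₀).le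
      linarith
  have hmin : IsLocalMin (fun s => Dt s * d - (D * d + (s - 1) * X l₀)) 1 := by
    filter_upwards [e6] with s hs
    rw [hDt1]
    linarith
  have hder : HasDerivAt (fun s => Dt s * d - (D * d + (s - 1) * X l₀))
      ((2 * (W l₀ * H l₀)) / (2 * D) * d - X l₀) 1 := by
    have h1 : HasDerivAt (fun s : ℝ => D ^ 2 + (s ^ 2 - 1) * (W l₀ * H l₀))
        (2 * (W l₀ * H l₀)) 1 := by
      have h0 : HasDerivAt (fun s : ℝ => s ^ 2) 2 1 := by
        simpa using hasDerivAt_pow 2 (1 : ℝ)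
      exact ((h0.sub_const 1).mul_const (W l₀ * H l₀)).const_add (D ^ 2)
    have h3 := h1.sqrt (by
      rw [one_pow, sub_self, zero_mul, add_zero]
      exact (pow_pos hD 2).ne')
    rw [one_pow, sub_self, zero_mul, add_zero, Real.sqrt_sq hD.le] at h3
    have h4 : HasDerivAt (fun s : ℝ => D * d + (s - 1) * X l₀) (X l₀) 1 := by
      have h5 := (((hasDerivAt_id (1 : ℝ)).sub_const 1).mul_const (X l₀)).const_add (D * d)
      simpa using h5
    rw [hDt]
    exact (h3.mul_const (d : ℝ)).sub h4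
  have hzero := hmin.hasDerivAt_eq_zero hder
  have hXl0 : X l₀ = d * (W l₀ * H l₀) / D := by
    have h1 : (2 * (W l₀ * H l₀)) / (2 * D) * d = d * (W l₀ * H l₀) / D := by
      field_simp
    rw [h1] at hzero
    linarith
  -- rationality
  have hr := (rat (hCut l₀) rfl).2.2.2
  have hr' : ∀ i, ∃ ρ : ℚ, i ∈ A l₀ → μ i = ρ * H l₀ := by
    intro i
    by_cases hi : i ∈ A l₀
    · obtain ⟨ρ, hρ⟩ := hr i hi
      exact ⟨ρ, fun _ => hρ⟩
    · exact ⟨0, fun h => absurd h hi⟩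
  choose ρ hρ using hr'
  have hH := (hAr' l₀).2.1
  have h1 : X l₀ = H l₀ * ((∑ i ∈ A l₀, ρ i * m i : ℚ) : ℝ) := by
    rw [hXl]
    push_cast
    rw [Finset.mul_sum]
    apply Finset.sum_congr rfl
    intro i hi
    rw [hρ i hi]
    ring
  have h2 : W l₀ * H l₀ = H l₀ ^ 2 * ((∑ i ∈ A l₀, ρ i ^ 2 : ℚ) : ℝ) := by
    rw [← (hAr' l₀).2.2.2]
    push_cast
    rw [Finset.mul_sum]
    apply Finset.sum_congr rfl
    intro i hi
    rw [hρ i hi]
    ring
  obtain ⟨a, ha⟩ : ∃ a : ℚ, a = ∑ i ∈ A l₀, ρ i * m i := ⟨_, rfl⟩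
  obtain ⟨b, hb⟩ : ∃ b : ℚ, b = ∑ i ∈ A l₀, ρ i ^ 2 := ⟨_, rfl⟩
  rw [← ha] at h1
  rw [← hb] at h2
  have hb0 : (b : ℝ) ≠ 0 := by
    rintro h0
    rw [h0, mul_zero] at h2
    exact (hWH l₀).ne' h2
  have hd0 : (d : ℝ) ≠ 0 := by
    have : d ≠ 0 := by omega
    exact_mod_cast this
  have h3 : H l₀ / D = (a : ℝ) / (d * b) := by
    rw [h1, h2] at hXl0
    have h4 : H l₀ * (a : ℝ) * D = d * (H l₀ ^ 2 * b) := by
      rw [hXl0]
      field_simp
    have h5 : (a : ℝ) * D = d * b * H l₀ := by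
      have h6 : H l₀ * ((a : ℝ) * D) = H l₀ * (d * b * H l₀) := by
        rw [← mul_assoc, h4]
        ring
      exact mul_left_cancel₀ hH.ne' h6
    rw [div_eq_div_iff hD.ne' (mul_ne_zero hd0 hb0)]
    linarith
  apply hirr
  refine ⟨ρ i₀ * (a / (d * b)), ?_⟩
  push_cast
  rw [← h3, hρ i₀ hi₀]
  ring

end Pool.Agent.Helper1.T1.STR
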