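import Pool.Agent.Helper1.T1.STR
import Pool.Agent.Helper1.T1.EMPTE

/-!
PROJECT T1: the strict inequality (helper1).
-/

set_option autoImplicit false

noncomputable section

namespace Pool.Agent.Helper1.T1.STRE

open Module Pool.Agent.Helper97 Pool.Agent.Helper97.Nag Pool.Agent.Helper98.UN Pool.Agent.Helper1.All
  Pool.Agent.Helper1.T1 Pool.Agent.Helper1.T1.NEF Pool.Agent.Helper1.T1.STR

open Pool.Agent.Helper97.Tate (OO KK SS cf iO evx evK Van Fm)

open Filter Topology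

theorem eqX (hE : S_EMPT2) (hN : S_NEFA2) (hB : S_BIG) (hAr : S_AREA) (hT : Tate.S_TRK)
    {n : ℕ} {k c : ℕ} {μ : Fin n → ℝ} {W H : Fin c → ℝ} {A : Fin c → Finset (Fin n)}
    {D : ℝ} (hk : 3 ≤ k) (hc : 2 * c ≤ (k - 1) * (k - 2))
    (hdis : ∀ l l', l ≠ l' → Disjoint (A l) (A l'))
    (hCut : ∀ l, Cut μ μ (W l) (H l) (A l)) (hD : 0 < D) (hD2 : D ^ 2 = ∑ l, W l * H l)
    (hkH : ∀ l, k * H l < D ∧ D < k * W l) (l₀ : Fin c)
    (d : ℕ) (m : Fin n → ℕ) (heq : D * d = ∑ l, ∑ i ∈ A l, μ i * m i)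
    (hcon : ¬ (GenDim d m 0 ∧ vdim d m ≤ 0)) :
    ∑ i ∈ A l₀, μ i * m i = d * (W l₀ * H l₀) / D := by
  classical
  have hAr' := fun l => hAr n μ (W l) (H l) (A l) (hCut l)
  have hWH : ∀ l, 0 < W l * H l := fun l => mul_pos (hAr' l).1 (hAr' l).2.1
  obtain ⟨X, hX⟩ : ∃ X : Fin c → ℝ, X = fun l => ∑ i ∈ A l, μ i * (m i : ℝ) := ⟨_, rfl⟩
  have hXl : ∀ l, X l = ∑ i ∈ A l, μ i * (m i : ℝ) := fun l => by rw [hX]
  simp only [← hXl] at heq
  -- the scaled classes
  obtain ⟨S, hS⟩ : ∃ S : ℝ → Fin c → ℝ, S = fun s l => if l = l₀ then s else 1 := ⟨_, rfl⟩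
  obtain ⟨Dt, hDt⟩ : ∃ Dt : ℝ → ℝ, Dt = fun s => Real.sqrt (D ^ 2 + (s ^ 2 - 1) * (W l₀ * H l₀)) :=
    ⟨_, rfl⟩
  have hsum : ∀ s : ℝ, ∑ l, S s l ^ 2 * (W l * H l) = D ^ 2 + (s ^ 2 - 1) * (W l₀ * H l₀) := by
    intro s
    have h1 : ∀ l, S s l ^ 2 * (W l * H l) = W l * H l +
        if l = l₀ then (s ^ 2 - 1) * (W l₀ * H l₀) else 0 := by
      intro l
      rw [hS]
      simp only
      split_ifs with h
      · rw [h]
        ring
      · ring
    rw [Finset.sum_congr rfl fun l _ => h1 l, Finset.sum_add_distrib, ← hD2,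
      Finset.sum_ite_eq' Finset.univ l₀]
    simp
  have hsumX : ∀ s : ℝ, ∑ l, S s l * X l = D * d + (s - 1) * X l₀ := by
    intro s
    have h1 : ∀ l, S s l * X l = X l + if l = l₀ then (s - 1) * X l₀ else 0 := by
      intro l
      rw [hS]
      simp only
      split_ifs with h
      · rw [h]
        ring
      · ring
    rw [Finset.sum_congr rfl fun l _ => h1 l, Finset.sum_add_distrib, ← heq,
      Finset.sum_ite_eq' Finset.univ l₀]
    simp
  have hA0 : W l₀ * H l₀ ≤ D ^ 2 := by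
    rw [hD2]
    exact Finset.single_le_sum (f := fun l => W l * H l) (fun l _ => (hWH l).le) (Finset.mem_univ l₀)
  have hcD : Continuous Dt := by
    rw [hDt]
    fun_prop
  have hDt1 : Dt 1 = D := by
    rw [hDt]
    simp only
    rw [one_pow, sub_self, zero_mul, add_zero, Real.sqrt_sq hD.le]
  have e1 : ∀ᶠ s in 𝓝 (1 : ℝ), ∀ l, k * (S s l * H l) < Dt s ∧ Dt s < k * (S s l * W l) := by
    rw [Filter.eventually_all]
    intro l
    have hcS : Continuous fun s : ℝ => S s l := by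
      rw [hS]
      simp only
      split_ifs
      · exact continuous_id
      · exact continuous_const
    have hS1 : S 1 l = 1 := by
      rw [hS]
      simp
    have e2 : ∀ᶠ s in 𝓝 (1 : ℝ), k * (S s l * H l) < Dt s := by
      have hc1 : Continuous fun s : ℝ => k * (S s l * H l) := by fun_prop
      apply hc1.continuousAt.eventually_lt hcD.continuousAt
      rw [hDt1, hS1, one_mul]
      exact (hkH l).1
    have e3 : ∀ᶠ s in 𝓝 (1 : ℝ), Dt s < k * (S s l * W l) := by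
      have hc1 : Continuous fun s : ℝ => k * (S s l * W l) := by fun_prop
      apply hcD.continuousAt.eventually_lt hc1.continuousAt
      rw [hDt1, hS1, one_mul]
      exact (hkH l).2
    exact e2.and e3
  have e4 : ∀ᶠ s in 𝓝 (1 : ℝ), 0 < s := by
    exact lt_mem_nhds one_pos
  have e5 : ∀ᶠ s in 𝓝 (1 : ℝ), 0 < Dt s := by
    have := hcD.continuousAt (x := (1 : ℝ))
    apply this.eventually_const_lt
    rw [hDt1]
    exact hD
  have e6 : ∀ᶠ s in 𝓝 (1 : ℝ), 0 ≤ Dt s * d - (D * d + (s - 1) * X l₀) := by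
    filter_upwards [e1, e4, e5] with s h1 h2 h3
    by_contra h4
    have h5 : Dt s * d < ∑ l, S s l * ∑ i ∈ A l, μ i * (m i : ℝ) := by
      simp only [← hXl]
      rw [hsumX]
      linarith
    apply hcon
    refine pert hE hN hB hAr hT hk hc hdis hCut d m (S s) (Dt s) ?_ h3 ?_ h1 h5
    · intro l
      rw [hS]
      simp only
      split_ifs
      · exact h2
      · exact one_pos
    · rw [hsum, hDt]
      simp only
      apply Real.sq_sqrt
      have h6 : 0 ≤ s ^ 2 * (W l₀ * H l₀) := mul_nonneg (sq_nonneg s) (hWH l₀).le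
      linarith
  have hmin : IsLocalMin (fun s => Dt s * d - (D * d + (s - 1) * X l₀)) 1 := by
    filter_upwards [e6] with s hs
    rw [hDt1]
    linarith
  have hder : HasDerivAt (fun s => Dt s * d - (D * d + (s - 1) * X l₀))
      ((2 * (W l₀ * H l₀)) / (2 * D) * d - X l₀) 1 := by
    have h1 : HasDerivAt (fun s : ℝ => D ^ 2 + (s ^ 2 - 1) * (W l₀ * H l₀))
        (2 * (W l₀ * H l₀)) 1 := by
      have h0 : HasDerivAt (fun s : ℝ => s ^ 2) 2 1 := by
        simpa using hasDerivAt_pow 2 (1 : ℝ)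
      exact ((h0.sub_const 1).mul_const (W l₀ * H l₀)).const_add (D ^ 2)
    have h3 := h1.sqrt (by
      rw [one_pow, sub_self, zero_mul, add_zero]
      exact (pow_pos hD 2).ne')
    rw [one_pow, sub_self, zero_mul, add_zero, Real.sqrt_sq hD.le] at h3
    have h4 : HasDerivAt (fun s : ℝ => D * d + (s - 1) * X l₀) (X l₀) 1 := by
      have h5 := (((hasDerivAt_id (1 : ℝ)).sub_const 1).mul_const (X l₀)).const_add (D * d)
      simpa using h5
    rw [hDt]
    exact (h3.mul_const (d : ℝ)).sub h4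
  have hzero := hmin.hasDerivAt_eq_zero hder
  have hXl0 : X l₀ = d * (W l₀ * H l₀) / D := by
    have h1 : (2 * (W l₀ * H l₀)) / (2 * D) * d = d * (W l₀ * H l₀) / D := by
      field_simp
    rw [h1] at hzero
    linarith
  rw [← hXl]
  exact hXl0

theorem t (hE : S_EMPT2) (hEE : S_EMPTE) (hN : S_NEFA2) (hB : S_BIG) (hAr : S_AREA)
    (hT : Tate.S_TRK)
    {n : ℕ} {k c : ℕ} {μ : Fin n → ℝ} {W H : Fin c → ℝ} {A : Fin c → Finset (Fin n)}
    {D : ℝ} (hk : 3 ≤ k) (hc : 2 * c ≤ (k - 1) * (k - 2))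
    (hdis : ∀ l l', l ≠ l' → Disjoint (A l) (A l'))
    (hCut : ∀ l, Cut μ μ (W l) (H l) (A l)) (hD : 0 < D) (hD2 : D ^ 2 = ∑ l, W l * H l)
    (hkH : ∀ l, k * H l < D ∧ D < k * W l)
    (d : ℕ) (hd : 1 ≤ d) (m : Fin n → ℕ) (hle : D * d ≤ ∑ l, ∑ i ∈ A l, μ i * m i) :
    GenDim d m 0 ∧ vdim d m ≤ 0 := by
  classical
  rcases lt_or_eq_of_le hle with hlt | heq
  · exact Pool.Agent.Helper1.T1.NEF2.gen hE hN hB hAr hT hk hc hdis hCut hD hD2 hkH d m hlt
  by_contra hcon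
  have hAr' := fun l => hAr n μ (W l) (H l) (A l) (hCut l)
  have hX := fun l => eqX hE hN hB hAr hT hk hc hdis hCut hD hD2 hkH l d m heq hcon
  have hrat : ∀ l, ∃ σ a : ℚ, W l = σ * H l ∧ ∑ i ∈ A l, μ i * (m i : ℝ) = a * H l := by
    intro l
    obtain ⟨-, -, ⟨σ, hσ⟩, hr⟩ := rat (hCut l) rfl
    have hr' : ∀ i, ∃ ρ : ℚ, i ∈ A l → μ i = ρ * H l := by
      intro i
      by_cases hi : i ∈ A l
      · obtain ⟨ρ, hρ⟩ := hr i hi
        exact ⟨ρ, fun _ => hρ⟩
      · exact ⟨0, fun h => absurd h hi⟩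
    choose ρ hρ using hr'
    refine ⟨σ, ∑ i ∈ A l, ρ i * m i, hσ, ?_⟩
    push_cast
    rw [Finset.sum_mul]
    apply Finset.sum_congr rfl
    intro i hi
    rw [hρ i hi]
    ring
  choose σ a hσ ha using hrat
  have htri := fun l => tri m (hCut l)
  choose hW0 hH0 lam hlam using htri
  have hk0 : (0 : ℝ) < k := by
    have : 0 < k := by omega
    exact_mod_cast this
  have hd0 : (0 : ℝ) < d := by
    have : 0 < d := by omega
    exact_mod_cast this
  have hσR : ∀ l, W l / H l = σ l := by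
    intro l
    rw [hσ l, mul_div_cancel_right₀ _ (hH0 l).ne']
  have haH : ∀ l, (∑ i ∈ A l, μ i * (m i : ℝ)) / H l = a l := by
    intro l
    rw [ha l, mul_div_cancel_right₀ _ (hH0 l).ne']
  -- `v = k W / D`
  have hv : ∀ l, (a l : ℝ) / ((d : ℝ) / k) = k * W l / D := by
    intro l
    rw [← haH l, hX l]
    have h1 := (hH0 l).ne'
    have h2 := hD.ne'
    have h3 := hd0.ne'
    have h4 := hk0.ne'
    field_simp
  have hvq : ∀ l, (((a l * k / d : ℚ)) : ℝ) = k * W l / D := by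
    intro l
    rw [← hv l]
    push_cast
    have h3 := hd0.ne'
    have h4 := hk0.ne'
    field_simp
  have hsum : (k : ℚ) ^ 2 ≤ ∑ l, (a l * k / d) ^ 2 / σ l := by
    have h1 : ((∑ l, (a l * k / d) ^ 2 / σ l : ℚ) : ℝ) = (k : ℝ) ^ 2 := by
      have h2 : ((∑ l, (a l * k / d) ^ 2 / σ l : ℚ) : ℝ) =
          ∑ l, (((a l * k / d : ℚ) : ℝ)) ^ 2 / ((σ l : ℚ) : ℝ) := by
        push_cast
        rfl
      rw [h2]
      have h3 : ∀ l, (((a l * k / d : ℚ) : ℝ)) ^ 2 / ((σ l : ℚ) : ℝ) =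
          (k : ℝ) ^ 2 / D ^ 2 * (W l * H l) := by
        intro l
        rw [hvq l, ← hσR l]
        have h4 := (hH0 l).ne'
        have h5 := (hW0 l).ne'
        have h6 := hD.ne'
        field_simp
      rw [Finset.sum_congr rfl fun l _ => h3 l, ← Finset.mul_sum, ← hD2]
      have h6 := hD.ne'
      field_simp
    have h7 : ((k : ℚ) : ℝ) ^ 2 ≤ ((∑ l, (a l * k / d) ^ 2 / σ l : ℚ) : ℝ) := by
      rw [h1]
      simp
    exact_mod_cast h7
  obtain ⟨K, i1, i2, Q, hQ⟩ := hEE k c d n m A lam H W (fun l => (a l : ℝ))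
    (fun l => a l * k / d) σ hk hc hd hdis (fun l => ⟨(hlam l).1, hH0 l, hW0 l⟩)
    (by
      intro l s a' hsa
      apply (hlam l).2
      refine lt_of_lt_of_eq hsa ?_
      rw [← ha l]
      apply Finset.sum_congr rfl
      intro i _
      rw [min_self])
    (by
      intro l
      refine ⟨?_, hσR l, ?_, ?_⟩
      · rw [hvq l, hv l]
      · have h1 : (1 : ℝ) < ((a l * k / d : ℚ) : ℝ) := by
          rw [hvq l, lt_div_iff₀ hD, one_mul]
          exact (hkH l).2
        exact_mod_cast h1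
      · have h1 : ((a l * k / d : ℚ) : ℝ) < ((σ l : ℚ) : ℝ) := by
          rw [hvq l, ← hσR l, div_lt_div_iff₀ hD (hH0 l)]
          have h2 := mul_lt_mul_of_pos_left (hkH l).1 (hW0 l)
          linarith
        exact_mod_cast h1)
    hsum
  have h5 := transC (n := n) (d := d) (m := m) (N := 0) hT ⟨K, i1, i2, Q, by omega⟩
  have h6 := upgrade h5 (by simp)
  obtain ⟨G', hG0, hG⟩ := h5
  have h7 : GenDim d m 0 := ⟨G', hG0, fun P _ hP => by
    rw [Nat.le_zero.1 (hG P hP)]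
    rfl⟩
  apply hcon
  refine ⟨h7, ?_⟩
  rw [← gen_unique h6 h7]
  exact le_max_left _ _

end Pool.Agent.Helper1.T1.STRE
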